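import Pool.Agent.OSR.Sm
import Pool.Agent.H69.Sched.LogAlg

/-!
The algorithm and its runs.

`exists_mid`: for `k < m` there are a set `K` of `k` machines and a machine `j ∉ K` with
`a l ≤ a j` for `l ∈ K` and `a j ≤ a l` for `l ∉ K` (PROOF: induction on `k`: `k = 0` take a least
loaded machine (`Finite.exists_min`); from `(K, j)` to `k + 1`: `K' = insert j K` and `j'` a
least loaded machine outside `K'`; all loads in `K'` are `≤ a j ≤ a j'`.)

`run`: for an infinite sequence `J` of jobs with positive entries, `st J n` is the state after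
`n` jobs, and `ofJobs` is the `Run`. `st_X`, `st_E`, `st_a`: induction on `n` with `sm_succ`.
`state_take`: the state after the list `I.take k` is `st J k` if `J` extends `I`
(induction on `k`, `List.take_succ`/`List.take_concat_get`, `foldl_append`).
-/

open Finset
open scoped Classical

namespace Pool.Agent.OSR

noncomputable section

theorem exists_mid {m k : ℕ} (hk : k < m) (a : Fin m → ℝ) :
    ∃ (K : Finset (Fin m)) (j : Fin m), K.card = k ∧ j ∉ K ∧ (∀ l ∈ K, a l ≤ a j) ∧
      ∀ l, l ∉ K → a j ≤ a l := by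
  induction k with
  | zero =>
    have : Nonempty (Fin m) := ⟨⟨0, hk⟩⟩
    obtain ⟨j, hj⟩ := Finite.exists_min a
    exact ⟨∅, j, by simp, by simp, by simp, fun l _ => hj l⟩
  | succ k ih =>
    obtain ⟨K, j, hK, hj, h1, h2⟩ := ih (by omega)
    have hne : ((insert j K)ᶜ : Finset (Fin m)).Nonempty := by
      rw [← Finset.card_pos, Finset.card_compl, Finset.card_insert_of_notMem hj, hK,
        Fintype.card_fin]
      omega
    obtain ⟨j', hj', hmin⟩ := exists_min_image _ a hne
    rw [Finset.mem_compl] at hj'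
    refine ⟨insert j K, j', by rw [Finset.card_insert_of_notMem hj, hK], hj', fun l hl => ?_,
      fun l hl => hmin l (Finset.mem_compl.2 hl)⟩
    have hjj' : a j ≤ a j' := h2 j' fun h => hj' (Finset.mem_insert_of_mem h)
    rcases Finset.mem_insert.1 hl with rfl | hl
    · exact hjj'
    · exact (h1 l hl).trans hjj'

theorem two_thirds {m : ℕ} (hm : 0 < m) : 2 * m / 3 < m := by omega

/-- A machine of rank `2 m / 3`. -/
def mid {m : ℕ} (hm : 0 < m) (a : Fin m → ℝ) : Fin m :=
  (exists_mid (two_thirds hm) a).choose_spec.choose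

/-- The packing rule. -/
def mach {m : ℕ} (hm : 0 < m) (ζ : ℝ) (a : Fin m → ℝ) (t : ℝ) : Fin m :=
  if a (mid hm a) + t ≤ (2 - 3 * ζ) * ((∑ l, a l) / m) then mid hm a
  else Pool.Agent.H69.Sched.amin hm a

theorem mach_place {m : ℕ} (hm : 0 < m) (ζ : ℝ) (a : Fin m → ℝ) (t : ℝ) :
    PlaceP (2 * m / 3) ζ a t (mach hm ζ a t) ∨ PlaceL (2 * m / 3) ζ a t (mach hm ζ a t) := by
  obtain ⟨hK, hj, h1, h2⟩ := (exists_mid (two_thirds hm) a).choose_spec.choose_spec
  by_cases h : a (mid hm a) + t ≤ (2 - 3 * ζ) * ((∑ l, a l) / m)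
  · left
    rw [mach, if_pos h]
    exact ⟨h, (exists_mid (two_thirds hm) a).choose, hK, hj, h1⟩
  · right
    rw [mach, if_neg h]
    exact ⟨Pool.Agent.H69.Sched.amin_le hm a, (exists_mid (two_thirds hm) a).choose, mid hm a, hK,
      h2, not_le.1 h⟩

/-- The state of the algorithm: loads, penalty of the rule 1 rejections, net price of the rule 3
rejections. -/
structure AState (m : ℕ) where
  a : Fin m → ℝ
  X : ℝ
  E : ℝ

/-- The class of a job in a state. -/
def cls (m : ℕ) (c Z B ν ζ : ℝ) (s : AState m) (j : ℝ × ℝ) : Fin 4 :=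
  if j.2 ≤ 4 / 5 * j.1 / m then 0
  else if (c - 1) * s.X + c * j.2 < j.1 then 1
  else if s.E < ζ * j.1 ∧ j.2 - 4 / 5 * j.1 / m < F Z B ν j.1 s.E then 2
  else 3

/-- The next state. -/
def nxt {m : ℕ} (hm : 0 < m) (c Z B ν ζ : ℝ) (s : AState m) (j : ℝ × ℝ) : AState m where
  a := fun i => s.a i + if cls m c Z B ν ζ s j = 3 ∧ mach hm ζ s.a j.1 = i then j.1 else 0
  X := s.X + if cls m c Z B ν ζ s j = 1 then j.2 else 0
  E := s.E + if cls m c Z B ν ζ s j = 2 then j.2 - 4 / 5 * j.1 / m else 0

/-- The state after a list of jobs. -/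
def state {m : ℕ} (hm : 0 < m) (c Z B ν ζ : ℝ) (L : List (ℝ × ℝ)) : AState m :=
  L.foldl (nxt hm c Z B ν ζ) ⟨fun _ => 0, 0, 0⟩

/-- The algorithm: the decision on the last job of the list. -/
def alg {m : ℕ} (hm : 0 < m) (c Z B ν ζ : ℝ) (L : List (ℝ × ℝ)) : Option (Fin m) :=
  L.getLast?.bind (fun j => if cls m c Z B ν ζ (state hm c Z B ν ζ L.dropLast) j = 3
    then some (mach hm ζ (state hm c Z B ν ζ L.dropLast).a j.1) else none)

/-- The state after `n` jobs of an infinite sequence. -/
def st {m : ℕ} (hm : 0 < m) (c Z B ν ζ : ℝ) (J : ℕ → ℝ × ℝ) : ℕ → AState m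
  | 0 => ⟨fun _ => 0, 0, 0⟩
  | n + 1 => nxt hm c Z B ν ζ (st hm c Z B ν ζ J n) (J n)

theorem state_take {m : ℕ} (hm : 0 < m) (c Z B ν ζ : ℝ) (J : ℕ → ℝ × ℝ) (n : ℕ) :
    state hm c Z B ν ζ ((List.range n).map J) = st hm c Z B ν ζ J n := by
  induction n with
  | zero => rfl
  | succ n ih =>
    rw [List.range_succ, List.map_append, state, List.foldl_append]
    change nxt hm c Z B ν ζ (state hm c Z B ν ζ ((List.range n).map J)) (J n) = _
    rw [ih]
    rfl

/-- The run of the algorithm on an infinite sequence. -/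
theorem exists_run {m : ℕ} (hm : 0 < m) (c Z B ν ζ : ℝ) (J : ℕ → ℝ × ℝ)
    (hJ : ∀ j, 0 < (J j).1 ∧ 0 < (J j).2) :
    ∃ R : Run m c Z B ν ζ, (∀ j, R.t j = (J j).1) ∧ (∀ j, R.p j = (J j).2) ∧
      (∀ j, R.cl j = cls m c Z B ν ζ (st hm c Z B ν ζ J j) (J j)) ∧
      (∀ j, R.ma j = mach hm ζ (st hm c Z B ν ζ J j).a (J j).1) := by
  set cl : ℕ → Fin 4 := fun j => cls m c Z B ν ζ (st hm c Z B ν ζ J j) (J j) with hcl
  set ma : ℕ → Fin m := fun j => mach hm ζ (st hm c Z B ν ζ J j).a (J j).1 with hma
  set t : ℕ → ℝ := fun j => (J j).1 with ht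
  set p : ℕ → ℝ := fun j => (J j).2 with hp
  have hX : ∀ n, (st hm c Z B ν ζ J n).X = sm n (fun i => cl i = 1) p := by
    intro n
    induction n with
    | zero => simp [st, sm_zero]
    | succ n ih =>
      rw [sm_succ, ← ih]
      simp only [st, nxt, hcl, hp]
  have hE : ∀ n, (st hm c Z B ν ζ J n).E = sm n (fun i => cl i = 2) (net m t p) := by
    intro n
    induction n with
    | zero => simp [st, sm_zero]
    | succ n ih =>
      rw [sm_succ, ← ih]
      simp only [st, nxt, hcl, hp, ht, net]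
      all_goals (split_ifs <;> rfl)
  have ha : ∀ n i, (st hm c Z B ν ζ J n).a i = sm n (fun l => cl l = 3 ∧ ma l = i) t := by
    intro n i
    induction n with
    | zero => simp [st, sm_zero]
    | succ n ih =>
      rw [sm_succ, ← ih]
      simp only [st, nxt, hcl, hma, ht]
  have ha' : ∀ n, (st hm c Z B ν ζ J n).a = fun i => sm n (fun l => cl l = 3 ∧ ma l = i) t :=
    fun n => funext fun i => ha n i
  refine ⟨{ t := t, p := p, cl := cl, ma := ma, ht := fun j => (hJ j).1, hp := fun j => (hJ j).2,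
            hB := ?_, hz := ?_, h1 := ?_, h1' := ?_, h3 := ?_, h3' := ?_, hpl := ?_ },
    fun _ => rfl, fun _ => rfl, fun _ => rfl, fun _ => rfl⟩
  · intro j hj
    simp only [hcl, cls] at hj
    by_contra hc0
    rw [if_neg hc0] at hj
    split_ifs at hj <;> exact absurd hj (by decide)
  · intro j hj
    by_contra hc0
    rw [not_lt] at hc0
    apply hj
    simp only [hcl, cls]
    rw [if_pos hc0]
  · intro j hj
    rw [← hX]
    simp only [hcl, cls] at hj
    by_contra hc1
    rw [if_neg hc1] at hj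
    split_ifs at hj <;> exact absurd hj (by decide)
  · intro j hj
    rw [← hX]
    simp only [hcl, cls] at hj
    by_contra hc1
    rw [not_le] at hc1
    rw [if_pos hc1] at hj
    split_ifs at hj <;> rcases hj with hj | hj <;> exact absurd hj (by decide)
  · intro j hj
    rw [← hE]
    simp only [hcl, cls] at hj
    split_ifs at hj with h0 h1 h2
    · exact absurd hj (by decide)
    · exact absurd hj (by decide)
    · exact h2
    · exact absurd hj (by decide)
  · intro j hj
    rw [← hE]
    simp only [hcl, cls] at hj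
    split_ifs at hj with h0 h1 h2
    · exact absurd hj (by decide)
    · exact absurd hj (by decide)
    · exact absurd hj (by decide)
    · by_contra hcon
      push Not at hcon
      exact h2 hcon
  · intro j _
    rw [← ha']
    exact mach_place hm ζ _ _

end

end Pool.Agent.OSR
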