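import Pool.Agent.OSR.Alg

/-!
From the indexed form to lists.

PROOFS. `load_eq`, `penalty_eq`: for a list `I` of `n` jobs and a list `α` of `n` decisions, with
`J j = I.getD j (1, 1)` and `σ j = α.getD j none`: induction from the right
(`List.reverseRecOn`, `load_snoc`, `penalty_snoc` of `H69.Sched.LogAlg`, `sm_succ`, `sm_congr`).
`competitive_of_index`: given `I` (positive entries), let `J j = I.getD j (1, 1)`, `R` from
`exists_run`. The run of the algorithm on `I` is a list `α` of length `n` with
`α.getD k none = if R.cl k = 3 then some (R.ma k) else none` for `k < n`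
(`I.take (k+1) = (List.range (k+1)).map J`, `state_take`). So `load I α i = R.load n i` and
`penalty I α = sm n (cl ≠ 3) p`. For any list `σ` of length `n` put
`T = ⨆ i, load I σ i`; `load I σ i ≤ T` (`bddAbove_load`), and `hidx` gives
`R.load n i + penalty ≤ c (T + penalty I σ) = c * cost I σ` for all `i`, so
`cost I α ≤ c * cost I σ` (`ciSup_le`; `Fin m` is nonempty). Conclude with `le_csInf` as in
`H69.Sched.competitive_of`.
`R_le`: `csInf_le (R_bddBelow m) ⟨_, _⟩`.
-/

open Finset
open scoped Classical

namespace Pool.Agent.OSR

open Pool.Agent.H78.Sched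

variable {m : ℕ}

theorem exists_snoc {α : List (Option (Fin m))} {n : ℕ} (h : α.length = n + 1) :
    ∃ (α' : List (Option (Fin m))) (d : Option (Fin m)), α = α' ++ [d] ∧ α'.length = n := by
  have hne : α ≠ [] := by
    intro h0
    rw [h0] at h
    simp at h
  refine ⟨α.dropLast, α.getLast hne, (List.dropLast_append_getLast hne).symm, ?_⟩
  rw [List.length_dropLast, h]
  omega

theorem getD_snoc_lt {β : Type} (L : List β) (x d : β) {k : ℕ} (hk : k < L.length) :
    (L ++ [x]).getD k d = L.getD k d := by
  rw [List.getD_eq_getElem?_getD, List.getD_eq_getElem?_getD, List.getElem?_append_left hk]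

theorem getD_snoc_eq {β : Type} (L : List β) (x d : β) {k : ℕ} (hk : L.length = k) :
    (L ++ [x]).getD k d = x := by
  subst hk
  simp

theorem load_eq (I : List (ℝ × ℝ)) (α : List (Option (Fin m))) (h : α.length = I.length)
    (i : Fin m) :
    load I α i = sm I.length (fun j => α.getD j none = some i) (fun j => (I.getD j (1, 1)).1) := by
  induction I using List.reverseRecOn generalizing α with
  | nil =>
    have : α = [] := List.length_eq_zero_iff.1 h
    subst this
    simp [load, sm_zero]
  | append_singleton I j ih =>
    rw [List.length_append, List.length_singleton] at h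
    obtain ⟨α', d, rfl, h'⟩ := exists_snoc h
    rw [Pool.Agent.H69.Sched.load_snoc h', ih α' h', List.length_append, List.length_singleton,
      sm_succ, getD_snoc_eq α' d none h', getD_snoc_eq I j (1, 1) rfl]
    congr 1
    · refine sm_congr (fun k hk => ?_) (fun k hk _ => ?_)
      · rw [getD_snoc_lt α' d none (by omega)]
      · rw [getD_snoc_lt I j (1, 1) hk]
    · split_ifs <;> rfl

theorem penalty_eq (I : List (ℝ × ℝ)) (α : List (Option (Fin m))) (h : α.length = I.length) :
    penalty I α = sm I.length (fun j => α.getD j none = none)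
      (fun j => (I.getD j (1, 1)).2) := by
  induction I using List.reverseRecOn generalizing α with
  | nil =>
    have : α = [] := List.length_eq_zero_iff.1 h
    subst this
    simp [penalty, sm_zero]
  | append_singleton I j ih =>
    rw [List.length_append, List.length_singleton] at h
    obtain ⟨α', d, rfl, h'⟩ := exists_snoc h
    rw [Pool.Agent.H69.Sched.penalty_snoc h', ih α' h', List.length_append, List.length_singleton,
      sm_succ, getD_snoc_eq α' d none h', getD_snoc_eq I j (1, 1) rfl]
    congr 1
    · refine sm_congr (fun k hk => ?_) (fun k hk _ => ?_)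
      · rw [getD_snoc_lt α' d none (by omega)]
      · rw [getD_snoc_lt I j (1, 1) hk]
    · split_ifs <;> rfl

theorem take_eq_map (I : List (ℝ × ℝ)) {k : ℕ} (hk : k ≤ I.length) :
    I.take k = (List.range k).map (fun j => I.getD j (1, 1)) := by
  apply List.ext_getElem
  · simp [hk]
  · intro n h1 h2
    rw [List.length_take] at h1
    have hn : n < I.length := by omega
    rw [List.getElem_take, List.getElem_map, List.getElem_range, List.getD_eq_getElem?_getD,
      List.getElem?_eq_getElem hn, Option.getD_some]

theorem competitive_of_index (hm : 0 < m) {c Z B ν ζ : ℝ} (hc : 0 < c)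
    (hidx : ∀ (R : Run m c Z B ν ζ) (n : ℕ) (σ : ℕ → Option (Fin m)) (T : ℝ), 0 ≤ T →
      (∀ i, sm n (fun j => σ j = some i) R.t ≤ T) → ∀ i : Fin m,
      R.load n i + sm n (fun j => R.cl j ≠ 3) R.p ≤
        c * (T + sm n (fun j => σ j = none) R.p)) :
    Competitive m (alg hm c Z B ν ζ) c := by
  have : Nonempty (Fin m) := ⟨⟨0, hm⟩⟩
  intro I hI
  set J : ℕ → ℝ × ℝ := fun j => I.getD j (1, 1) with hJdef
  have hJ : ∀ j, 0 < (J j).1 ∧ 0 < (J j).2 := by
    intro j
    simp only [hJdef]
    by_cases hj : j < I.length
    · rw [List.getD_eq_getElem?_getD, List.getElem?_eq_getElem hj, Option.getD_some]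
      exact hI _ (List.getElem_mem hj)
    · rw [List.getD_eq_getElem?_getD, List.getElem?_eq_none (by omega), Option.getD_none]
      norm_num
  obtain ⟨R', hRt, hRp, hRcl, hRma⟩ := exists_run hm c Z B ν ζ J hJ
  set α := run (alg hm c Z B ν ζ) I with hα
  have hlen : α.length = I.length := length_run _ _
  have hget : ∀ k, k < I.length →
      α.getD k none = if R'.cl k = 3 then some (R'.ma k) else none := by
    intro k hk
    have h1 : α.getD k none = alg hm c Z B ν ζ (I.take (k + 1)) := by
      rw [hα, run, List.getD_eq_getElem?_getD, List.getElem?_map, List.getElem?_range hk]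
      rfl
    rw [h1, take_eq_map I (by omega : k + 1 ≤ I.length), List.range_succ, List.map_append,
      List.map_singleton, alg, List.getLast?_concat, List.dropLast_concat, Option.bind_some]
    have h2 := state_take hm c Z B ν ζ J k
    rw [hJdef] at h2
    rw [h2, hRcl, hRma]
  have hload : ∀ i, load I α i = R'.load I.length i := by
    intro i
    rw [load_eq I α hlen i]
    unfold Run.load
    refine sm_congr (fun k hk => ?_) (fun k hk _ => ?_)
    · rw [hget k hk]
      by_cases h3 : R'.cl k = 3
      · simp [h3]
      · simp [h3]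
    · rw [hRt]
  have hpen : penalty I α = sm I.length (fun j => R'.cl j ≠ 3) R'.p := by
    rw [penalty_eq I α hlen]
    refine sm_congr (fun k hk => ?_) (fun k hk _ => ?_)
    · rw [hget k hk]
      by_cases h3 : R'.cl k = 3
      · simp [h3]
      · simp [h3]
    · rw [hRp]
  have key : ∀ σ : List (Option (Fin m)), σ.length = I.length →
      cost I α ≤ c * cost I σ := by
    intro σ hσ
    set T : ℝ := ⨆ i : Fin m, load I σ i with hTdef
    have hT : 0 ≤ T := Real.iSup_nonneg (fun i => load_nonneg hI σ i)
    -- the assignment `σ` continued by rejections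
    have hσload : ∀ i, sm I.length (fun j => σ.getD j none = some i) R'.t ≤ T := by
      intro i
      have h1 : load I σ i ≤ T := le_ciSup (bddAbove_load I σ) i
      rw [load_eq I σ hσ i] at h1
      refine le_of_eq_of_le ?_ h1
      exact sm_congr (fun k _ => Iff.rfl) (fun k _ _ => by rw [hRt])
    have hσpen : sm I.length (fun j => σ.getD j none = none) R'.p = penalty I σ := by
      rw [penalty_eq I σ hσ]
      exact sm_congr (fun k _ => Iff.rfl) (fun k _ _ => by rw [hRp])
    have h2 : ∀ i, load I α i ≤ c * cost I σ - penalty I α := by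
      intro i
      have h3 := hidx R' I.length (fun j => σ.getD j none) T hT hσload i
      rw [hσpen] at h3
      rw [hload i, hpen]
      unfold cost
      linarith
    have h3 := ciSup_le h2
    change (⨆ i : Fin m, load I α i) + penalty I α ≤ _
    linarith
  unfold opt
  rw [← div_le_iff₀' hc]
  apply le_csInf
  · exact ⟨_, List.replicate I.length none, by simp, rfl⟩
  · rintro y ⟨σ, hσ, rfl⟩
    rw [div_le_iff₀' hc]
    exact key σ hσ

theorem R_le (hm : 0 < m) {c Z B ν ζ : ℝ} (hc : 0 < c)
    (hidx : ∀ (R : Run m c Z B ν ζ) (n : ℕ) (σ : ℕ → Option (Fin m)) (T : ℝ), 0 ≤ T →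
      (∀ i, sm n (fun j => σ j = some i) R.t ≤ T) → ∀ i : Fin m,
      R.load n i + sm n (fun j => R.cl j ≠ 3) R.p ≤
        c * (T + sm n (fun j => σ j = none) R.p)) :
    R m ≤ c :=
  csInf_le (Pool.Agent.H69.Sched.R_bddBelow m) ⟨_, competitive_of_index hm hc hidx⟩

end Pool.Agent.OSR
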