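import Pool.Agent.OSR.Defs

/-!
Basic facts on the partial sums `sm`.
-/

open Finset
open scoped Classical

namespace Pool.Agent.OSR

variable {m n k : ℕ} {Q Q' P : ℕ → Prop} {f g : ℕ → ℝ}

theorem sm_zero (Q : ℕ → Prop) (f : ℕ → ℝ) : sm 0 Q f = 0 := by simp [sm]

theorem sm_succ (n : ℕ) (Q : ℕ → Prop) (f : ℕ → ℝ) :
    sm (n + 1) Q f = sm n Q f + if Q n then f n else 0 := by
  unfold sm
  rw [range_add_one, filter_insert]
  split_ifs with h
  · rw [sum_insert (by simp), add_comm]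
  · rw [add_zero]

theorem sm_nonneg (h : ∀ j, j < n → Q j → 0 ≤ f j) : 0 ≤ sm n Q f := by
  unfold sm
  apply sum_nonneg
  intro j hj
  rw [mem_filter, mem_range] at hj
  exact h j hj.1 hj.2

theorem sm_congr (hQ : ∀ j, j < n → (Q j ↔ Q' j)) (hf : ∀ j, j < n → Q j → f j = g j) :
    sm n Q f = sm n Q' g := by
  unfold sm
  have : (range n).filter Q = (range n).filter Q' := by
    apply filter_congr
    intro j hj
    exact hQ j (mem_range.1 hj)
  rw [← this]
  apply sum_congr rfl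
  intro j hj
  rw [mem_filter, mem_range] at hj
  exact hf j hj.1 hj.2

theorem sm_le_sm (h : ∀ j, j < n → Q j → f j ≤ g j) : sm n Q f ≤ sm n Q g := by
  unfold sm
  apply sum_le_sum
  intro j hj
  rw [mem_filter, mem_range] at hj
  exact h j hj.1 hj.2

/-- Monotonicity in the set of indices. -/
theorem sm_le_of_imp (hQ : ∀ j, j < n → Q j → Q' j) (h : ∀ j, j < n → Q' j → 0 ≤ f j) :
    sm n Q f ≤ sm n Q' f := by
  unfold sm
  apply sum_le_sum_of_subset_of_nonneg
  · intro j hj
    rw [mem_filter, mem_range] at hj ⊢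
    exact ⟨hj.1, hQ j hj.1 hj.2⟩
  · intro j hj _
    rw [mem_filter, mem_range] at hj
    exact h j hj.1 hj.2

/-- Monotonicity in the length of the prefix. -/
theorem sm_mono (hkn : k ≤ n) (h : ∀ j, j < n → Q j → 0 ≤ f j) : sm k Q f ≤ sm n Q f := by
  unfold sm
  apply sum_le_sum_of_subset_of_nonneg
  · intro j hj
    rw [mem_filter, mem_range] at hj ⊢
    exact ⟨hj.1.trans_le hkn, hj.2⟩
  · intro j hj _
    rw [mem_filter, mem_range] at hj
    exact h j hj.1 hj.2

theorem sm_split (n : ℕ) (Q P : ℕ → Prop) (f : ℕ → ℝ) :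
    sm n Q f = sm n (fun j => Q j ∧ P j) f + sm n (fun j => Q j ∧ ¬ P j) f := by
  induction n with
  | zero => simp [sm_zero]
  | succ n ih =>
    rw [sm_succ, sm_succ, sm_succ, ih]
    by_cases hQ : Q n <;> by_cases hP : P n <;> simp [hQ, hP] <;> ring

theorem sm_add (n : ℕ) (Q : ℕ → Prop) (f g : ℕ → ℝ) :
    sm n Q (fun j => f j + g j) = sm n Q f + sm n Q g := by
  unfold sm
  rw [sum_add_distrib]

theorem sm_sub (n : ℕ) (Q : ℕ → Prop) (f g : ℕ → ℝ) :
    sm n Q (fun j => f j - g j) = sm n Q f - sm n Q g := by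
  unfold sm
  rw [sum_sub_distrib]

theorem sm_mul (n : ℕ) (Q : ℕ → Prop) (a : ℝ) (f : ℕ → ℝ) :
    sm n Q (fun j => a * f j) = a * sm n Q f := by
  unfold sm
  rw [mul_sum]

theorem sm_div (n : ℕ) (Q : ℕ → Prop) (a : ℝ) (f : ℕ → ℝ) :
    sm n Q (fun j => f j / a) = sm n Q f / a := by
  unfold sm
  rw [sum_div]

theorem sm_eq_zero (h : ∀ j, j < n → ¬ Q j) : sm n Q f = 0 := by
  unfold sm
  rw [filter_false_of_mem, sum_empty]
  intro j hj
  exact h j (mem_range.1 hj)

/-- The last index with `Q`. -/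
theorem exists_last (h : ∃ j, j < n ∧ Q j) :
    ∃ l, l < n ∧ Q l ∧ (∀ j, j < n → Q j → j ≤ l) ∧ ∀ f, sm n Q f = sm l Q f + f l := by
  obtain ⟨j, hj, hQ⟩ := h
  have hne : ((range n).filter Q).Nonempty := ⟨j, by simp [hj, hQ]⟩
  obtain ⟨l, hl, hmax⟩ := exists_max_image _ (fun j => j) hne
  rw [mem_filter, mem_range] at hl
  have hmax' : ∀ j, j < n → Q j → j ≤ l := fun j hj hQ => hmax j (by simp [hj, hQ])
  refine ⟨l, hl.1, hl.2, hmax', fun f => ?_⟩
  have : (range n).filter Q = insert l ((range l).filter Q) := by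
    ext i
    simp only [mem_filter, mem_range, mem_insert]
    constructor
    · rintro ⟨h1, h2⟩
      rcases (hmax' i h1 h2).lt_or_eq with h | h
      · exact Or.inr ⟨h, h2⟩
      · exact Or.inl h
    · rintro (h | ⟨h1, h2⟩)
      · rw [h]; exact hl
      · exact ⟨h1.trans hl.1, h2⟩
  unfold sm
  rw [this, sum_insert (by simp), add_comm]

/-- The sum over the machines. -/
theorem sum_sm (n : ℕ) (Q : ℕ → Prop) (ma : ℕ → Fin m) (f : ℕ → ℝ) :
    ∑ i, sm n (fun j => Q j ∧ ma j = i) f = sm n Q f := by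
  induction n with
  | zero => simp [sm_zero]
  | succ n ih =>
    simp only [sm_succ, sum_add_distrib, ih]
    congr 1
    by_cases hQ : Q n <;> simp [hQ]

/-- The sum over the machines for an assignment. -/
theorem sum_sm_some (n : ℕ) (Q : ℕ → Prop) (σ : ℕ → Option (Fin m)) (f : ℕ → ℝ) :
    ∑ i, sm n (fun j => Q j ∧ σ j = some i) f = sm n (fun j => Q j ∧ σ j ≠ none) f := by
  induction n with
  | zero => simp [sm_zero]
  | succ n ih =>
    simp only [sm_succ, sum_add_distrib, ih]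
    congr 1
    by_cases hQ : Q n
    · rcases hσ : σ n with _ | i0 <;> simp [hQ]
    · simp [hQ]

/-- The sum over the machines for an assignment, all jobs. -/
theorem sum_sm_some' (n : ℕ) (σ : ℕ → Option (Fin m)) (f : ℕ → ℝ) :
    ∑ i, sm n (fun j => σ j = some i) f = sm n (fun j => σ j ≠ none) f := by
  have := sum_sm_some n (fun _ => True) σ f
  simpa using this

/-- The volume bound. -/
theorem volume_le {σ : ℕ → Option (Fin m)} {T : ℝ}
    (h : ∀ i, sm n (fun j => σ j = some i) f ≤ T) : sm n (fun j => σ j ≠ none) f ≤ m * T := by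
  rw [← sum_sm_some' (m := m)]
  calc ∑ i, sm n (fun j => σ j = some i) f ≤ ∑ _i : Fin m, T := sum_le_sum (fun i _ => h i)
    _ = m * T := by simp

/-- A hosted job has running time at most `T`. -/
theorem hosted_le {σ : ℕ → Option (Fin m)} {T : ℝ} (hf : ∀ j, 0 ≤ f j)
    (h : ∀ i, sm n (fun j => σ j = some i) f ≤ T) {j : ℕ} (hj : j < n) (hσ : σ j ≠ none) :
    f j ≤ T := by
  obtain ⟨i, hi⟩ := Option.ne_none_iff_exists'.1 hσ
  refine le_trans ?_ (h i)
  unfold sm
  exact single_le_sum (f := f) (fun l _ => hf l) (by simp [hj, hi])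

end Pool.Agent.OSR
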