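import Pool.Agent.OSR.Sm

/-!
The counting lemma. `σ` hosts jobs on `m` machines with loads `≤ T`. There are `m` different long
jobs `g i` (length `≥ (1-lam) T`), one more long job `l` which is hosted, and jobs `W` of length
`> lam T`. A hosted long job shares its machine with no other long job and no `W` job.

PROOF. For a machine `i` let `G_i` be the number of `i'` with `σ (g i') = some i`, and
`w_i = (sum of t j over j < n, W j, σ j = some i) / T`. Let `i0` be the machine of `l`.
(1) `G_i + w_i ≤ 1` for every `i`: if `G_i = 0` then `w_i ≤ 1` by `hload` (subset). If some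
`σ (g i') = some i`, then no other `g i''` (its length plus that of `g i'` is
`≥ 2 (1 - lam) T > T`, `lam < 1/2`, and `g` is injective) and no `W` job (its length is
`> lam T`) is hosted on `i`; so `G_i = 1` and `w_i = 0`.
(2) `G_{i0} + w_{i0} = 0`: the same argument with `l` (`g i ≠ l`, `¬ W l`).
Summing, `#{i' | σ (g i') ≠ none} + (sum over W hosted)/T = ∑ (G_i + w_i) ≤ m - 1`
(`sum_sm_some`; `∑ i, G_i` is the number of `i'` with `σ (g i') ≠ none`). Finally
`#{σ (g i') = none} = m - #{σ (g i') ≠ none}`.
-/

open Finset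
open scoped Classical

namespace Pool.Agent.OSR

theorem count {m n : ℕ} {σ : ℕ → Option (Fin m)} {t : ℕ → ℝ} {T lam : ℝ} (ht : ∀ j, 0 < t j)
    (hT : 0 < T) (hl0 : 0 ≤ lam) (hl1 : lam < 1 / 2)
    (hload : ∀ i, sm n (fun j => σ j = some i) t ≤ T) (g : Fin m → ℕ)
    (hg : Function.Injective g) (hgn : ∀ i, g i < n) (hgt : ∀ i, (1 - lam) * T ≤ t (g i))
    (l : ℕ) (hl : l < n) (hlσ : σ l ≠ none) (hlt : (1 - lam) * T ≤ t l) (hlg : ∀ i, g i ≠ l)
    (W : ℕ → Prop) (hW : ∀ j, W j → lam * T < t j) (hWg : ∀ i, ¬ W (g i)) (hWl : ¬ W l) :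
    1 + sm n (fun j => W j ∧ σ j ≠ none) t / T ≤
      ((univ.filter (fun i => σ (g i) = none)).card : ℝ) := by
  have hlT : lam * T < (1 - lam) * T := by nlinarith
  have hlT' : (1 - lam) * T = T - lam * T := by ring
  have pair : ∀ (i : Fin m) (a b : ℕ), a ≠ b → a < n → b < n → σ a = some i → σ b = some i →
      t a + t b ≤ T := by
    intro i a b hab ha hb hσa hσb
    refine le_trans ?_ (hload i)
    unfold sm
    rw [← sum_pair hab]
    apply sum_le_sum_of_subset_of_nonneg
    · intro j hj
      rw [mem_insert, mem_singleton] at hj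
      rcases hj with rfl | rfl
      · simp [ha, hσa]
      · simp [hb, hσb]
    · intro j _ _
      exact (ht j).le
  have hlong : ∀ (i : Fin m) (a : ℕ), a < n → (1 - lam) * T ≤ t a → σ a = some i →
      ∀ b, b ≠ a → b < n → σ b = some i → t b ≤ lam * T := by
    intro i a ha hta hσa b hb hbn hσb
    have := pair i a b hb.symm ha hbn hσa hσb
    linarith
  have hw0 : ∀ (i : Fin m) (a : ℕ), a < n → (1 - lam) * T ≤ t a → σ a = some i → ¬ W a →
      sm n (fun j => W j ∧ σ j = some i) t = 0 := by
    intro i a ha hta hσa hWa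
    apply sm_eq_zero
    rintro j hj ⟨hWj, hσj⟩
    have hne : j ≠ a := by
      rintro rfl
      exact hWa hWj
    have h1 := hlong i a ha hta hσa j hne hj hσj
    have h2 := hW j hWj
    linarith
  have h1 : ∀ i : Fin m, ((univ.filter (fun i' => σ (g i') = some i)).card : ℝ) +
      sm n (fun j => W j ∧ σ j = some i) t / T ≤ 1 := by
    intro i
    by_cases h : ∃ i', σ (g i') = some i
    · obtain ⟨i', hi'⟩ := h
      rw [hw0 i (g i') (hgn i') (hgt i') hi' (hWg i'), zero_div, add_zero]
      have hc : (univ.filter (fun i' => σ (g i') = some i)).card ≤ 1 := by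
        rw [card_le_one]
        intro a ha b hb
        simp only [mem_filter, mem_univ, true_and] at ha hb
        by_contra hab
        have h3 := hlong i (g a) (hgn a) (hgt a) ha (g b) (fun h => hab (hg h).symm) (hgn b) hb
        have h4 := hgt b
        linarith
      exact_mod_cast hc
    · have hf : univ.filter (fun i' => σ (g i') = some i) = ∅ := by
        rw [filter_eq_empty_iff]
        intro a _ ha
        exact h ⟨a, ha⟩
      rw [hf, card_empty, Nat.cast_zero, zero_add, div_le_one hT]
      exact le_trans (sm_le_of_imp (fun j _ h => h.2) (fun j _ _ => (ht j).le)) (hload i)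
  obtain ⟨i0, hi0⟩ := Option.ne_none_iff_exists'.1 hlσ
  have h2 : ((univ.filter (fun i' => σ (g i') = some i0)).card : ℝ) +
      sm n (fun j => W j ∧ σ j = some i0) t / T ≤ 0 := by
    rw [hw0 i0 l hl hlt hi0 hWl, zero_div, add_zero]
    have hf : univ.filter (fun i' => σ (g i') = some i0) = ∅ := by
      rw [filter_eq_empty_iff]
      intro a _ ha
      have h3 := hlong i0 l hl hlt hi0 (g a) (hlg a) (hgn a) ha
      have h4 := hgt a
      linarith
    rw [hf, card_empty, Nat.cast_zero]
  have hm : 1 ≤ m := Nat.one_le_iff_ne_zero.2 (by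
    rintro rfl
    exact i0.elim0)
  have h3 : ∑ i : Fin m, (((univ.filter (fun i' => σ (g i') = some i)).card : ℝ) +
      sm n (fun j => W j ∧ σ j = some i) t / T) ≤ m - 1 := by
    rw [← add_sum_erase univ _ (mem_univ i0)]
    have h4 := sum_le_sum (s := univ.erase i0) (fun i _ => h1 i)
    rw [sum_const, card_erase_of_mem (mem_univ _), card_univ, Fintype.card_fin, nsmul_eq_mul,
      mul_one, Nat.cast_sub hm, Nat.cast_one] at h4
    linarith
  rw [sum_add_distrib, ← sum_div, sum_sm_some] at h3
  have h5 : ∑ i : Fin m, ((univ.filter (fun i' => σ (g i') = some i)).card : ℝ) =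
      ((univ.filter (fun i' => ¬ σ (g i') = none)).card : ℝ) := by
    simp only [card_filter, Nat.cast_sum]
    rw [sum_comm]
    apply sum_congr rfl
    intro i' _
    rcases hσ : σ (g i') with _ | i1
    · simp
    · simp
  have h6 := card_filter_add_card_filter_not (s := (univ : Finset (Fin m))) (fun i' => σ (g i') = none)
  rw [card_univ, Fintype.card_fin] at h6
  have h7 : ((univ.filter (fun i => σ (g i) = none)).card : ℝ) +
      ((univ.filter (fun i' => ¬ σ (g i') = none)).card : ℝ) = m := by
    exact_mod_cast h6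
  linarith

end Pool.Agent.OSR
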