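import Pool.Agent.OSR.EB
import Pool.Agent.OSR.Claim
import Pool.Agent.OSR.Count

/-!
The requirement in a critical state. `g i` are `m` long accepted jobs, `l` a long rule 1 job hosted
by `σ`.

PROOF. Put `λ = lam` (`≤ 1/20`, as `ζ ≤ 10^-6`), `W j := cl j = 2 ∧ lam T < t j`,
`P = ρ F(T, E n) ≥ 0`, `wH = sm n (W ∧ σ ≠ none) t / T`.
(1) Counting (`count` with this `W`; `cl (g i) = 3`, `cl l = 1`, so `g i ≠ l`, `¬ W (g i)`,
`¬ W l`): `1 + wH ≤ #{i | σ (g i) = none}`.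
(2) For every `i`: `z (g i) ≥ P`. Let `j = g i`. `R.h3' j`: the first alternative
`ζ t_j ≤ E j` is impossible: `E j ≤ E n < ζ T / 2 ≤ ζ t_j` (`sm_mono`, `t_j ≥ (1-lam) T ≥ T/2`).
So `z_j ≥ F(t_j, E j) ≥ F((1-lam) T, E j) ≥ (1-lam)^(1+ν) F(T, E j) ≥ ρ F(T, E n)`
(`F_mono`, `F_scale`, `F_anti`; `ρ ≤ (1 - (50 ζ + 25 √(2ζ)))^(1+ν) ≤ (1-lam)^(1+ν)` by `G.hρ3` and
`Real.rpow_le_rpow`).
(3) `rx n σ s z ≥ ∑_{i : σ (g i) = none} z (g i) ≥ P (1 + wH)` (`g` injective, `g i ≠ s`,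
`g i < n`, `cl (g i) = 3`; the other terms of `rx` are nonnegative).
(4) `claim` with `Q j := cl j = 2`, `W' j := lam T < t j ∧ t j ≤ T`: for these
`z_j < F(t_j, E j) ≤ (t_j / T) F(T, E j) ≤ F(T, E j)` (`R.h3`, `F_ratio`). With
`V = sm n (Q ∧ W') z`, `U = sm n (Q ∧ W') (z / F T (E j))`:
`Z T + c V - (c-1) E n ≤ c P (1 + U)`.
(5) `hs 2 z ≤ Esmall + hb`, `Esmall = sm n (cl = 2 ∧ t ≤ lam T) z`,
`hb = sm n (W ∧ σ ≠ none) z`; hosted jobs have `t ≤ T` (`hosted_le`). For each of them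
`t_j / T ≥ z_j / F(T, E j)`, hence
`hb - P wH ≤ ∑_{hosted W} (z_j - P z_j / F(T, E j)) ≤ ∑_{Q ∧ W'} (..) = V - P U`, the terms being
nonnegative because `P ≤ F(T, E n) ≤ F(T, E j)` (`ρ ≤ 1` from `hρ3`).
(6) Since `rs 2 z = E n - hs 2 z` (`E_eq`) the claim is
`Zi T + c hs2z - (c-1) E n ≤ c rx z + Gg`. The left side is
`≤ Zi T + c Esmall + c P wH + c V - c P U - (c-1) E n ≤ (Zi - Z) T + c Esmall + c P (1 + wH)`
`≤ Gg + c rx z`.
-/

open Finset
open scoped Classical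

namespace Pool.Agent.OSR.Run

variable {m : ℕ} {c Zi Z B ν ζ ρ : ℝ} (R : Run m c Z B ν ζ) {n : ℕ}
  {σ : ℕ → Option (Fin m)} {T : ℝ}

theorem caseII (G : Good m c Zi Z B ν ζ ρ) (hT : 0 < T)
    (h : ∀ i, sm n (fun j => σ j = some i) R.t ≤ T) (hE : R.E n < ζ * T / 2) {lam : ℝ}
    (hl0 : 0 ≤ lam) (hl1 : lam ≤ 50 * ζ + 25 * √(2 * ζ)) (s : ℕ) (g : Fin m → ℕ)
    (hg : Function.Injective g) (hgn : ∀ i, g i < n) (hgs : ∀ i, g i ≠ s)
    (hgc : ∀ i, R.cl (g i) = 3) (hgt : ∀ i, (1 - lam) * T ≤ R.t (g i)) {l : ℕ} (hln : l < n)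
    (hlc : R.cl l = 1) (hlσ : σ l ≠ none) (hlt : (1 - lam) * T ≤ R.t l) {Gg : ℝ}
    (hG : c * sm n (fun j => R.cl j = 2 ∧ R.t j ≤ lam * T) R.z ≤ (Z - Zi) * T + Gg) :
    Zi * T + R.hs n σ 2 R.z ≤ c * R.rx n σ s R.z + (c - 1) * R.rs n σ 2 R.z + Gg := by
  have hm0 : (0 : ℝ) < m := by
    have := G.hm
    have h2 : 0 < m := by omega
    exact_mod_cast h2
  have hc := G.hc1
  have hζ0 := G.hζ0
  have hζ := G.hζ
  have hν1 := G.hν1
  have hν := G.hν
  have hρ0 := G.hρ0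
  have hB1 := G.hB
  have hB0 : 0 < B := by linarith
  have hν0 : 0 ≤ ν := by linarith
  have hZ0 : 0 < Z := by rw [G.hZ]; positivity
  have hsq : √(2 * ζ) ≤ 15 / 10000 := by
    rw [Real.sqrt_le_left (by norm_num)]
    norm_num at hζ ⊢
    linarith
  have hlam : lam ≤ 1 / 20 := by
    norm_num at hζ
    linarith
  have hx1 : 50 * ζ + 25 * √(2 * ζ) ≤ 1 / 20 := by
    norm_num at hζ
    linarith
  have hx0 : 0 ≤ 50 * ζ + 25 * √(2 * ζ) := by positivity
  have hEdef : ∀ j, R.E j = sm j (fun i => R.cl i = 2) R.z := fun j => rfl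
  have hzpos : ∀ j, R.cl j = 2 → 0 < R.z j := fun j hj => R.z_pos (by rw [hj]; decide)
  have hE0 : ∀ j, 0 ≤ R.E j := fun j => sm_nonneg (fun i _ hi => (hzpos i hi).le)
  have hEmono : ∀ {j k : ℕ}, j ≤ k → R.E j ≤ R.E k := fun hjk =>
    sm_mono hjk (fun i _ hi => (hzpos i hi).le)
  have hF0 : ∀ j, 0 < F Z B ν T (R.E j) := fun j => F_pos hZ0 hB0 hT (hE0 j)
  -- the threshold at the end
  obtain ⟨P, hP⟩ : ∃ P, P = ρ * F Z B ν T (R.E n) := ⟨_, rfl⟩
  have hP0 : 0 ≤ P := by rw [hP]; exact mul_nonneg hρ0.le (hF0 n).le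
  have hρ1 : ρ ≤ 1 := by
    refine G.hρ3.trans ?_
    apply Real.rpow_le_one (by linarith) (by linarith) (by linarith)
  have hPF : ∀ j, j ≤ n → P ≤ F Z B ν T (R.E j) := by
    intro j hj
    have h1 : F Z B ν T (R.E n) ≤ F Z B ν T (R.E j) := F_anti hZ0 hB0 hν0 hT (hE0 j) (hEmono hj)
    have h2 : ρ * F Z B ν T (R.E n) ≤ 1 * F Z B ν T (R.E n) :=
      mul_le_mul_of_nonneg_right hρ1 (hF0 n).le
    rw [hP]; linarith
  -- (1)
  have hcount := count (n := n) (σ := σ) (t := R.t) R.ht hT hl0 (by linarith) h g hg hgn hgt l hln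
    hlσ hlt (fun i hi => by
      have h1 := hgc i
      rw [hi, hlc] at h1
      exact absurd h1 (by decide))
    (fun j => R.cl j = 2 ∧ lam * T < R.t j) (fun j hj => hj.2)
    (fun i hi => by
      have h1 := hi.1
      rw [hgc i] at h1
      exact absurd h1 (by decide))
    (fun hi => by
      have h1 := hi.1
      rw [hlc] at h1
      exact absurd h1 (by decide))
  -- (2)
  have hzg : ∀ i, P ≤ R.z (g i) := by
    intro i
    have hti := hgt i
    have htT : T / 2 ≤ R.t (g i) := by nlinarith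
    have h3 : ζ * R.t (g i) ≤ R.E (g i) ∨ F Z B ν (R.t (g i)) (R.E (g i)) ≤ R.z (g i) :=
      R.h3' (g i) (hgc i)
    rcases h3 with h3 | h3
    · exfalso
      have h4 : R.E (g i) ≤ R.E n := hEmono (hgn i).le
      nlinarith
    · have h5 : F Z B ν ((1 - lam) * T) (R.E (g i)) ≤ F Z B ν (R.t (g i)) (R.E (g i)) :=
        F_mono hZ0 hB0 hν0 (by nlinarith) hti (hE0 _)
      have h6 : (1 - lam) ^ (1 + ν) * F Z B ν T (R.E (g i)) ≤
          F Z B ν ((1 - lam) * T) (R.E (g i)) :=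
        F_scale hZ0 hB0 hν0 (by linarith) (by linarith) hT (hE0 _)
      have h7 : F Z B ν T (R.E n) ≤ F Z B ν T (R.E (g i)) :=
        F_anti hZ0 hB0 hν0 hT (hE0 _) (hEmono (hgn i).le)
      have h8 : ρ ≤ (1 - lam) ^ (1 + ν) := by
        refine G.hρ3.trans ?_
        apply Real.rpow_le_rpow (by linarith) (by linarith) (by linarith)
      have h9 : P ≤ (1 - lam) ^ (1 + ν) * F Z B ν T (R.E (g i)) := by
        rw [hP]
        exact mul_le_mul h8 h7 (hF0 n).le (by linarith)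
      linarith
  -- (3)
  have hrx : P * (1 + sm n (fun j => (R.cl j = 2 ∧ lam * T < R.t j) ∧ σ j ≠ none) R.t / T) ≤
      R.rx n σ s R.z := by
    have h1 : ∑ i ∈ univ.filter (fun i => σ (g i) = none), R.z (g i) ≤ R.rx n σ s R.z := by
      have h2 : ∑ i ∈ univ.filter (fun i => σ (g i) = none), R.z (g i) =
          ∑ j ∈ (univ.filter (fun i => σ (g i) = none)).image g, R.z j := by
        rw [sum_image (fun a _ b _ hab => hg hab)]
      rw [h2]
      unfold rx sm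
      apply sum_le_sum_of_subset_of_nonneg
      · intro j hj
        rw [mem_image] at hj
        obtain ⟨i, hi, rfl⟩ := hj
        have hi2 := (Finset.mem_filter.1 hi).2
        simp only [mem_filter, mem_range]
        exact ⟨hgn i, hgc i, hgs i, hi2⟩
      · intro j hj _
        simp only [mem_filter, mem_range] at hj
        exact (R.z_pos (by rw [hj.2.1]; decide)).le
    have h3 : ((univ.filter (fun i => σ (g i) = none)).card : ℝ) * P ≤
        ∑ i ∈ univ.filter (fun i => σ (g i) = none), R.z (g i) := by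
      have := card_nsmul_le_sum (univ.filter (fun i => σ (g i) = none)) (fun i => R.z (g i)) P
        (fun i _ => hzg i)
      rwa [nsmul_eq_mul] at this
    have h4 := mul_le_mul_of_nonneg_left hcount hP0
    linarith
  -- (4)
  have hzF : ∀ j, R.cl j = 2 → R.t j ≤ T → R.z j ≤ R.t j / T * F Z B ν T (R.E j) := by
    intro j hj ht
    have h1 : R.z j < F Z B ν (R.t j) (R.E j) := (R.h3 j hj).2
    have h2 := F_ratio (x := R.E j) hZ0 hB0 hν0 (R.ht j) ht (hE0 j)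
    linarith
  have hclaim := claim (T := T) (by linarith : 1 < c) hZ0 hB1 hν1 hν hρ0 G.hρ1 G.hρ2 hT R.z
    (fun j => R.cl j = 2) (fun j => lam * T < R.t j ∧ R.t j ≤ T) hzpos (fun j hj hW => by
      refine (hzF j hj hW.2).trans ?_
      have h1 : R.t j / T ≤ 1 := by rw [div_le_one hT]; exact hW.2
      have h2 : R.t j / T * F Z B ν T (R.E j) ≤ 1 * F Z B ν T (R.E j) :=
        mul_le_mul_of_nonneg_right h1 (hF0 j).le
      rw [one_mul] at h2
      exact h2) n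
  change Z * T + c * sm n (fun j => R.cl j = 2 ∧ (lam * T < R.t j ∧ R.t j ≤ T)) R.z -
    (c - 1) * R.E n ≤ c * ρ * F Z B ν T (R.E n) *
      (1 + sm n (fun j => R.cl j = 2 ∧ (lam * T < R.t j ∧ R.t j ≤ T))
        (fun j => R.z j / F Z B ν T (R.E j))) at hclaim
  -- (5)
  have hhs : R.hs n σ 2 R.z ≤ sm n (fun j => R.cl j = 2 ∧ R.t j ≤ lam * T) R.z +
      sm n (fun j => (R.cl j = 2 ∧ lam * T < R.t j) ∧ σ j ≠ none) R.z := by
    unfold hs
    rw [sm_split n (fun j => R.cl j = 2 ∧ σ j ≠ none) (fun j => R.t j ≤ lam * T)]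
    apply add_le_add
    · apply sm_le_of_imp
      · intro j _ hj
        exact ⟨hj.1.1, hj.2⟩
      · intro j _ hj
        exact (hzpos j hj.1).le
    · apply le_of_eq
      apply sm_congr
      · intro j _
        rw [not_le]
        tauto
      · intro j _ _
        rfl
  have hVU : sm n (fun j => (R.cl j = 2 ∧ lam * T < R.t j) ∧ σ j ≠ none) R.z -
      P * (sm n (fun j => (R.cl j = 2 ∧ lam * T < R.t j) ∧ σ j ≠ none) R.t / T) ≤
      sm n (fun j => R.cl j = 2 ∧ (lam * T < R.t j ∧ R.t j ≤ T)) R.z -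
      P * sm n (fun j => R.cl j = 2 ∧ (lam * T < R.t j ∧ R.t j ≤ T))
        (fun j => R.z j / F Z B ν T (R.E j)) := by
    have e1 : sm n (fun j => (R.cl j = 2 ∧ lam * T < R.t j) ∧ σ j ≠ none) R.z -
        P * (sm n (fun j => (R.cl j = 2 ∧ lam * T < R.t j) ∧ σ j ≠ none) R.t / T) =
        sm n (fun j => (R.cl j = 2 ∧ lam * T < R.t j) ∧ σ j ≠ none)
          (fun j => R.z j - P * (R.t j / T)) := by
      rw [sm_sub, sm_mul, sm_div]
    have e2 : sm n (fun j => R.cl j = 2 ∧ (lam * T < R.t j ∧ R.t j ≤ T)) R.z -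
        P * sm n (fun j => R.cl j = 2 ∧ (lam * T < R.t j ∧ R.t j ≤ T))
          (fun j => R.z j / F Z B ν T (R.E j)) =
        sm n (fun j => R.cl j = 2 ∧ (lam * T < R.t j ∧ R.t j ≤ T))
          (fun j => R.z j - P * (R.z j / F Z B ν T (R.E j))) := by
      rw [sm_sub, sm_mul]
    rw [e1, e2]
    have e3 : sm n (fun j => (R.cl j = 2 ∧ lam * T < R.t j) ∧ σ j ≠ none)
          (fun j => R.z j - P * (R.t j / T)) ≤
        sm n (fun j => (R.cl j = 2 ∧ lam * T < R.t j) ∧ σ j ≠ none)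
          (fun j => R.z j - P * (R.z j / F Z B ν T (R.E j))) := by
      apply sm_le_sm
      intro j hj hW
      have ht : R.t j ≤ T := hosted_le (fun j => (R.ht j).le) h hj hW.2
      have h1 := hzF j hW.1.1 ht
      have h2 : R.z j / F Z B ν T (R.E j) ≤ R.t j / T := by
        rw [div_le_iff₀ (hF0 j)]; exact h1
      have h3 := mul_le_mul_of_nonneg_left h2 hP0
      linarith
    refine e3.trans ?_
    apply sm_le_of_imp
    · intro j hj hW
      exact ⟨hW.1.1, hW.1.2, hosted_le (fun j => (R.ht j).le) h hj hW.2⟩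
    · intro j hj hW
      have h1 := hPF j hj.le
      have h2 : P * (R.z j / F Z B ν T (R.E j)) ≤
          F Z B ν T (R.E j) * (R.z j / F Z B ν T (R.E j)) :=
        mul_le_mul_of_nonneg_right h1 (div_nonneg (hzpos j hW.1).le (hF0 j).le)
      rw [mul_div_cancel₀ _ (hF0 j).ne'] at h2
      linarith
  -- (6)
  have hEe := R.E_eq (n := n) (σ := σ)
  have hcP : c * ρ * F Z B ν T (R.E n) = c * P := by rw [hP]; ring
  rw [hcP] at hclaim
  have hrs : R.rs n σ 2 R.z = R.E n - R.hs n σ 2 R.z := by linarith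
  rw [hrs]
  have f1 := mul_le_mul_of_nonneg_left hhs (by linarith : (0 : ℝ) ≤ c)
  have f2 := mul_le_mul_of_nonneg_left hVU (by linarith : (0 : ℝ) ≤ c)
  have f3 := mul_le_mul_of_nonneg_left hrx (by linarith : (0 : ℝ) ≤ c)
  nlinarith

end Pool.Agent.OSR.Run
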