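import Pool.Agent.OSR.Dec

/-!
The rule 1 jobs hosted by `σ`.

PROOFS. `x1_last`: let `l` be the last index `< n` with `cl l = 1`, `σ l ≠ none`
(`exists_last`); `hs n σ 1 p = sm l (cl = 1 ∧ σ ≠ none) p + p l ≤ X l + p l` (`sm_le_of_imp`), and
`R.h1 l : (c-1) X l + c p l < t l`; hence `(c-1) hs ≤ (c-1) X l + (c-1) p l < t l` (`p l > 0`).
`x1_le`: if there is no such job the sum is `0`; otherwise `x1_last` and `hosted_le`.
-/

open Finset
open scoped Classical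

namespace Pool.Agent.OSR.Run

variable {m : ℕ} {c Z B ν ζ : ℝ} (R : Run m c Z B ν ζ) {n : ℕ} {σ : ℕ → Option (Fin m)} {T : ℝ}

theorem x1_last (hc : 1 < c) (h : 0 < R.hs n σ 1 R.p) :
    ∃ l, l < n ∧ R.cl l = 1 ∧ σ l ≠ none ∧ (c - 1) * R.hs n σ 1 R.p < R.t l := by
  have hex : ∃ j, j < n ∧ (R.cl j = 1 ∧ σ j ≠ none) := by
    by_contra hno
    push Not at hno
    have h0 : R.hs n σ 1 R.p = 0 := by
      unfold hs
      apply sm_eq_zero
      intro j hj hq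
      exact hq.2 (hno j hj hq.1)
    rw [h0] at h
    exact lt_irrefl _ h
  obtain ⟨l, hl, hQ, -, hs⟩ := exists_last hex
  refine ⟨l, hl, hQ.1, hQ.2, ?_⟩
  have e1 : R.hs n σ 1 R.p = sm l (fun j => R.cl j = 1 ∧ σ j ≠ none) R.p + R.p l := hs R.p
  have e2 : sm l (fun j => R.cl j = 1 ∧ σ j ≠ none) R.p ≤ sm l (fun j => R.cl j = 1) R.p :=
    sm_le_of_imp (fun j _ hq => hq.1) (fun j _ _ => (R.hp j).le)
  have e3 := R.h1 l hQ.1
  have e4 := R.hp l
  have e5 : (c - 1) * sm l (fun j => R.cl j = 1 ∧ σ j ≠ none) R.p ≤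
      (c - 1) * sm l (fun j => R.cl j = 1) R.p := mul_le_mul_of_nonneg_left e2 (by linarith)
  rw [e1]
  nlinarith

theorem x1_le (hc : 1 < c) (hT : 0 ≤ T) (h : ∀ i, sm n (fun j => σ j = some i) R.t ≤ T) :
    (c - 1) * R.hs n σ 1 R.p ≤ T := by
  by_cases h0 : 0 < R.hs n σ 1 R.p
  · obtain ⟨l, hl, -, hσ, hlt⟩ := R.x1_last hc h0
    exact hlt.le.trans (hosted_le (fun j => (R.ht j).le) h hl hσ)
  · have : (c - 1) * R.hs n σ 1 R.p ≤ 0 :=
      mul_nonpos_of_nonneg_of_nonpos (by linarith) (not_lt.1 h0)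
    linarith

end Pool.Agent.OSR.Run
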