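import Pool.Agent.OSR.Pk5
import Pool.Agent.OSR.X1

/-!
Critical states: if the surplus `g' T` is less than `2 ζ T`, every machine has received a long job.

PROOFS. `pack`: the packing sequence of a run (`sm_zero`, `sm_succ`, `R.ht`, `R.hpl`).
`mux_ge`: `m * mux n s = sm n (cl = 3 ∧ j ≠ s) t ≥ sm s (cl = 3) t = ∑ i, load s i` (`sum_sm`;
the indices `j < s` are `< n` and `≠ s`), and this is `≥ m * load s (ma s)` if the machine `ma s`
is least loaded.
`crit`: let `a0 = load s (ma s)`, `μ = mux n s`, `x1 = hs n σ 1 p`. The three summands of `g' T`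
are nonnegative (`mux_ge`, `abs_nonneg`, and `x1 ≤ (c-2+Zi) T` from `x1_le`, `hb`). So
`|μ - T| ≤ 10 g' T`, `μ - a0 ≤ g' T`, `x1 ≥ (c-2+Zi) T - g' T`. Hence, with `η = 11 g'`,
all loads at time `s` are `≥ a0 ≥ (1 - η) T`, and `∑ i, load s i ≤ m μ ≤ (1 + η)(m T)`. Put
`d = 10 ζ + 5 √g'`. Then `3 ζ + 6 η + 2/m ≤ d`: `2/m ≤ 7 ζ` (`hmζ`), `66 g' ≤ 5 √g'`
(`g' < 2 ζ ≤ 2/10^6`, so `√g' ≤ 5/66`); `2 η = 22 g' < d^2` (`d^2 ≥ 100 ζ^2 + 25 g'`,
`ζ > 0`); `d ≤ 1/100` (`√g' ≤ √(2/10^6) ≤ 15/10^4`). `pack_main` gives for every machine `i` a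
job `g i < s` with `cl = 3`, `ma (g i) = i` (so `g` is injective) and
`t ≥ (1 - 5 d) T = (1 - (50 ζ + 25 √g')) T`.
`l` is given by `x1_last`: `x1 > 0` because `(c-2+Zi) ≥ 3/5 > g'`, and
`t l > (c-1) x1 ≥ T - (c-1) g' T ≥ (1 - 2 g') T ≥ (1 - 5 d) T` (`g' ≤ √g'`).
-/

open Finset
open scoped Classical

namespace Pool.Agent.OSR.Run

noncomputable section

variable {m : ℕ} {c Zi Z B ν ζ ρ : ℝ} (R : Run m c Z B ν ζ) {n : ℕ}
  {σ : ℕ → Option (Fin m)} {T : ℝ}

/-- The packing sequence of a run. -/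
def pack : Pack m (2 * m / 3) ζ where
  a := R.load
  t := R.t
  ma := R.ma
  acc := fun j => R.cl j = 3
  h0 := fun i => sm_zero _ _
  ht := fun j _ => R.ht j
  hs := fun j hj i => by
    change sm (j + 1) _ _ = sm j _ _ + _
    rw [sm_succ]
    simp [hj]
  hn := fun j hj i => by
    change sm (j + 1) _ _ = sm j _ _
    rw [sm_succ]
    simp [hj]
  hp := R.hpl

theorem mux_ge (hm : 0 < m) {s : ℕ} (hs : s < n)
    (hL : ∀ i, R.load s (R.ma s) ≤ R.load s i) :
    R.load s (R.ma s) ≤ R.mux n s ∧ ∑ i, R.load s i ≤ m * R.mux n s := by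
  have hm0 : (0 : ℝ) < m := by exact_mod_cast hm
  have h1 : (m : ℝ) * R.mux n s = sm n (fun j => R.cl j = 3 ∧ j ≠ s) R.t := by
    unfold mux
    field_simp
  have h2 : ∑ i, R.load s i = sm s (fun j => R.cl j = 3) R.t := by
    unfold load
    exact sum_sm s (fun j => R.cl j = 3) R.ma R.t
  have h3 : sm s (fun j => R.cl j = 3) R.t ≤ sm n (fun j => R.cl j = 3 ∧ j ≠ s) R.t := by
    calc sm s (fun j => R.cl j = 3) R.t = sm s (fun j => R.cl j = 3 ∧ j ≠ s) R.t := by
          apply sm_congr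
          · intro j hj
            exact ⟨fun h => ⟨h, hj.ne⟩, fun h => h.1⟩
          · intro j _ _
            rfl
      _ ≤ _ := sm_mono hs.le (fun j _ _ => (R.ht j).le)
  have h4 : ∑ i, R.load s i ≤ m * R.mux n s := by
    rw [h1, h2]
    exact h3
  refine ⟨?_, h4⟩
  have h5 : (m : ℝ) * R.load s (R.ma s) ≤ ∑ i, R.load s i := by
    calc (m : ℝ) * R.load s (R.ma s) = ∑ _i : Fin m, R.load s (R.ma s) := by simp
      _ ≤ _ := sum_le_sum (fun i _ => hL i)
  exact le_of_mul_le_mul_left (h5.trans h4) hm0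

theorem crit (G : Good m c Zi Z B ν ζ ρ) (hT : 0 < T)
    (h : ∀ i, sm n (fun j => σ j = some i) R.t ≤ T) {s : ℕ} (hs : s < n)
    (hL : ∀ i, R.load s (R.ma s) ≤ R.load s i) {g' : ℝ}
    (hg : (R.mux n s - R.load s (R.ma s)) + |R.mux n s - T| / 10 +
      ((c - 2 + Zi) * T - R.hs n σ 1 R.p) = g' * T) (hg2 : g' < 2 * ζ) :
    0 ≤ g' ∧ ∃ g : Fin m → ℕ, Function.Injective g ∧ (∀ i, g i < s) ∧ (∀ i, R.cl (g i) = 3) ∧
      (∀ i, (1 - (50 * ζ + 25 * √g')) * T ≤ R.t (g i)) ∧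
      ∃ l, l < n ∧ R.cl l = 1 ∧ σ l ≠ none ∧ (1 - (50 * ζ + 25 * √g')) * T ≤ R.t l := by
  have hm10 := G.hm
  have hm : 0 < m := by omega
  have hm0 : (0 : ℝ) < m := by exact_mod_cast hm
  have hc1 := G.hc1
  have hc2 := G.hc2
  have hb := G.hb
  have hZi0 := G.hZi0
  have hζ0 := G.hζ0
  have hζ := G.hζ
  have hmζ := G.hmζ
  obtain ⟨hmx1, hmx2⟩ := R.mux_ge hm hs hL
  have hx := R.x1_le (by linarith : (1 : ℝ) < c) hT.le h
  set μ := R.mux n s with hμ
  set a0 := R.load s (R.ma s) with ha0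
  set x1 := R.hs n σ 1 R.p with hx1
  have hx2 : x1 ≤ (c - 2 + Zi) * T := by
    have : (c - 1) * x1 ≤ (c - 1) * ((c - 2 + Zi) * T) := by
      rw [← mul_assoc, hb, one_mul]
      exact hx
    exact le_of_mul_le_mul_left this (by linarith)
  have habs : 0 ≤ |μ - T| / 10 := by positivity
  have hg0T : 0 ≤ g' * T := by
    rw [← hg]
    have : 0 ≤ μ - a0 := by linarith
    have : 0 ≤ (c - 2 + Zi) * T - x1 := by linarith
    positivity
  have hg0 : 0 ≤ g' := nonneg_of_mul_nonneg_left hg0T hT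
  refine ⟨hg0, ?_⟩
  have hA : |μ - T| ≤ 10 * g' * T := by linarith
  have hA1 := abs_le.1 hA
  have hB : μ - a0 ≤ g' * T := by linarith
  have hC : (c - 2 + Zi) * T - g' * T ≤ x1 := by linarith
  -- bounds for g'
  have hg6 : g' < 2 / 10 ^ 6 := by
    have : 2 * ζ ≤ 2 / 10 ^ 6 := by linarith
    linarith
  set r := √g' with hr
  have hr0 : 0 ≤ r := Real.sqrt_nonneg _
  have hr2 : r * r = g' := Real.mul_self_sqrt hg0
  have hr3 : r ≤ 15 / 10 ^ 4 := by
    by_contra hcon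
    have hcon := not_le.1 hcon
    have : (15 / 10 ^ 4 : ℝ) * (15 / 10 ^ 4) < r * r := by
      apply mul_lt_mul'' hcon hcon <;> norm_num
    rw [hr2] at this
    norm_num at this hg6
    linarith
  have hgr : g' ≤ 15 / 10 ^ 4 * r := by
    rw [← hr2]
    exact mul_le_mul_of_nonneg_right hr3 hr0
  -- apply the packing lemma
  have hζp : ζ ≤ 1 / 10 := by
    have : (1 / 10 ^ 6 : ℝ) ≤ 1 / 10 := by norm_num
    linarith
  have h2m : (2 : ℝ) / m ≤ 7 * ζ := by
    rw [div_le_iff₀ hm0]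
    exact hmζ
  have hmain := Pack.pack_main (R.pack) hm10 hζ0.le hζp (η := 11 * g') (d := 10 * ζ + 5 * r)
    (T := T) hT (by positivity)
    (by
      have : 66 * g' ≤ 5 * r := by
        calc 66 * g' ≤ 66 * (15 / 10 ^ 4 * r) := by linarith
          _ ≤ 5 * r := by
            norm_num
            linarith
      linarith)
    (by
      have h1 : (10 * ζ + 5 * r) ^ 2 = 100 * ζ ^ 2 + 100 * (ζ * r) + 25 * g' := by
        rw [← hr2]
        ring
      rw [h1]
      have : 0 < ζ ^ 2 := by positivity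
      have : 0 ≤ ζ * r := by positivity
      linarith)
    (by
      norm_num at hr3 hζ
      linarith)
    (N := s)
    (by
      intro i
      change (1 - 11 * g') * T ≤ R.load s i
      have := hL i
      have : (1 - 11 * g') * T ≤ a0 := by linarith
      linarith)
    (by
      change ∑ i, R.load s i ≤ _
      refine hmx2.trans ?_
      have : μ ≤ (1 + 11 * g') * T := by linarith
      calc (m : ℝ) * μ ≤ m * ((1 + 11 * g') * T) := mul_le_mul_of_nonneg_left this hm0.le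
        _ = _ := by ring)
  choose g hg1 hg2' hg3 hg4 using hmain
  have hlam : (1 - 5 * (10 * ζ + 5 * r)) * T = (1 - (50 * ζ + 25 * r)) * T := by ring
  refine ⟨g, ?_, hg1, hg2', ?_, ?_⟩
  · intro i j hij
    have h1 : R.ma (g i) = i := hg3 i
    have h2 : R.ma (g j) = j := hg3 j
    rw [← h1, ← h2, hij]
  · intro i
    have := hg4 i
    rw [hlam] at this
    exact this
  · have hx1pos : 0 < x1 := by
      have h1 : (3 / 5 : ℝ) * T ≤ (c - 2 + Zi) * T :=
        mul_le_mul_of_nonneg_right (by linarith) hT.le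
      have h2 : g' * T ≤ (2 / 10 ^ 6) * T := mul_le_mul_of_nonneg_right hg6.le hT.le
      have h3 : (2 / 10 ^ 6 : ℝ) * T < 3 / 5 * T := mul_lt_mul_of_pos_right (by norm_num) hT
      linarith
    obtain ⟨l, hl1, hl2, hl3, hl4⟩ := R.x1_last (by linarith : (1 : ℝ) < c) hx1pos
    refine ⟨l, hl1, hl2, hl3, ?_⟩
    have h1 : (c - 1) * ((c - 2 + Zi) * T - g' * T) ≤ (c - 1) * x1 :=
      mul_le_mul_of_nonneg_left hC (by linarith)
    have h2 : (c - 1) * ((c - 2 + Zi) * T - g' * T) = T - (c - 1) * (g' * T) := by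
      calc (c - 1) * ((c - 2 + Zi) * T - g' * T)
          = (c - 1) * (c - 2 + Zi) * T - (c - 1) * (g' * T) := by ring
        _ = _ := by rw [hb, one_mul]
    have h3 : (c - 1) * (g' * T) ≤ 2 * (g' * T) :=
      mul_le_mul_of_nonneg_right (by linarith) hg0T
    have h4 : 2 * (g' * T) ≤ (50 * ζ + 25 * r) * T := by
      have : 2 * g' ≤ 50 * ζ + 25 * r := by
        norm_num at hgr
        linarith
      calc 2 * (g' * T) = (2 * g') * T := by ring
        _ ≤ _ := mul_le_mul_of_nonneg_right this hT.le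
    change (c - 1) * x1 < _ at hl4
    linarith

end

end Pool.Agent.OSR.Run
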