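import Pool.Agent.OSR.Sm

/-!
Decompositions of the penalties and the volumes. All are immediate from `sm_split`, `sm_congr`,
`sm_le_of_imp`, `sm_add`, `sm_mul` (`R.z j = R.p j - 4/5 * R.t j / m` by definition of `net`);
the classes are `0, 1, 2, 3 : Fin 4`.

`vol`: the jobs of the classes 3 (other than `s`), 0, 2 that are not rejected by `σ` are disjoint
sets of hosted jobs, whose total running time is at most `m T` (`volume_le`); so
`(sm n (cl = 3 ∧ j ≠ s) t - rx n σ s t) + hs n σ 0 t + hs n σ 2 t ≤ m T`. `vol'` is the same with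
all jobs of class 3.
`rs_three`: split off `j = s` (`s < n`, `cl s = 3`).
-/

open Finset
open scoped Classical

namespace Pool.Agent.OSR.Run

variable {m : ℕ} {c Z B ν ζ : ℝ} (R : Run m c Z B ν ζ) {n : ℕ} {σ : ℕ → Option (Fin m)} {T : ℝ}

private theorem sm_eq (n : ℕ) (Q : ℕ → Prop) (f : ℕ → ℝ) :
    sm n Q f = ∑ j ∈ range n, (if Q j then f j else 0) := by
  unfold sm
  rw [sum_filter]

private theorem cl_cases (x : Fin 4) : x = 0 ∨ x = 1 ∨ x = 2 ∨ x = 3 := by
  fin_cases x <;> simp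

theorem z_eq (j : ℕ) : R.z j = R.p j - 4 / 5 * R.t j / m := rfl

theorem z_pos {j : ℕ} (h : R.cl j ≠ 0) : 0 < R.z j := by
  have := R.hz j h
  rw [z_eq]
  linarith

theorem z_le_p (j : ℕ) : R.z j ≤ R.p j := by
  rw [z_eq]
  have := (R.ht j).le
  have h2 : (0 : ℝ) ≤ 4 / 5 * R.t j / m := by positivity
  linarith

theorem pen_sigma : sm n (fun j => σ j = none) R.p =
    R.rs n σ 0 R.p + R.rs n σ 1 R.p + R.rs n σ 2 R.p + R.rs n σ 3 R.p := by
  simp only [rs, sm_eq, ← sum_add_distrib]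
  apply sum_congr rfl
  intro j _
  by_cases h : σ j = none <;> rcases cl_cases (R.cl j) with h1 | h1 | h1 | h1 <;> simp [h, h1]

theorem pen_alg : sm n (fun j => R.cl j ≠ 3) R.p =
    (R.hs n σ 0 R.p + R.rs n σ 0 R.p) + (R.hs n σ 1 R.p + R.rs n σ 1 R.p) +
      (R.hs n σ 2 R.p + R.rs n σ 2 R.p) := by
  simp only [rs, hs, sm_eq, ← sum_add_distrib]
  apply sum_congr rfl
  intro j _
  by_cases h : σ j = none <;> rcases cl_cases (R.cl j) with h1 | h1 | h1 | h1 <;> simp [h, h1]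

private theorem split_eq (k : Fin 4) (f : ℕ → ℝ) :
    sm n (fun j => R.cl j = k) f = R.hs n σ k f + R.rs n σ k f := by
  have := sm_split n (fun j => R.cl j = k) (fun j => σ j = none) f
  rw [this, add_comm]
  rfl

theorem X_eq : R.X n = R.hs n σ 1 R.p + R.rs n σ 1 R.p := by
  exact split_eq R 1 R.p

theorem E_eq : R.E n = R.hs n σ 2 R.z + R.rs n σ 2 R.z := by
  exact split_eq R 2 R.z

private theorem sm_lin (Q : ℕ → Prop) :
    4 / 5 * (sm n Q R.t / m) = sm n Q (fun j => 4 / 5 * R.t j / m) := by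
  rw [sm_div, sm_mul]
  ring

theorem hs_zero_le : R.hs n σ 0 R.p ≤ 4 / 5 * (R.hs n σ 0 R.t / m) := by
  unfold hs
  rw [sm_lin]
  exact sm_le_sm (fun j _ h => R.hB j h.1)

private theorem p_split (Q : ℕ → Prop) :
    sm n Q R.p = sm n Q R.z + 4 / 5 * (sm n Q R.t / m) := by
  rw [sm_lin, ← sm_add]
  apply sm_congr (fun j _ => Iff.rfl)
  intro j _ _
  rw [z_eq]
  ring

theorem hs_two : R.hs n σ 2 R.p = R.hs n σ 2 R.z + 4 / 5 * (R.hs n σ 2 R.t / m) := by
  exact p_split R _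

theorem rs_two_le : R.rs n σ 2 R.z ≤ R.rs n σ 2 R.p := by
  exact sm_le_sm (fun j _ _ => R.z_le_p j)

theorem rs_three_z : R.rs n σ 3 R.p = R.rs n σ 3 R.z + 4 / 5 * (R.rs n σ 3 R.t / m) := by
  exact p_split R _

theorem rx_z (s : ℕ) : R.rx n σ s R.p = R.rx n σ s R.z + 4 / 5 * (R.rx n σ s R.t / m) := by
  exact p_split R _

theorem rs_three {s : ℕ} (hs : s < n) (hc : R.cl s = 3) :
    R.rs n σ 3 R.p = R.rx n σ s R.p + if σ s = none then R.p s else 0 := by
  have h1 : (if σ s = none then R.p s else 0) =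
      ∑ j ∈ range n, (if j = s then (if σ s = none then R.p s else 0) else 0) := by
    rw [sum_ite_eq' (range n) s, if_pos (mem_range.2 hs)]
  rw [h1]
  simp only [rs, rx, sm_eq, ← sum_add_distrib]
  apply sum_congr rfl
  intro j _
  by_cases hj : j = s
  · subst hj
    by_cases h : σ j = none <;> simp [h, hc]
  · by_cases h : σ j = none <;> by_cases h3 : R.cl j = 3 <;> simp [h, h3, hj]

theorem hs_p_nonneg (k : Fin 4) : 0 ≤ R.hs n σ k R.p := by
  exact sm_nonneg (fun j _ _ => (R.hp j).le)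

theorem rs_p_nonneg (k : Fin 4) : 0 ≤ R.rs n σ k R.p := by
  exact sm_nonneg (fun j _ _ => (R.hp j).le)

theorem hs_t_nonneg (k : Fin 4) : 0 ≤ R.hs n σ k R.t := by
  exact sm_nonneg (fun j _ _ => (R.ht j).le)

theorem rs_t_nonneg (k : Fin 4) : 0 ≤ R.rs n σ k R.t := by
  exact sm_nonneg (fun j _ _ => (R.ht j).le)

theorem hs_z_nonneg {k : Fin 4} (hk : k ≠ 0) : 0 ≤ R.hs n σ k R.z := by
  refine sm_nonneg (fun j _ h => (R.z_pos ?_).le)
  rw [h.1]
  exact hk

theorem rs_z_nonneg {k : Fin 4} (hk : k ≠ 0) : 0 ≤ R.rs n σ k R.z := by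
  refine sm_nonneg (fun j _ h => (R.z_pos ?_).le)
  rw [h.1]
  exact hk

theorem rx_z_nonneg (s : ℕ) : 0 ≤ R.rx n σ s R.z := by
  refine sm_nonneg (fun j _ h => (R.z_pos ?_).le)
  rw [h.1]
  decide

theorem rx_t_nonneg (s : ℕ) : 0 ≤ R.rx n σ s R.t := by
  exact sm_nonneg (fun j _ _ => (R.ht j).le)

theorem vol' (h : ∀ i, sm n (fun j => σ j = some i) R.t ≤ T) :
    sm n (fun j => R.cl j = 3) R.t - R.rs n σ 3 R.t + R.hs n σ 0 R.t + R.hs n σ 2 R.t ≤
      m * T := by
  refine le_trans ?_ (volume_le h)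
  simp only [rs, hs, sm_eq, ← sum_add_distrib, ← sum_sub_distrib]
  apply sum_le_sum
  intro j _
  have := (R.ht j).le
  by_cases h : σ j = none <;> rcases cl_cases (R.cl j) with h1 | h1 | h1 | h1 <;>
    simp [h, h1, this]

theorem vol (s : ℕ) (h : ∀ i, sm n (fun j => σ j = some i) R.t ≤ T) :
    sm n (fun j => R.cl j = 3 ∧ j ≠ s) R.t - R.rx n σ s R.t + R.hs n σ 0 R.t + R.hs n σ 2 R.t ≤
      m * T := by
  refine le_trans ?_ (volume_le h)
  simp only [rx, hs, sm_eq, ← sum_add_distrib, ← sum_sub_distrib]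
  apply sum_le_sum
  intro j _
  have := (R.ht j).le
  by_cases hj : j = s
  · subst hj
    by_cases h : σ j = none <;> rcases cl_cases (R.cl j) with h1 | h1 | h1 | h1 <;>
      simp [h, h1, this]
  · by_cases h : σ j = none <;> rcases cl_cases (R.cl j) with h1 | h1 | h1 | h1 <;>
      simp [h, h1, this, hj]

end Pool.Agent.OSR.Run
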