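import Mathlib

/-!
Definitions for the algorithm of `MP_0ea0cb_lc` (online scheduling with rejection, general running
times). Jobs are indexed by `ℕ`; `t j` is the running time and `p j` the penalty of job `j`.
Everything is stated for an infinite sequence of jobs and its prefixes.

Classes of a job: `0` rejected by the rule B (cheap), `1` rejected by rule 1, `2` rejected by
rule 3, `3` accepted (and then put on the machine `ma j`).
-/

open Finset
open scoped Classical

namespace Pool.Agent.OSR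

noncomputable section

/-- `sm n Q f` is the sum of `f j` over the indices `j < n` with `Q j`. -/
def sm (n : ℕ) (Q : ℕ → Prop) (f : ℕ → ℝ) : ℝ := ∑ j ∈ (range n).filter Q, f j

/-- The net price of job `j`. -/
def net (m : ℕ) (t p : ℕ → ℝ) (j : ℕ) : ℝ := p j - 4 / 5 * t j / m

/-- The threshold for the net price of a job of running time `t`, when `x` is the total net price
of the jobs rejected by rule 3 so far. -/
def F (Z B ν t x : ℝ) : ℝ := Z / 2 * t * (B * Z * t / (B * Z * t + x)) ^ ν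

/-- Placement of type P of a job of running time `t` on machine `i` when the loads are `a`: the
machine `i` has at least `k` other machines with loads at most `a i`, and the new load is at most
`(2 - 3 ζ)` times the average load. -/
def PlaceP {m : ℕ} (k : ℕ) (ζ : ℝ) (a : Fin m → ℝ) (t : ℝ) (i : Fin m) : Prop :=
  a i + t ≤ (2 - 3 * ζ) * ((∑ l, a l) / m) ∧
    ∃ K : Finset (Fin m), K.card = k ∧ i ∉ K ∧ ∀ l ∈ K, a l ≤ a i

/-- Placement of type L (list scheduling): machine `i` is least loaded, and there is a machine `j`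
such that all machines outside a set of `k` machines have loads at least `a j`, and the job does
not fit on `j` below `(2 - 3 ζ)` times the average load. -/
def PlaceL {m : ℕ} (k : ℕ) (ζ : ℝ) (a : Fin m → ℝ) (t : ℝ) (i : Fin m) : Prop :=
  (∀ l, a i ≤ a l) ∧
    ∃ (K : Finset (Fin m)) (j : Fin m), K.card = k ∧ (∀ l, l ∉ K → a j ≤ a l) ∧
      (2 - 3 * ζ) * ((∑ l, a l) / m) < a j + t

/-- The properties of a run of the algorithm on an infinite sequence of jobs. -/
structure Run (m : ℕ) (c Z B ν ζ : ℝ) where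
  /-- running times -/
  t : ℕ → ℝ
  /-- penalties -/
  p : ℕ → ℝ
  /-- the class of a job -/
  cl : ℕ → Fin 4
  /-- the machine of an accepted job -/
  ma : ℕ → Fin m
  ht : ∀ j, 0 < t j
  hp : ∀ j, 0 < p j
  hB : ∀ j, cl j = 0 → p j ≤ 4 / 5 * t j / m
  hz : ∀ j, cl j ≠ 0 → 4 / 5 * t j / m < p j
  h1 : ∀ j, cl j = 1 → (c - 1) * sm j (fun i => cl i = 1) p + c * p j < t j
  h1' : ∀ j, cl j = 2 ∨ cl j = 3 → t j ≤ (c - 1) * sm j (fun i => cl i = 1) p + c * p j
  h3 : ∀ j, cl j = 2 → sm j (fun i => cl i = 2) (net m t p) < ζ * t j ∧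
    net m t p j < F Z B ν (t j) (sm j (fun i => cl i = 2) (net m t p))
  h3' : ∀ j, cl j = 3 → ζ * t j ≤ sm j (fun i => cl i = 2) (net m t p) ∨
    F Z B ν (t j) (sm j (fun i => cl i = 2) (net m t p)) ≤ net m t p j
  hpl : ∀ j, cl j = 3 →
    PlaceP (2 * m / 3) ζ (fun i => sm j (fun l => cl l = 3 ∧ ma l = i) t) (t j) (ma j) ∨
    PlaceL (2 * m / 3) ζ (fun i => sm j (fun l => cl l = 3 ∧ ma l = i) t) (t j) (ma j)

namespace Run

variable {m : ℕ} {c Z B ν ζ : ℝ} (R : Run m c Z B ν ζ)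

/-- The net price of job `j`. -/
def z (j : ℕ) : ℝ := net m R.t R.p j

/-- The total penalty of the first `n` jobs rejected by rule 1. -/
def X (n : ℕ) : ℝ := sm n (fun i => R.cl i = 1) R.p

/-- The total net price of the first `n` jobs rejected by rule 3. -/
def E (n : ℕ) : ℝ := sm n (fun i => R.cl i = 2) R.z

/-- The load of machine `i` after the first `n` jobs. -/
def load (n : ℕ) (i : Fin m) : ℝ := sm n (fun l => R.cl l = 3 ∧ R.ma l = i) R.t

/-- The average load after the first `n` jobs. -/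
def mu (n : ℕ) : ℝ := sm n (fun l => R.cl l = 3) R.t / m

/-- The sum of `f` over the jobs `< n` of class `k` that are accepted (hosted) by `σ`. -/
def hs (n : ℕ) (σ : ℕ → Option (Fin m)) (k : Fin 4) (f : ℕ → ℝ) : ℝ :=
  sm n (fun j => R.cl j = k ∧ σ j ≠ none) f

/-- The sum of `f` over the jobs `< n` of class `k` that are rejected by `σ`. -/
def rs (n : ℕ) (σ : ℕ → Option (Fin m)) (k : Fin 4) (f : ℕ → ℝ) : ℝ :=
  sm n (fun j => R.cl j = k ∧ σ j = none) f

/-- The sum of `f` over the accepted jobs `< n` other than `s` that are rejected by `σ`. -/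
def rx (n : ℕ) (σ : ℕ → Option (Fin m)) (s : ℕ) (f : ℕ → ℝ) : ℝ :=
  sm n (fun j => R.cl j = 3 ∧ j ≠ s ∧ σ j = none) f

/-- The average load of the accepted jobs `< n` other than `s`. -/
def mux (n s : ℕ) : ℝ := sm n (fun j => R.cl j = 3 ∧ j ≠ s) R.t / m

end Run

/-- The conditions on the parameters. -/
structure Good (m : ℕ) (c Zi Z B ν ζ ρ : ℝ) : Prop where
  hm : 10 ≤ m
  hc1 : 13 / 5 ≤ c
  hc2 : c ≤ 21 / 8
  hb : (c - 1) * (c - 2 + Zi) = 1
  hZi0 : 0 ≤ Zi
  hZi : Zi ≤ Z / 2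
  hζ0 : 0 < ζ
  hζ : ζ ≤ 1 / 10 ^ 6
  hZ : Z = 10 ^ 4 * ζ ^ 2
  hν1 : 1 ≤ ν
  hν : ν ≤ c - 1
  hB : 1 ≤ B
  hρ0 : 0 < ρ
  hρ1 : 2 ≤ c * ρ
  hρ2 : 1 + ν ≤ c * ρ * (1 - ν / (2 * B))
  hρ3 : ρ ≤ (1 - (50 * ζ + 25 * √(2 * ζ))) ^ (1 + ν)
  hmζ : 2 ≤ 7 * ζ * m
  hF : Z / 2 * (B * Z / (B * Z + ζ / 8)) ^ ν ≤ 1 / (10 * c * m)

end

end Pool.Agent.OSR
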