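import Pool.Agent.OSR.Defs

/-!
Facts on the threshold function `F Z B ν t x = Z / 2 * t * (B Z t / (B Z t + x)) ^ ν` (real power).

PROOFS. Put `w(t, x) = B Z t / (B Z t + x) ∈ (0, 1]` for `t > 0`, `x ≥ 0`; it is nonincreasing in
`x`, nondecreasing in `t`, and `w(t, 0) = 1`. So `F_nonneg`, `F_zero`, `F_anti`, `F_mono`, `F_le`
are monotonicity of `Real.rpow` (`Real.rpow_le_rpow`, `Real.rpow_le_one`) and of products.
`F_ratio`: `F t x = (t/T) * (Z/2 * T * w(t,x)^ν) ≤ (t/T) * (Z/2 * T * w(T,x)^ν)`.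
`F_scale`: `w(s t, x) ≥ s w(t, x)` (because `B Z s t + x ≤ B Z t + x`), hence
`w(s t, x)^ν ≥ s^ν w(t,x)^ν` (`Real.mul_rpow`), and `s * s^ν = s^(1+ν)`
(`Real.rpow_add`, `Real.rpow_one`).
`F_step`: with `w = z / (B Z T + x + z) ∈ [0, 1)` one has `w(T, x+z) = w(T, x) * (1 - w)`, and
`(1 - w)^ν ≥ 1 - ν w` is `one_add_mul_self_le_rpow_one_add` (Bernoulli, needs `1 ≤ ν`).
-/

open Finset
open scoped Classical

namespace Pool.Agent.OSR

variable {Z B ν t x : ℝ}

theorem F_pos (hZ : 0 < Z) (hB : 0 < B) (ht : 0 < t) (hx : 0 ≤ x) : 0 < F Z B ν t x := by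
  unfold F
  have h1 : 0 < B * Z * t := by positivity
  have h2 : 0 < B * Z * t / (B * Z * t + x) := by positivity
  positivity

theorem F_nonneg (hZ : 0 < Z) (hB : 0 < B) (ht : 0 < t) (hx : 0 ≤ x) : 0 ≤ F Z B ν t x := by
  exact (F_pos hZ hB ht hx).le

theorem F_zero (hZ : 0 < Z) (hB : 0 < B) (ht : 0 < t) : F Z B ν t 0 = Z / 2 * t := by
  unfold F
  have h1 : 0 < B * Z * t := by positivity
  rw [add_zero, div_self h1.ne', Real.one_rpow, mul_one]

theorem F_anti (hZ : 0 < Z) (hB : 0 < B) (hν : 0 ≤ ν) (ht : 0 < t) (hx : 0 ≤ x) {y : ℝ}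
    (hy : x ≤ y) : F Z B ν t y ≤ F Z B ν t x := by
  unfold F
  have hy0 : 0 ≤ y := hx.trans hy
  have h1 : 0 < B * Z * t := by positivity
  have h2 : 0 ≤ Z / 2 * t := by positivity
  refine mul_le_mul_of_nonneg_left ?_ h2
  refine Real.rpow_le_rpow (by positivity) ?_ hν
  exact div_le_div_of_nonneg_left h1.le (by positivity) (by linarith)

theorem F_mono (hZ : 0 < Z) (hB : 0 < B) (hν : 0 ≤ ν) {s : ℝ} (hs : 0 < s) (hst : s ≤ t)
    (hx : 0 ≤ x) : F Z B ν s x ≤ F Z B ν t x := by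
  unfold F
  have ht : 0 < t := lt_of_lt_of_le hs hst
  have h1 : 0 < B * Z * t := by positivity
  have h2 : 0 < B * Z * s := by positivity
  have h3 : B * Z * s ≤ B * Z * t := mul_le_mul_of_nonneg_left hst (by positivity)
  refine mul_le_mul (by nlinarith) ?_ (by positivity) (by positivity)
  refine Real.rpow_le_rpow (by positivity) ?_ hν
  rw [div_le_div_iff₀ (by positivity) (by positivity)]
  nlinarith

theorem F_le (hZ : 0 < Z) (hB : 0 < B) (hν : 0 ≤ ν) (ht : 0 < t) (hx : 0 ≤ x) :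
    F Z B ν t x ≤ Z / 2 * t := by
  have := F_anti hZ hB hν ht (le_refl (0 : ℝ)) hx
  rwa [F_zero hZ hB ht] at this

theorem F_ratio (hZ : 0 < Z) (hB : 0 < B) (hν : 0 ≤ ν) (ht : 0 < t) {T : ℝ} (hT : t ≤ T)
    (hx : 0 ≤ x) : F Z B ν t x ≤ t / T * F Z B ν T x := by
  have hT0 : 0 < T := lt_of_lt_of_le ht hT
  unfold F
  have h1 : 0 < B * Z * t := by positivity
  have h2 : 0 < B * Z * T := by positivity
  have h3 : B * Z * t ≤ B * Z * T := mul_le_mul_of_nonneg_left hT (by positivity)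
  have h4 : (B * Z * t / (B * Z * t + x)) ^ ν ≤ (B * Z * T / (B * Z * T + x)) ^ ν := by
    refine Real.rpow_le_rpow (by positivity) ?_ hν
    rw [div_le_div_iff₀ (by positivity) (by positivity)]
    nlinarith
  have h5 : t / T * (Z / 2 * T * (B * Z * T / (B * Z * T + x)) ^ ν) =
      Z / 2 * t * (B * Z * T / (B * Z * T + x)) ^ ν := by
    field_simp
  rw [h5]
  exact mul_le_mul_of_nonneg_left h4 (by positivity)

theorem F_scale (hZ : 0 < Z) (hB : 0 < B) (hν : 0 ≤ ν) {s : ℝ} (hs : 0 < s) (hs1 : s ≤ 1)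
    (ht : 0 < t) (hx : 0 ≤ x) : s ^ (1 + ν) * F Z B ν t x ≤ F Z B ν (s * t) x := by
  unfold F
  have h1 : 0 < B * Z * t := by positivity
  have h2 : 0 < B * Z * (s * t) := by positivity
  have h3 : s * (B * Z * t / (B * Z * t + x)) ≤ B * Z * (s * t) / (B * Z * (s * t) + x) := by
    rw [mul_div_assoc', div_le_div_iff₀ (by positivity) (by positivity)]
    have h4 : B * Z * (s * t) + x ≤ B * Z * t + x := by nlinarith
    have h5 : s * (B * Z * t) = B * Z * (s * t) := by ring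
    rw [h5]
    exact mul_le_mul_of_nonneg_left h4 h2.le
  have h6 : s ^ ν * (B * Z * t / (B * Z * t + x)) ^ ν ≤
      (B * Z * (s * t) / (B * Z * (s * t) + x)) ^ ν := by
    rw [← Real.mul_rpow hs.le (by positivity)]
    exact Real.rpow_le_rpow (by positivity) h3 hν
  rw [Real.rpow_add hs, Real.rpow_one]
  calc s * s ^ ν * (Z / 2 * t * (B * Z * t / (B * Z * t + x)) ^ ν)
      = Z / 2 * (s * t) * (s ^ ν * (B * Z * t / (B * Z * t + x)) ^ ν) := by ring
    _ ≤ Z / 2 * (s * t) * (B * Z * (s * t) / (B * Z * (s * t) + x)) ^ ν :=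
        mul_le_mul_of_nonneg_left h6 (by positivity)

theorem F_step (hZ : 0 < Z) (hB : 0 < B) (hν : 1 ≤ ν) (ht : 0 < t) (hx : 0 ≤ x) {z : ℝ}
    (hz : 0 ≤ z) :
    (1 - ν * (z / (B * Z * t + x + z))) * F Z B ν t x ≤ F Z B ν t (x + z) := by
  unfold F
  have h1 : 0 < B * Z * t := by positivity
  have hd : 0 < B * Z * t + x + z := by positivity
  have hd2 : 0 < B * Z * t + x := by positivity
  have hw1 : z / (B * Z * t + x + z) < 1 := by
    rw [div_lt_one hd]
    linarith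
  have hb := one_add_mul_self_le_rpow_one_add (s := -(z / (B * Z * t + x + z)))
    (by linarith) hν
  have e1 : B * Z * t / (B * Z * t + (x + z)) =
      (B * Z * t / (B * Z * t + x)) * (1 + -(z / (B * Z * t + x + z))) := by
    have : B * Z * t + (x + z) = B * Z * t + x + z := by ring
    rw [this]
    field_simp
    ring
  rw [e1, Real.mul_rpow (by positivity) (by linarith)]
  have hb' : 1 - ν * (z / (B * Z * t + x + z)) ≤ (1 + -(z / (B * Z * t + x + z))) ^ ν := by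
    refine le_trans (le_of_eq ?_) hb
    ring
  calc (1 - ν * (z / (B * Z * t + x + z))) * (Z / 2 * t * (B * Z * t / (B * Z * t + x)) ^ ν)
      ≤ (1 + -(z / (B * Z * t + x + z))) ^ ν *
        (Z / 2 * t * (B * Z * t / (B * Z * t + x)) ^ ν) :=
        mul_le_mul_of_nonneg_right hb' (by positivity)
    _ = Z / 2 * t * ((B * Z * t / (B * Z * t + x)) ^ ν *
        (1 + -(z / (B * Z * t + x + z))) ^ ν) := by ring

end Pool.Agent.OSR
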