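import Pool.Agent.OSR.Dec
import Pool.Agent.OSR.FLem

/-!
Bounds for the total net price of the rule 3 jobs.

PROOFS. `E_size`: if no index has the property the sum is `0`. Otherwise let `l` be the last one
(`exists_last`): the sum is `sm l (..) z + z l ≤ E l + z l`, with `E l < ζ t l` and
`z l < F (t l) (E l) ≤ Z / 2 * t l` (`R.h3`, `F_le`), and `t l ≤ S`.
`E_le_X`: if there is no index with `cl = 2` then `E n = 0`. Let `l` be the last one; as before
`E n ≤ (ζ + Z/2) t l`. By `R.h1' l`, `t l ≤ (c-1) X l + c p l`, `p l = z l + 4/5 * t l / m`,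
`z l ≤ Z/2 * t l`; so `(c-1) X n ≥ (c-1) X l ≥ t l (1 - c Z/2 - 4c/(5m)) ≥ t l * 3/4`
(`c ≤ 21/8`, `m ≥ 10`, `Z = 10^4 ζ^2`, `ζ ≤ 10^-6`). And `ζ + Z/2 ≤ 3/2 ζ`.
-/

open Finset
open scoped Classical

namespace Pool.Agent.OSR.Run

variable {m : ℕ} {c Z B ν ζ : ℝ} (R : Run m c Z B ν ζ)

theorem E_size (hZ : 0 < Z) (hB : 0 < B) (hν : 0 ≤ ν) (hζ : 0 ≤ ζ) (n : ℕ) {S : ℝ}
    (hS : 0 ≤ S) : sm n (fun j => R.cl j = 2 ∧ R.t j ≤ S) R.z ≤ (ζ + Z / 2) * S := by
  by_cases h : ∃ j, j < n ∧ (R.cl j = 2 ∧ R.t j ≤ S)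
  · obtain ⟨l, hl, ⟨hc, hS'⟩, _, hf⟩ := exists_last h
    rw [hf R.z]
    have h1 : sm l (fun j => R.cl j = 2 ∧ R.t j ≤ S) R.z ≤ sm l (fun j => R.cl j = 2) R.z :=
      sm_le_of_imp (fun j _ h => h.1) (fun j _ h => (R.z_pos (by rw [h]; decide)).le)
    have h2 := R.h3 l hc
    have h0 : 0 ≤ sm l (fun j => R.cl j = 2) (net m R.t R.p) :=
      sm_nonneg (fun j _ h => (R.z_pos (by rw [h]; decide)).le)
    have h3 := F_le hZ hB hν (R.ht l) h0
    have h4 : sm l (fun j => R.cl j = 2) R.z < ζ * R.t l := h2.1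
    have h5 : R.z l ≤ Z / 2 * R.t l := h2.2.le.trans h3
    have h6 : (ζ + Z / 2) * R.t l ≤ (ζ + Z / 2) * S :=
      mul_le_mul_of_nonneg_left hS' (by positivity)
    linarith
  · push Not at h
    rw [sm_eq_zero (fun j hj hQ => absurd hQ.2 (not_le.2 (h j hj hQ.1)))]
    positivity

theorem E_le_X {Zi ρ : ℝ} (G : Good m c Zi Z B ν ζ ρ) (n : ℕ) :
    R.E n ≤ 2 * ζ * ((c - 1) * R.X n) := by
  have hζ0 := G.hζ0
  have hζ1 := G.hζ
  have hc1 := G.hc1
  have hc2 := G.hc2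
  have hX0 : 0 ≤ R.X n := sm_nonneg (fun j _ _ => (R.hp j).le)
  by_cases h : ∃ j, j < n ∧ R.cl j = 2
  · obtain ⟨l, hl, hc, _, hf⟩ := exists_last h
    have hE : R.E n = sm l (fun j => R.cl j = 2) R.z + R.z l := hf R.z
    have h2 := R.h3 l hc
    have h0 : 0 ≤ sm l (fun j => R.cl j = 2) (net m R.t R.p) :=
      sm_nonneg (fun j _ h => (R.z_pos (by rw [h]; decide)).le)
    have hZ0 : 0 < Z := by rw [G.hZ]; positivity
    have h3 := F_le hZ0 (by linarith [G.hB] : 0 < B) (by linarith [G.hν1] : (0:ℝ) ≤ ν) (R.ht l) h0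
    have h4 : sm l (fun j => R.cl j = 2) R.z < ζ * R.t l := h2.1
    have h5 : R.z l ≤ Z / 2 * R.t l := h2.2.le.trans h3
    have h6 := R.h1' l (Or.inl hc)
    have h7 : sm l (fun i => R.cl i = 1) R.p ≤ R.X n :=
      sm_mono hl.le (fun j _ _ => (R.hp j).le)
    have h8 : R.p l = R.z l + 4 / 5 * R.t l / m := by rw [R.z_eq]; ring
    have ht := R.ht l
    have hm : (10 : ℝ) ≤ m := by exact_mod_cast G.hm
    have h9 : 4 / 5 * R.t l / m ≤ 4 / 50 * R.t l := by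
      rw [div_le_iff₀ (by linarith)]
      nlinarith
    have hZ2 : Z / 2 ≤ 1 / 200 * ζ := by
      rw [G.hZ]
      have : ζ ^ 2 ≤ 1 / 10 ^ 6 * ζ := by nlinarith
      linarith
    have hz0 : 0 < R.z l := R.z_pos (by rw [hc]; decide)
    have h10 : R.z l ≤ 1 / 10 ^ 8 * R.t l := by
      have : Z / 2 * R.t l ≤ 1 / 10 ^ 8 * R.t l :=
        mul_le_mul_of_nonneg_right (by linarith) ht.le
      linarith
    have h11 : c * R.p l ≤ 21 / 8 * R.p l := mul_le_mul_of_nonneg_right hc2 (R.hp l).le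
    have h12 : (c - 1) * sm l (fun i => R.cl i = 1) R.p ≤ (c - 1) * R.X n :=
      mul_le_mul_of_nonneg_left h7 (by linarith)
    have h13 : 3 / 4 * R.t l ≤ (c - 1) * R.X n := by
      rw [h8] at h11
      rw [h8] at h6
      linarith
    have h14 : R.E n ≤ 3 / 2 * ζ * R.t l := by
      have : Z / 2 * R.t l ≤ 1 / 200 * ζ * R.t l := mul_le_mul_of_nonneg_right hZ2 ht.le
      have : 0 < ζ * R.t l := by positivity
      linarith
    have h15 : 2 * ζ * (3 / 4 * R.t l) ≤ 2 * ζ * ((c - 1) * R.X n) :=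
      mul_le_mul_of_nonneg_left h13 (by positivity)
    linarith
  · push Not at h
    have : R.E n = 0 := sm_eq_zero (fun j hj hQ => h j hj hQ)
    rw [this]
    have : 0 ≤ (c - 1) * R.X n := mul_nonneg (by linarith) hX0
    positivity

end Pool.Agent.OSR.Run
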