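import Pool.Agent.OSR.X1

/-!
The basic lower bound for the optimum.

PROOF. Put `δ = mu n - T`, `vB = hs 0 t / m`, `v3 = hs 2 t / m`, `w = vB + v3 ≥ 0`,
`v = rs 3 t / m ≥ 0`. By `vol'`, `v ≥ δ + w`. By the decompositions (`pen_sigma`, `pen_alg`,
`hs_zero_le`, `hs_two`, `rs_three_z`, `rs_two_le`, `hs 2 z ≤ E n`, nonnegativity)
`c (T + D) - X ≥ c T + (4/5) c v - (4/5) w - E n - x1 + (c - 1) d1`, where `x1 = hs 1 p`,
`d1 = rs 1 p`, `X n = x1 + d1`. [Check: the terms are `c rs3 p ≥ (4/5) c v`, `(c-1) rs0 p ≥ 0`,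
`(c-1) rs2 p ≥ 0`, `- hs0 p ≥ -(4/5) vB`, `- hs2 p ≥ - E n - (4/5) v3`.]
(A) `c T - x1 + (c-1) d1 = c T - c x1 + (c - 1) X n ≥ (1 - Zi) T + (c - 1) X n`, because
`(c-1) x1 ≤ T = (c-1)(c-2+Zi) T` gives `x1 ≤ (c-2+Zi) T`, and `c (c - 2 + Zi) = 1 + (c - 2 + Zi)`
(from `hb`), so `c T - c x1 ≥ (c - 1 - (c - 2 + Zi)) T = (1 - Zi) T`.
(B) `c T - x1 + (c-1) d1 ≥ (2 - Zi) T`.
(C) `(1 - Zi) δ + (4/5) w ≤ (4/5) c v` and `(2 - Zi) δ + (4/5) w ≤ (4/5) c v`: if `δ ≥ 0` then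
`(4/5) c v ≥ 2 (δ + w)` (`c ≥ 13/5`). If `δ < 0` and `w ≤ -δ`: left side
`≤ (1 - Zi) δ + (4/5) w ≤ 0` as `1 - Zi ≥ 4/5`. If `δ < 0`, `w > -δ`: `v ≥ w + δ ≥ 0` and
`(4/5) c v ≥ 2 (w + δ) ≥ (4/5)(w + δ) ≥ (4/5) w + (1 - Zi) δ ≥ (4/5) w + (2 - Zi) δ`.
(A)+(C) and (B)+(C) give the two bounds with `mu n = T + δ`.
-/

open Finset
open scoped Classical

namespace Pool.Agent.OSR.Run

variable {m : ℕ} {c Zi Z B ν ζ ρ : ℝ} (R : Run m c Z B ν ζ) {n : ℕ}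
  {σ : ℕ → Option (Fin m)} {T : ℝ}

theorem safe (G : Good m c Zi Z B ν ζ ρ) (hT : 0 ≤ T)
    (h : ∀ i, sm n (fun j => σ j = some i) R.t ≤ T) :
    (1 - Zi) * R.mu n + max ((c - 1) * R.X n) (R.mu n) - R.E n ≤
      c * (T + sm n (fun j => σ j = none) R.p) - sm n (fun j => R.cl j ≠ 3) R.p := by
  have hm0 : (0 : ℝ) < m := by
    have := G.hm
    have h1 : 0 < m := by omega
    exact_mod_cast h1
  have hc1 := G.hc1
  have hc2 := G.hc2
  have hb := G.hb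
  have hZi0 := G.hZi0
  have hZi5 : Zi ≤ 1 / 5 := by
    have h1 := G.hZi
    have h2 := G.hζ
    have h3 := G.hζ0
    have h4 := G.hZ
    have h5 : ζ ^ 2 ≤ (1 / 10 ^ 6) ^ 2 := pow_le_pow_left₀ h3.le h2 2
    have h6 : Z ≤ 10 ^ 4 * (1 / 10 ^ 6) ^ 2 := by
      rw [h4]
      exact mul_le_mul_of_nonneg_left h5 (by norm_num)
    norm_num at h6 ⊢
    linarith
  have e1 := R.pen_sigma (n := n) (σ := σ)
  have e2 := R.pen_alg (n := n) (σ := σ)
  have e3 := R.X_eq (n := n) (σ := σ)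
  have e4 := R.E_eq (n := n) (σ := σ)
  have e5 := R.hs_zero_le (n := n) (σ := σ)
  have e6 := R.hs_two (n := n) (σ := σ)
  have e7 := R.rs_three_z (n := n) (σ := σ)
  have g0 := R.rs_p_nonneg (n := n) (σ := σ) 0
  have g1 := R.rs_p_nonneg (n := n) (σ := σ) 1
  have g2 := R.rs_p_nonneg (n := n) (σ := σ) 2
  have g3 := R.rs_z_nonneg (n := n) (σ := σ) (k := 2) (by decide)
  have g4 := R.rs_z_nonneg (n := n) (σ := σ) (k := 3) (by decide)
  have g5 : 0 ≤ R.rs n σ 3 R.t / m := div_nonneg (R.rs_t_nonneg 3) hm0.le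
  have g6 : 0 ≤ R.hs n σ 0 R.t / m := div_nonneg (R.hs_t_nonneg 0) hm0.le
  have g7 : 0 ≤ R.hs n σ 2 R.t / m := div_nonneg (R.hs_t_nonneg 2) hm0.le
  have hx := R.x1_le (n := n) (σ := σ) (by linarith) hT h
  have hv : R.mu n - R.rs n σ 3 R.t / m + R.hs n σ 0 R.t / m + R.hs n σ 2 R.t / m ≤ T := by
    have h1 := R.vol' h
    have h2 : R.mu n - R.rs n σ 3 R.t / m + R.hs n σ 0 R.t / m + R.hs n σ 2 R.t / m =
        (sm n (fun j => R.cl j = 3) R.t - R.rs n σ 3 R.t + R.hs n σ 0 R.t + R.hs n σ 2 R.t) / m := by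
      unfold Run.mu
      ring
    rw [h2, div_le_iff₀ hm0]
    linarith
  rw [e1, e2]
  generalize sm n (fun j => σ j = none) R.p = D at *
  generalize sm n (fun j => R.cl j ≠ 3) R.p = D' at *
  generalize R.rs n σ 3 R.t / m = v at *
  generalize R.hs n σ 0 R.t / m = vB at *
  generalize R.hs n σ 2 R.t / m = v3 at *
  generalize R.mu n = μ at *
  generalize R.X n = X at *
  generalize R.E n = E at *
  generalize R.hs n σ 0 R.p = H0 at *
  generalize R.hs n σ 1 R.p = x1 at *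
  generalize R.hs n σ 2 R.p = H2 at *
  generalize R.hs n σ 2 R.z = H2z at *
  generalize R.rs n σ 0 R.p = D0 at *
  generalize R.rs n σ 1 R.p = d1 at *
  generalize R.rs n σ 2 R.p = D2 at *
  generalize R.rs n σ 3 R.p = D3 at *
  generalize R.rs n σ 3 R.z = D3z at *
  generalize R.rs n σ 2 R.z = D2z at *
  have hk : 0 ≤ c - 2 + Zi := by linarith
  have hx' : x1 ≤ (c - 2 + Zi) * T := by
    have h1 := mul_le_mul_of_nonneg_left hx hk
    have h2 : (c - 2 + Zi) * ((c - 1) * x1) = x1 := by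
      rw [← mul_assoc, mul_comm (c - 2 + Zi) (c - 1), hb, one_mul]
    linarith
  have hcx : c * x1 ≤ (c - 1 + Zi) * T := by
    have h1 := mul_le_mul_of_nonneg_left hx' (show (0 : ℝ) ≤ c by linarith)
    have h2 : c * ((c - 2 + Zi) * T) = (c - 1 + Zi) * T := by
      have h3 : c * (c - 2 + Zi) = c - 1 + Zi := by linarith
      rw [← mul_assoc, h3]
    linarith
  -- the volume part
  have hcv : 2 * v ≤ 4 / 5 * c * v := by nlinarith
  have hC : (1 - Zi) * (μ - T) + 4 / 5 * (vB + v3) ≤ 4 / 5 * c * v ∧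
      (2 - Zi) * (μ - T) + 4 / 5 * (vB + v3) ≤ 4 / 5 * c * v := by
    have hδ : μ - T + (vB + v3) ≤ v := by linarith
    rcases le_total 0 (μ - T) with h0 | h0
    · have h1 : (1 - Zi) * (μ - T) ≤ 2 * (μ - T) := by nlinarith
      have h2 : (2 - Zi) * (μ - T) ≤ 2 * (μ - T) := by nlinarith
      constructor <;> linarith
    · have h1 : (1 - Zi) * (μ - T) ≤ 4 / 5 * (μ - T) := by nlinarith
      have h2 : (2 - Zi) * (μ - T) ≤ 4 / 5 * (μ - T) := by nlinarith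
      constructor <;> linarith
  have hcD3 : 4 / 5 * c * v ≤ c * D3 := by
    have h1 : 4 / 5 * v ≤ D3 := by linarith
    have h2 := mul_le_mul_of_nonneg_left h1 (show (0 : ℝ) ≤ c by linarith)
    linarith
  have hD0 : 0 ≤ (c - 1) * D0 := mul_nonneg (by linarith) g0
  have hD2 : 0 ≤ (c - 1) * D2 := mul_nonneg (by linarith) g2
  have hd1 : 0 ≤ (c - 1) * d1 := mul_nonneg (by linarith) g1
  rcases max_cases ((c - 1) * X) μ with ⟨hmx, _⟩ | ⟨hmx, _⟩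
  · rw [hmx, e3]
    nlinarith [hC.1]
  · rw [hmx]
    nlinarith [hC.2]

end Pool.Agent.OSR.Run
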