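import Pool.Agent.OSR.X1

/-!
The bound for the load of a machine whose last job `s` was placed by list scheduling, from the
requirement `hreq`.

PROOF. Put `μ = mux n s`, `δ = μ - T`, `vB = hs 0 t / m`, `v3 = hs 2 t / m`, `w = vB + v3`,
`v = rx s t / m ≥ 0`; `v ≥ δ + w` (`vol`), `w ≥ v3 ≥ 0`. `x1 = hs 1 p`, `d1 = rs 1 p`,
`b = c - 2 + Zi`, `(c - 1) b = 1`.
(K) `δ + |δ|/10 + (4/5) w + v3/10 ≤ (4/5) c v`: if `δ ≥ 0`: right side `≥ 2 (δ + w)`. If `δ < 0`,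
`w ≤ -δ`: left side `≤ (9/10)(δ + w) ≤ 0`. If `δ < 0 < δ + w`: left side `≤ (9/10) (δ + w)` and
right side `≥ 2 (δ + w)`.
(S) `A0 + hs0 p + hs2 p + Zi T ≤ T + c rx p + (c-1) rs2 p + (b T - x1)`: the left side is
`≤ A0 + (4/5) w + hs2 z + Zi T` (`hs_zero_le`, `hs_two`); insert `hreq`; use (K),
`rx p = rx z + (4/5) v` (`rx_z`), `rs2 z ≤ rs2 p`.
Now `sm n (cl ≠ 3) p = hs0 p + rs0 p + x1 + d1 + hs2 p + rs2 p` and
`sm n (σ = none) p = rs0 p + d1 + rs2 p + rx p + (if σ s = none then p s else 0)`.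
Case `σ s ≠ none`: `t s ≤ T` (`hosted_le`); the claim follows from (S) since
`(1 - Zi) T + T + b T = c T`.
Case `σ s = none`: `t s ≤ (c - 1) X s + c p s ≤ (c - 1)(x1 + d1) + c p s` (`R.h1' s`,
`X s ≤ X n`); the claim follows from (S) and `(c - 1) x1 ≤ T` (`x1_le`), since
`(1 - Zi) T + b T - x1 + c x1 ≤ (1 - Zi + b + 1) T = c T`.
-/

open Finset
open scoped Classical

namespace Pool.Agent.OSR.Run

variable {m : ℕ} {c Zi Z B ν ζ ρ : ℝ} (R : Run m c Z B ν ζ) {n : ℕ}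
  {σ : ℕ → Option (Fin m)} {T : ℝ}

theorem star (G : Good m c Zi Z B ν ζ ρ) (hT : 0 ≤ T)
    (h : ∀ i, sm n (fun j => σ j = some i) R.t ≤ T) {s : ℕ} (hs : s < n) (hcl : R.cl s = 3)
    {A0 : ℝ}
    (hreq : Zi * T + R.hs n σ 2 R.z ≤ c * R.rx n σ s R.z + (c - 1) * R.rs n σ 2 R.z +
      R.hs n σ 2 R.t / m / 10 + ((R.mux n s - A0) + |R.mux n s - T| / 10 +
        ((c - 2 + Zi) * T - R.hs n σ 1 R.p))) :
    A0 + R.t s + sm n (fun j => R.cl j ≠ 3) R.p ≤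
      c * (T + sm n (fun j => σ j = none) R.p) := by
  have hm0 : (0 : ℝ) < m := by
    have := G.hm
    have h2 : 0 < m := by omega
    exact_mod_cast h2
  have hc := G.hc1
  have hc1 : 1 < c := by linarith
  have hvol := R.vol s h
  have hvol' : R.mux n s - R.rx n σ s R.t / m + R.hs n σ 0 R.t / m + R.hs n σ 2 R.t / m ≤ T := by
    have h1 : (sm n (fun j => R.cl j = 3 ∧ j ≠ s) R.t - R.rx n σ s R.t + R.hs n σ 0 R.t +
        R.hs n σ 2 R.t) / m ≤ T := by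
      rw [div_le_iff₀ hm0]; linarith
    have h2 : (sm n (fun j => R.cl j = 3 ∧ j ≠ s) R.t - R.rx n σ s R.t + R.hs n σ 0 R.t +
        R.hs n σ 2 R.t) / m = R.mux n s - R.rx n σ s R.t / m + R.hs n σ 0 R.t / m +
          R.hs n σ 2 R.t / m := by
      unfold mux; ring
    linarith
  have hv3 : 0 ≤ R.hs n σ 2 R.t / m := div_nonneg (R.hs_t_nonneg 2) hm0.le
  have hvB : 0 ≤ R.hs n σ 0 R.t / m := div_nonneg (R.hs_t_nonneg 0) hm0.le
  have hv : 0 ≤ R.rx n σ s R.t / m := div_nonneg (R.rx_t_nonneg s) hm0.le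
  have hrxz := R.rx_z (n := n) (σ := σ) s
  have h0 := R.hs_zero_le (n := n) (σ := σ)
  have h2 := R.hs_two (n := n) (σ := σ)
  have h2' := R.rs_two_le (n := n) (σ := σ)
  generalize R.hs n σ 2 R.t / m = v3 at *
  generalize R.hs n σ 0 R.t / m = vB at *
  generalize R.rx n σ s R.t / m = v at *
  generalize R.mux n s = μ at *
  have hcv : 2 * v ≤ 4 / 5 * c * v := by nlinarith
  have K : (μ - T) + |μ - T| / 10 + 4 / 5 * (vB + v3) + v3 / 10 ≤ 4 / 5 * c * v := by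
    rcases le_or_gt 0 (μ - T) with hd | hd
    · rw [abs_of_nonneg hd]; linarith
    · rw [abs_of_neg hd]
      rcases le_or_gt (μ - T + (vB + v3)) 0 with he | he
      · linarith
      · linarith
  have S : A0 + R.hs n σ 0 R.p + R.hs n σ 2 R.p + Zi * T ≤ T + c * R.rx n σ s R.p +
      (c - 1) * R.rs n σ 2 R.p + ((c - 2 + Zi) * T - R.hs n σ 1 R.p) := by
    have e1 : c * R.rx n σ s R.p = c * R.rx n σ s R.z + 4 / 5 * c * v := by rw [hrxz]; ring
    have e2 : (c - 1) * R.rs n σ 2 R.z ≤ (c - 1) * R.rs n σ 2 R.p :=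
      mul_le_mul_of_nonneg_left h2' (by linarith)
    linarith
  have hA := R.pen_alg (n := n) (σ := σ)
  have hS := R.pen_sigma (n := n) (σ := σ)
  have h3 := R.rs_three (n := n) (σ := σ) hs hcl
  have r0 := R.rs_p_nonneg (n := n) (σ := σ) 0
  have r1 := R.rs_p_nonneg (n := n) (σ := σ) 1
  rw [hA, hS, h3]
  have e0 : R.rs n σ 0 R.p ≤ c * R.rs n σ 0 R.p := by nlinarith
  have e1 : R.rs n σ 1 R.p ≤ c * R.rs n σ 1 R.p := by nlinarith
  by_cases hσ : σ s = none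
  · rw [if_pos hσ]
    have ht := R.h1' s (Or.inr hcl)
    have hXs : sm s (fun i => R.cl i = 1) R.p ≤ R.X n :=
      sm_mono hs.le (fun j _ _ => (R.hp j).le)
    have hX := R.X_eq (n := n) (σ := σ)
    have hx1 := R.x1_le (n := n) (σ := σ) hc1 hT h
    have e2 : (c - 1) * sm s (fun i => R.cl i = 1) R.p ≤ (c - 1) * R.X n :=
      mul_le_mul_of_nonneg_left hXs (by linarith)
    rw [hX] at e2
    linarith
  · rw [if_neg hσ]
    have ht : R.t s ≤ T := hosted_le (fun j => (R.ht j).le) h hs hσ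
    linarith

end Pool.Agent.OSR.Run
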