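import Pool.Agent.OSR.Req
import Pool.Agent.OSR.Safe
import Pool.Agent.OSR.Star

/-!
The algorithm is `c`-competitive (indexed form).

PROOF. Let `i` be a machine. If no job `< n` was put on `i` then `load n i = 0`, and by `safe` it is
enough that `(1 - Zi) μ + max S μ - E n ≥ 0`, `S = (c-1) X n`, `μ = mu n ≥ 0`: `E n ≤ 2 ζ S`
(`E_le_X`) `≤ max S μ` (`S ≥ 0`, `2 ζ ≤ 1`). Otherwise let `s` be the last job with `cl s = 3`,
`ma s = i` (`exists_last`): `load n i = load s i + t s`.
* `R.hpl s` of type P: `load s i + t s ≤ (2 - 3ζ) ((∑ l, load s l)/m) = (2 - 3ζ) mu s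
  ≤ (2 - 3 ζ) mu n` (`sum_sm`, `sm_mono`), and
  `(2 - 3ζ) μ ≤ (1 - Zi) μ + max S μ - E n`: if `S ≤ μ` then `E n ≤ 2 ζ μ` and `Zi ≤ ζ`; if
  `S > μ` then `max S μ - E n ≥ (1 - 2 ζ) S ≥ (1 - 2 ζ) μ`. Apply `safe`.
* type L: `star` with `A0 = load s (ma s)` and `hreq` from `req`.
-/

open Finset
open scoped Classical

namespace Pool.Agent.OSR.Run

variable {m : ℕ} {c Zi Z B ν ζ ρ : ℝ} (R : Run m c Z B ν ζ) {n : ℕ}
  {σ : ℕ → Option (Fin m)} {T : ℝ}

theorem index_main (G : Good m c Zi Z B ν ζ ρ) (hT : 0 ≤ T)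
    (h : ∀ i, sm n (fun j => σ j = some i) R.t ≤ T) (i : Fin m) :
    R.load n i + sm n (fun j => R.cl j ≠ 3) R.p ≤
      c * (T + sm n (fun j => σ j = none) R.p) := by
  have hm10 := G.hm
  have hm : 0 < m := by omega
  have hm0 : (0 : ℝ) < m := by exact_mod_cast hm
  have hc1 := G.hc1
  have hc2 := G.hc2
  have hZi0 := G.hZi0
  have hZi := G.hZi
  have hZ := G.hZ
  have hζ0 := G.hζ0
  have hζ := G.hζ
  have hZiζ : Zi ≤ ζ := by
    have : Z / 2 ≤ ζ := by
      rw [hZ]
      have : ζ * ζ ≤ (1 / 10 ^ 6) * ζ := mul_le_mul_of_nonneg_right hζ hζ0.le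
      norm_num at this ⊢
      nlinarith
    linarith
  have hsafe := R.safe G hT h
  have hE := R.E_le_X G n
  have hμ0 : 0 ≤ R.mu n := by
    unfold mu
    exact div_nonneg (sm_nonneg (fun j _ _ => (R.ht j).le)) hm0.le
  have hX0 : 0 ≤ R.X n := sm_nonneg (fun j _ _ => (R.hp j).le)
  have hS0 : 0 ≤ (c - 1) * R.X n := mul_nonneg (by linarith) hX0
  set S := (c - 1) * R.X n with hS
  set μ := R.mu n with hμ
  have hζ2 : 2 * ζ ≤ 1 := by
    norm_num at hζ
    linarith
  have hmax1 : S ≤ max S μ := le_max_left _ _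
  have hmax2 : μ ≤ max S μ := le_max_right _ _
  have hEmax : R.E n ≤ 2 * ζ * max S μ :=
    hE.trans (mul_le_mul_of_nonneg_left hmax1 (by linarith))
  by_cases hex : ∃ j, j < n ∧ (R.cl j = 3 ∧ R.ma j = i)
  · obtain ⟨s, hs, ⟨hcl, hma⟩, -, hlast⟩ := exists_last hex
    have hload : R.load n i = R.load s i + R.t s := hlast R.t
    rcases R.hpl s hcl with hP | hL
    · have hP1 := hP.1
      have h1 : R.load s i + R.t s ≤ (2 - 3 * ζ) * ((∑ l, R.load s l) / m) := by
        rw [← hma]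
        exact hP1
      have h2 : (∑ l, R.load s l) / m ≤ μ := by
        rw [hμ]
        unfold mu
        apply div_le_div_of_nonneg_right _ hm0.le
        have : ∑ l, R.load s l = sm s (fun j => R.cl j = 3) R.t := by
          unfold load
          exact sum_sm s (fun j => R.cl j = 3) R.ma R.t
        rw [this]
        exact sm_mono hs.le (fun j _ _ => (R.ht j).le)
      have h3 : R.load n i ≤ (2 - 3 * ζ) * μ := by
        rw [hload]
        exact h1.trans (mul_le_mul_of_nonneg_left h2 (by linarith))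
      have h4 : (2 - 3 * ζ) * μ ≤ (1 - Zi) * μ + max S μ - R.E n := by
        have h5 : (1 - 2 * ζ) * μ ≤ (1 - 2 * ζ) * max S μ :=
          mul_le_mul_of_nonneg_left hmax2 (by linarith)
        have h6 : Zi * μ ≤ ζ * μ := mul_le_mul_of_nonneg_right hZiζ hμ0
        linarith
      linarith
    · have hL1 : ∀ l, R.load s (R.ma s) ≤ R.load s l := hL.1
      have hreq := R.req G hT h hs hL1
      have hst := R.star G hT h hs hcl hreq
      rw [hload, ← hma]
      exact hst
  · have hload : R.load n i = 0 := by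
      apply sm_eq_zero
      intro j hj hq
      exact hex ⟨j, hj, hq⟩
    have h1 : R.E n ≤ max S μ := by
      have h0 : 0 ≤ max S μ := hS0.trans hmax1
      have : 2 * ζ * max S μ ≤ 1 * max S μ := mul_le_mul_of_nonneg_right hζ2 h0
      linarith
    have h2 : 0 ≤ (1 - Zi) * μ := by
      apply mul_nonneg _ hμ0
      linarith
    rw [hload]
    linarith

end Pool.Agent.OSR.Run
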