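import Pool.Agent.OSR.Params
import Pool.Agent.OSR.Index
import Pool.Agent.OSR.Bridge

/-!
The theorem: for every `e > 2 / (2 + φ) = 0.5527...` there is `κ > 0` with
`R(m) ≤ 1 + φ - κ / m^e` for all `m ≥ 2`.

PROOF. `gap_nu`: for `1 ≤ ν < φ`: `params` gives `κ`, `m₀`; for `m ≥ max m₀ 2` use `R_le` with
`index_main`. For `2 ≤ m < m₀` use `log_bound`: `R m ≤ 1 + φ - log m / (7 m)` and
`log m / (7 m) ≥ log 2 / (7 m₀) =: κ'`; as `m ^ (-(2/(2+ν))) ≤ 1`, the constant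
`min κ κ'` works for all `m ≥ 2` (if `m₀ = 0` take `m₀ := 1`).
`gap_bound`: if `e > 2/(2+φ)`, choose `ν ∈ [1, φ)` with `2/(2+ν) ≤ e` (for instance
`ν = max 1 ((2/e) - 2)` if this is `≥ 1`; `2/e - 2 < φ`), and `m ^ (-e) ≤ m ^ (-(2/(2+ν)))`.
-/

open Finset
open scoped Classical

namespace Pool.Agent.OSR

open Real Pool.Agent.H78.Sched

theorem gap_nu {ν : ℝ} (h1 : 1 ≤ ν) (h2 : ν < goldenRatio) :
    ∃ κ : ℝ, 0 < κ ∧ ∀ m : ℕ, 2 ≤ m →
      R m ≤ 1 + goldenRatio - κ * (m : ℝ) ^ (-(2 / (2 + ν))) := by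
  obtain ⟨κ, hκ, m₀, hm₀⟩ := params h1 h2
  obtain ⟨κ', hκ'⟩ : ∃ κ', κ' = log 2 / (7 * ((m₀ : ℝ) + 1)) := ⟨_, rfl⟩
  have hlog2 : 0 < log 2 := log_pos (by norm_num)
  have hm1 : (0 : ℝ) < (m₀ : ℝ) + 1 := by positivity
  have hκ'0 : 0 < κ' := by rw [hκ']; positivity
  refine ⟨min κ κ', lt_min hκ hκ'0, fun m hm => ?_⟩
  have hmr : (2 : ℝ) ≤ m := by exact_mod_cast hm
  have hpow0 : 0 ≤ (m : ℝ) ^ (-(2 / (2 + ν))) := rpow_nonneg (by linarith) _
  rcases le_or_gt m₀ m with h | h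
  · obtain ⟨c, Zi, Z, B, ζ, ρ, G, hc⟩ := hm₀ m h
    have hc0 : 0 < c := by have := G.hc1; linarith
    have h3 : R m ≤ c := R_le (B := B) (Z := Z) (ν := ν) (ζ := ζ) (by omega) hc0
      (fun Rn n σ T hT hh i => Run.index_main Rn G hT hh i)
    have h4 : min κ κ' * (m : ℝ) ^ (-(2 / (2 + ν))) ≤ κ * (m : ℝ) ^ (-(2 / (2 + ν))) :=
      mul_le_mul_of_nonneg_right (min_le_left _ _) hpow0
    linarith
  · have h3 := Pool.Agent.H69.Sched.log_bound m hm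
    have h4 : (m : ℝ) ^ (-(2 / (2 + ν))) ≤ 1 := by
      refine rpow_le_one_of_one_le_of_nonpos (by linarith) ?_
      have : 0 ≤ 2 / (2 + ν) := by positivity
      linarith
    have h5 : κ' ≤ log m / (7 * m) := by
      rw [hκ']
      have h6 : log 2 ≤ log m := log_le_log (by norm_num) hmr
      have h7 : (m : ℝ) ≤ (m₀ : ℝ) + 1 := by
        have : (m : ℝ) ≤ m₀ := by exact_mod_cast h.le
        linarith
      have h8 : (0 : ℝ) < 7 * m := by linarith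
      exact div_le_div₀ (by linarith) h6 h8 (by linarith)
    have h9 : min κ κ' * (m : ℝ) ^ (-(2 / (2 + ν))) ≤ κ' * 1 :=
      mul_le_mul (min_le_right _ _) h4 hpow0 hκ'0.le
    linarith

theorem gap_bound {e : ℝ} (he : 2 / (2 + goldenRatio) < e) :
    ∃ κ : ℝ, 0 < κ ∧ ∀ m : ℕ, 2 ≤ m → R m ≤ 1 + goldenRatio - κ / (m : ℝ) ^ e := by
  have hg1 : (1 : ℝ) < goldenRatio := one_lt_goldenRatio
  have he0 : 0 < e := lt_trans (by positivity) he
  have he1 : 2 < e * (2 + goldenRatio) := by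
    rwa [div_lt_iff₀ (by linarith)] at he
  have he2 : 2 / e - 2 < goldenRatio := by
    have : 2 / e < 2 + goldenRatio := by
      rw [div_lt_iff₀ he0]
      linarith
    linarith
  obtain ⟨ν, hν⟩ : ∃ ν, ν = max 1 (2 / e - 2) := ⟨_, rfl⟩
  have hν1 : 1 ≤ ν := by rw [hν]; exact le_max_left _ _
  have hν2 : ν < goldenRatio := by rw [hν]; exact max_lt hg1 he2
  have hν3 : 2 / e - 2 ≤ ν := by rw [hν]; exact le_max_right _ _
  have hν4 : 2 / (2 + ν) ≤ e := by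
    rw [div_le_iff₀ (by linarith)]
    have h1 : 2 / e ≤ 2 + ν := by linarith
    rw [div_le_iff₀ he0] at h1
    linarith
  obtain ⟨κ, hκ, h⟩ := gap_nu hν1 hν2
  refine ⟨κ, hκ, fun m hm => (h m hm).trans ?_⟩
  have hmr : (2 : ℝ) ≤ m := by exact_mod_cast hm
  have h1 : κ / (m : ℝ) ^ e ≤ κ * (m : ℝ) ^ (-(2 / (2 + ν))) := by
    rw [div_eq_mul_inv, ← rpow_neg (by linarith)]
    exact mul_le_mul_of_nonneg_left (rpow_le_rpow_of_exponent_le (by linarith) (by linarith)) hκ.le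
  linarith

end Pool.Agent.OSR
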