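import Pool.Agent.OSR.Defs
import Pool.Agent.H69.Sched.LogMain

/-!
The choice of the parameters.

PROOF. `φ = goldenRatio`, `δ = φ - ν ∈ (0, 0.619)`. Put `B = 10 / δ ≥ 16`, `ρ = 1 - δ / 20`,
`κ₀ = min (δ^2 / 10^8) ρ₁`, where `ρ₁ > 0` is such that
`ρ₁ ^ (2 + ν) ≤ 1 / (26.25 * 5000 * (8 * 10^4 * B)^ν)` (for instance that number to the power
`1/(2+ν)`). For `m` large let `ζ = κ₀ * m ^ (-1/(2+ν)) ≤ κ₀`, `Z = 10^4 ζ^2`, `g = Z / 3`,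
`c = 1 + φ - g`, and `Zi` from `exists_Z` (`0 ≤ Zi ≤ 7/5 g ≤ Z / 2`,
`1 = (c-1)(c-2+Zi)`). `κ = 10^4 κ₀^2 / 3`; then `g = κ * m ^ (-2/(2+ν))`.
Conditions of `Good`: `hc1`, `hc2`: `φ ∈ (1.618033, 1.618034)`, `g ≤ 10^-7`.
`hν`: `g ≤ δ`. `hB` clear. `hρ1`: `c ρ ≥ 2.6 * 0.96`. `hρ2`: `ν/(2B) = ν δ / 20 ≤ 0.081 δ`, and
`c ρ (1 - 0.081 δ) ≥ (1 + φ)(1 - 0.131 δ) - g ≥ 1 + φ - 0.345 δ - g ≥ 1 + φ - δ = 1 + ν`.
`hρ3`: with `lam = 50 ζ + 25 √(2ζ)`, `√(2 ζ) ≤ √2 δ / 10^4`, so `lam ≤ δ / 250`, and Bernoulli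
(`one_add_mul_self_le_rpow_one_add`) gives `(1 - lam)^(1+ν) ≥ 1 - (1+ν) lam ≥ 1 - δ/20`.
`hζ`: `δ^2/10^8 ≤ 1/10^6`. `hmζ`: `7 ζ m = 7 κ₀ m^(1 - 1/(2+ν)) ≥ 2` for large `m`
(`1 - 1/(2+ν) > 0`). `hF`: `B Z / (B Z + ζ/8) ≤ 8 B Z / ζ = 8 * 10^4 * B * ζ`, so the left side is
`≤ 5000 ζ^2 (8 * 10^4 B ζ)^ν = 5000 (8 * 10^4 B)^ν ζ^(2+ν)
 = 5000 (8 * 10^4 B)^ν κ₀^(2+ν) / m ≤ 1 / (26.25 m) ≤ 1 / (10 c m)`.
-/

open Finset
open scoped Classical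

namespace Pool.Agent.OSR

open Real

private theorem params_sqrt {δ ζ : ℝ} (hδ : 0 < δ) (hζ0 : 0 < ζ) (hζ : ζ ≤ δ ^ 2 / 10 ^ 8) :
    √(2 * ζ) ≤ 15 / 10 ^ 5 * δ := by
  rw [Real.sqrt_le_left (by positivity)]
  have h : (15 / 10 ^ 5 * δ) ^ 2 = 225 / 10 ^ 10 * δ ^ 2 := by ring
  rw [h]
  have : 0 ≤ δ ^ 2 := by positivity
  linarith

private theorem params_hF {m : ℕ} {c Z B ν ζ : ℝ} (hm : 0 < (m : ℝ)) (hc0 : 0 < c)
    (hc2 : c ≤ 21 / 8) (hB : 0 < B) (hν : 1 ≤ ν) (hζ : 0 < ζ) (hZ : Z = 10 ^ 4 * ζ ^ 2)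
    (hK : 5000 * (8 * 10 ^ 4 * B) ^ ν * ζ ^ (2 + ν) ≤ 1 / (105 / 4 * m)) :
    Z / 2 * (B * Z / (B * Z + ζ / 8)) ^ ν ≤ 1 / (10 * c * m) := by
  have hZ0 : 0 < Z := by rw [hZ]; positivity
  have h1 : B * Z / (B * Z + ζ / 8) ≤ 8 * 10 ^ 4 * B * ζ := by
    rw [div_le_iff₀ (by positivity)]
    have e : B * Z = 8 * 10 ^ 4 * B * ζ * (ζ / 8) := by rw [hZ]; ring
    have : 0 ≤ 8 * 10 ^ 4 * B * ζ * (B * Z) := by positivity
    calc B * Z = 8 * 10 ^ 4 * B * ζ * (ζ / 8) := e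
      _ ≤ 8 * 10 ^ 4 * B * ζ * (B * Z) + 8 * 10 ^ 4 * B * ζ * (ζ / 8) := by linarith
      _ = 8 * 10 ^ 4 * B * ζ * (B * Z + ζ / 8) := by ring
  have h2 : (B * Z / (B * Z + ζ / 8)) ^ ν ≤ (8 * 10 ^ 4 * B * ζ) ^ ν :=
    Real.rpow_le_rpow (by positivity) h1 (by linarith)
  have h3 : (8 * 10 ^ 4 * B * ζ) ^ ν = (8 * 10 ^ 4 * B) ^ ν * ζ ^ ν :=
    Real.mul_rpow (by positivity) hζ.le
  have h4 : ζ ^ (2 + ν) = ζ ^ 2 * ζ ^ ν := by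
    rw [Real.rpow_add hζ]
    norm_num
  calc Z / 2 * (B * Z / (B * Z + ζ / 8)) ^ ν
      ≤ Z / 2 * ((8 * 10 ^ 4 * B) ^ ν * ζ ^ ν) := by
        rw [← h3]
        exact mul_le_mul_of_nonneg_left h2 (by positivity)
    _ = 5000 * (8 * 10 ^ 4 * B) ^ ν * ζ ^ (2 + ν) := by
        rw [h4, hZ]; ring
    _ ≤ 1 / (105 / 4 * m) := hK
    _ ≤ 1 / (10 * c * m) := by
        apply one_div_le_one_div_of_le (by positivity)
        apply mul_le_mul_of_nonneg_right _ hm.le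
        linarith

private theorem params_good {m : ℕ} {ν ζ : ℝ} (h1 : 1 ≤ ν) (h2 : ν < goldenRatio)
    (hm : 10 ≤ m) (hζ0 : 0 < ζ) (hζ : ζ ≤ (goldenRatio - ν) ^ 2 / 10 ^ 8)
    (hmζ : 2 ≤ 7 * ζ * m)
    (hK : 5000 * (8 * 10 ^ 4 * (10 / (goldenRatio - ν))) ^ ν * ζ ^ (2 + ν) ≤
      1 / (105 / 4 * m)) :
    ∃ Zi : ℝ, Good m (1 + goldenRatio - 10 ^ 4 * ζ ^ 2 / 3) Zi (10 ^ 4 * ζ ^ 2)
      (10 / (goldenRatio - ν)) ν ζ (1 - (goldenRatio - ν) / 20) := by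
  have hφ1 := Pool.Agent.H69.Sched.phi_gt
  have hφ2 := Pool.Agent.H69.Sched.phi_lt
  have hm0 : (0 : ℝ) < m := by
    have : 0 < m := by omega
    exact_mod_cast this
  set δ : ℝ := goldenRatio - ν with hδd
  have hδ0 : 0 < δ := by rw [hδd]; linarith
  have hδ1 : δ ≤ 0.618034 := by rw [hδd]; linarith
  have hδ2 : δ ^ 2 ≤ 0.618034 * δ := by nlinarith
  have hζδ : ζ ≤ 0.618034 * δ / 10 ^ 8 := by
    have : δ ^ 2 / 10 ^ 8 ≤ 0.618034 * δ / 10 ^ 8 := by linarith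
    linarith
  have hζ6 : ζ ≤ 1 / 10 ^ 8 := by
    have : 0.618034 * δ / 10 ^ 8 ≤ 1 / 10 ^ 8 := by norm_num at hδ1 ⊢; linarith
    linarith
  have hζ2 : ζ ^ 2 ≤ 1 / 10 ^ 8 * ζ := by nlinarith
  have hg0 : 0 < 10 ^ 4 * ζ ^ 2 / 3 := by positivity
  have hgδ : 10 ^ 4 * ζ ^ 2 / 3 ≤ 1 / 10 ^ 10 * δ := by
    have : 10 ^ 4 * ζ ^ 2 / 3 ≤ 10 ^ 4 * (1 / 10 ^ 8 * ζ) / 3 := by linarith
    norm_num at this hζδ ⊢
    linarith
  have hg1 : 10 ^ 4 * ζ ^ 2 / 3 ≤ 1 / 10 ^ 8 := by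
    have : 1 / 10 ^ 10 * δ ≤ 1 / 10 ^ 10 * 1 :=
      mul_le_mul_of_nonneg_left (by norm_num at hδ1 ⊢; linarith) (by norm_num)
    norm_num at this hgδ ⊢
    linarith
  obtain ⟨Zi, hZi0, hZi1, hZi⟩ := Pool.Agent.H69.Sched.exists_Z hg0 (by norm_num at hg1 ⊢; linarith)
  set g : ℝ := 10 ^ 4 * ζ ^ 2 / 3 with hg
  have hc1 : 13 / 5 ≤ 1 + goldenRatio - g := by norm_num at hφ1 hg1 ⊢; linarith
  have hc2 : 1 + goldenRatio - g ≤ 21 / 8 := by norm_num at hφ2 ⊢; linarith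
  have hνle : ν = goldenRatio - δ := by rw [hδd]; ring
  have hgle : g ≤ δ := by
    have : 1 / 10 ^ 10 * δ ≤ 1 * δ := mul_le_mul_of_nonneg_right (by norm_num) hδ0.le
    linarith
  refine ⟨Zi, ?_⟩
  constructor
  · exact hm
  · exact hc1
  · exact hc2
  · exact hZi.symm
  · exact hZi0
  · have : 7 / 5 * g = 7 / 15 * (10 ^ 4 * ζ ^ 2) := by rw [hg]; ring
    have : 0 < 10 ^ 4 * ζ ^ 2 := by positivity
    linarith
  · exact hζ0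
  · have : (1 : ℝ) / 10 ^ 8 ≤ 1 / 10 ^ 6 := by norm_num
    linarith
  · rfl
  · exact h1
  · linarith
  · rw [le_div_iff₀ hδ0]
    norm_num at hδ1 ⊢
    linarith
  · norm_num at hδ1 ⊢; linarith
  · have h3 : 2.6 * 0.96 ≤ (1 + goldenRatio - g) * (1 - δ / 20) := by
      apply mul_le_mul
      · norm_num at hc1 ⊢; linarith
      · norm_num at hδ1 ⊢; linarith
      · norm_num
      · linarith
    norm_num at h3 ⊢
    linarith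
  · -- the second condition on `ρ`
    have h3 : ν / (2 * (10 / δ)) = ν * δ / 20 := by
      field_simp
      norm_num
    rw [h3]
    have h4 : 1 - 0.131 * δ ≤ (1 - δ / 20) * (1 - ν * δ / 20) := by
      have h5 : (1 - δ / 20) * (1 - ν * δ / 20) = 1 - (1 + ν) * δ / 20 + ν * δ ^ 2 / 400 := by ring
      have h6 : (1 + ν) * δ ≤ 2.618034 * δ := by
        apply mul_le_mul_of_nonneg_right _ hδ0.le
        norm_num at hφ2 ⊢; linarith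
      have h7 : 0 ≤ ν * δ ^ 2 / 400 := by
        have : 0 ≤ ν := by linarith
        positivity
      norm_num at h6 ⊢
      linarith
    have h5 : (1 + goldenRatio - g) * (1 - 0.131 * δ) ≤
        (1 + goldenRatio - g) * ((1 - δ / 20) * (1 - ν * δ / 20)) :=
      mul_le_mul_of_nonneg_left h4 (by linarith)
    have h6 : 1 + ν ≤ (1 + goldenRatio - g) * (1 - 0.131 * δ) := by
      have h7 : (1 + goldenRatio - g) * (1 - 0.131 * δ) =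
          1 + goldenRatio - g - (1 + goldenRatio) * (0.131 * δ) + g * (0.131 * δ) := by ring
      have h8 : (1 + goldenRatio) * (0.131 * δ) ≤ 2.618034 * (0.131 * δ) := by
        apply mul_le_mul_of_nonneg_right _ (by positivity)
        norm_num at hφ2 ⊢; linarith
      have h9 : 0 ≤ g * (0.131 * δ) := by positivity
      rw [h7, hνle]
      norm_num at h8 h9 hgδ ⊢
      linarith
    calc 1 + ν ≤ (1 + goldenRatio - g) * (1 - 0.131 * δ) := h6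
      _ ≤ (1 + goldenRatio - g) * ((1 - δ / 20) * (1 - ν * δ / 20)) := h5
      _ = (1 + goldenRatio - g) * (1 - δ / 20) * (1 - ν * δ / 20) := by ring
  · -- the third condition on `ρ`
    have hs := params_sqrt hδ0 hζ0 hζ
    have hs0 : 0 ≤ √(2 * ζ) := Real.sqrt_nonneg _
    set lam : ℝ := 50 * ζ + 25 * √(2 * ζ) with hlam
    have hl0 : 0 ≤ lam := by positivity
    have hl1 : lam ≤ 4 / 1000 * δ := by
      rw [hlam]
      norm_num at hs hζδ ⊢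
      linarith
    have hl2 : lam ≤ 1 := by norm_num at hδ1 hl1 ⊢; linarith
    have hb := one_add_mul_self_le_rpow_one_add (s := -lam) (by linarith)
      (p := 1 + ν) (by linarith)
    have h3 : (1 + ν) * lam ≤ 2.618034 * lam := by
      apply mul_le_mul_of_nonneg_right _ hl0
      norm_num at hφ2 ⊢; linarith
    have h4 : (1 - lam) ^ (1 + ν) = (1 + -lam) ^ (1 + ν) := by rw [← sub_eq_add_neg]
    rw [h4]
    refine le_trans ?_ hb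
    norm_num at h3 ⊢
    linarith
  · exact hmζ
  · exact params_hF hm0 (by linarith) hc2 (by positivity) h1 hζ0 rfl hK

theorem params {ν : ℝ} (h1 : 1 ≤ ν) (h2 : ν < goldenRatio) :
    ∃ κ : ℝ, 0 < κ ∧ ∃ m₀ : ℕ, ∀ m : ℕ, m₀ ≤ m →
      ∃ c Zi Z B ζ ρ : ℝ, Good m c Zi Z B ν ζ ρ ∧
        c = 1 + goldenRatio - κ * (m : ℝ) ^ (-(2 / (2 + ν))) := by
  have hδ0 : 0 < goldenRatio - ν := by linarith
  set K : ℝ := 5000 * (8 * 10 ^ 4 * (10 / (goldenRatio - ν))) ^ ν with hK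
  have hK0 : 0 < K := by
    have : 0 < (8 * 10 ^ 4 * (10 / (goldenRatio - ν))) ^ ν := Real.rpow_pos_of_pos (by positivity) _
    positivity
  have h2ν : 0 < 2 + ν := by linarith
  set κ₁ : ℝ := (1 / (105 / 4 * K)) ^ (1 / (2 + ν)) with hκ₁
  have hκ₁0 : 0 < κ₁ := Real.rpow_pos_of_pos (by positivity) _
  have hκ₁p : κ₁ ^ (2 + ν) = 1 / (105 / 4 * K) := by
    rw [hκ₁, ← Real.rpow_mul (by positivity), one_div_mul_cancel h2ν.ne', Real.rpow_one]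
  set κ₀ : ℝ := min ((goldenRatio - ν) ^ 2 / 10 ^ 8) κ₁ with hκ₀
  have hκ₀0 : 0 < κ₀ := lt_min (by positivity) hκ₁0
  have hκ₀1 : κ₀ ≤ (goldenRatio - ν) ^ 2 / 10 ^ 8 := min_le_left _ _
  have hκ₀p : K * κ₀ ^ (2 + ν) ≤ 1 / (105 / 4) := by
    have h3 : κ₀ ^ (2 + ν) ≤ κ₁ ^ (2 + ν) :=
      Real.rpow_le_rpow hκ₀0.le (min_le_right _ _) h2ν.le
    have h4 := mul_le_mul_of_nonneg_left h3 hK0.le
    rw [hκ₁p] at h4
    have h5 : K * (1 / (105 / 4 * K)) = 1 / (105 / 4) := by field_simp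
    linarith
  have hexp : 0 < 1 - 1 / (2 + ν) := by
    have : 1 / (2 + ν) ≤ 1 / 3 := one_div_le_one_div_of_le (by norm_num) (by linarith)
    linarith
  have htend : Filter.Tendsto (fun m : ℕ => (m : ℝ) ^ (1 - 1 / (2 + ν))) Filter.atTop
      Filter.atTop := (tendsto_rpow_atTop hexp).comp tendsto_natCast_atTop_atTop
  obtain ⟨m₁, hm₁⟩ := Filter.eventually_atTop.1 (htend.eventually_ge_atTop (2 / (7 * κ₀)))
  refine ⟨10 ^ 4 * κ₀ ^ 2 / 3, by positivity, max 10 m₁, fun m hm => ?_⟩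
  have hm10 : 10 ≤ m := le_trans (le_max_left _ _) hm
  have hmm : m₁ ≤ m := le_trans (le_max_right _ _) hm
  have hm0 : (0 : ℝ) < m := by
    have : 0 < m := by omega
    exact_mod_cast this
  have hm1 : (1 : ℝ) ≤ m := by
    have : 1 ≤ m := by omega
    exact_mod_cast this
  set ζ : ℝ := κ₀ * (m : ℝ) ^ (-(1 / (2 + ν))) with hζ
  have hq0 : 0 < (m : ℝ) ^ (-(1 / (2 + ν))) := Real.rpow_pos_of_pos hm0 _
  have hζ0 : 0 < ζ := mul_pos hκ₀0 hq0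
  have hζle : ζ ≤ κ₀ := by
    have h3 : (m : ℝ) ^ (-(1 / (2 + ν))) ≤ 1 := by
      apply Real.rpow_le_one_of_one_le_of_nonpos hm1
      have : 0 < 1 / (2 + ν) := by positivity
      linarith
    calc ζ ≤ κ₀ * 1 := mul_le_mul_of_nonneg_left h3 hκ₀0.le
      _ = κ₀ := mul_one _
  have hmζ : 2 ≤ 7 * ζ * m := by
    have h3 : (m : ℝ) ^ (-(1 / (2 + ν))) * m = (m : ℝ) ^ (1 - 1 / (2 + ν)) := by
      have h4 : (m : ℝ) ^ (1 - 1 / (2 + ν)) = (m : ℝ) ^ (-(1 / (2 + ν))) * (m : ℝ) ^ (1 : ℝ) := by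
        rw [← Real.rpow_add hm0]
        congr 1
        ring
      rw [h4, Real.rpow_one]
    have h5 := hm₁ m hmm
    rw [div_le_iff₀ (by positivity)] at h5
    calc 2 ≤ (m : ℝ) ^ (1 - 1 / (2 + ν)) * (7 * κ₀) := h5
      _ = 7 * ζ * m := by rw [← h3, hζ]; ring
  have hKζ : 5000 * (8 * 10 ^ 4 * (10 / (goldenRatio - ν))) ^ ν * ζ ^ (2 + ν) ≤
      1 / (105 / 4 * m) := by
    have h3 : ζ ^ (2 + ν) = κ₀ ^ (2 + ν) * (m : ℝ)⁻¹ := by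
      rw [hζ, Real.mul_rpow hκ₀0.le hq0.le, ← Real.rpow_mul hm0.le]
      congr 1
      rw [← Real.rpow_neg_one]
      congr 1
      field_simp
    rw [← hK, h3]
    calc K * (κ₀ ^ (2 + ν) * (m : ℝ)⁻¹) = K * κ₀ ^ (2 + ν) * (m : ℝ)⁻¹ := by ring
      _ ≤ 1 / (105 / 4) * (m : ℝ)⁻¹ := mul_le_mul_of_nonneg_right hκ₀p (by positivity)
      _ = 1 / (105 / 4 * m) := by rw [one_div, one_div, mul_inv]
  obtain ⟨Zi, hG⟩ := params_good h1 h2 hm10 hζ0 (hζle.trans hκ₀1) hmζ hKζ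
  refine ⟨_, Zi, _, _, ζ, _, hG, ?_⟩
  have h3 : ζ ^ 2 = κ₀ ^ 2 * (m : ℝ) ^ (-(2 / (2 + ν))) := by
    rw [hζ, mul_pow]
    congr 1
    rw [← Real.rpow_natCast ((m : ℝ) ^ (-(1 / (2 + ν)))) 2, ← Real.rpow_mul hm0.le]
    congr 1
    push_cast
    ring
  rw [h3]
  ring

end Pool.Agent.OSR
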