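import Pool.Agent.OSR.PkDefs

/-!
Basic facts on packing sequences.

PROOFS. `mono1`, `a_nonneg`, `a_mono`: induction with `hs`, `hn`, `ht`, `h0`.
`cross_exists`: the first index `j' > j` with `θ ≤ a j' i` (`Nat.find`) is `n + 1` with
`a n i < θ ≤ a (n+1) i`; the load of `i` changed at step `n`, so `acc n` and `ma n = i`.
`card_succ`: `D (j+1) ⊇ D j \ {ma j}`. `card_anti`: `a_mono`.
`exists_nstar`: `card D 0 = m` (`h0`, `0 < θ`), `card D N = 0`; let `n'` be the least index with
`card D n' ≤ r`. Then `n' ≥ 1` because `r < m`, and `card D (n'-1) > r`, so `card D n' = r` by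
`card_succ`. `n' ≤ N`. For `j < n'` the minimality gives `r < card D j`.
`sum_D`: `∑ i, a j i ≥ ∑_{i ∉ D} θ`.
-/

open Finset
open scoped Classical

namespace Pool.Agent.OSR.Pack

variable {m k : ℕ} {ζ : ℝ} (P : Pack m k ζ)

private theorem mono1 (j : ℕ) (i : Fin m) : P.a j i ≤ P.a (j + 1) i := by
  by_cases h : P.acc j
  · rw [P.hs j h i]
    have ht := P.ht j h
    split_ifs <;> linarith
  · rw [P.hn j h i]

theorem a_nonneg (j : ℕ) (i : Fin m) : 0 ≤ P.a j i := by
  induction j with
  | zero => rw [P.h0 i]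
  | succ j ih => exact ih.trans (mono1 P j i)

theorem a_mono {j l : ℕ} (h : j ≤ l) (i : Fin m) : P.a j i ≤ P.a l i := by
  induction l, h using Nat.le_induction with
  | base => exact le_rfl
  | succ l hl ih => exact ih.trans (mono1 P l i)

theorem cross_exists {θ : ℝ} {j N : ℕ} {i : Fin m} (hjN : j ≤ N) (h1 : P.a j i < θ)
    (h2 : θ ≤ P.a N i) : ∃ n, j ≤ n ∧ n < N ∧ P.ma n = i ∧ P.Cross θ n := by
  induction N, hjN using Nat.le_induction with
  | base => exact absurd h2 (not_le.mpr h1)
  | succ N hN ih =>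
    by_cases h3 : θ ≤ P.a N i
    · obtain ⟨n, a1, a2, a3, a4⟩ := ih h3
      exact ⟨n, a1, a2.trans (Nat.lt_succ_self N), a3, a4⟩
    · have h3' : P.a N i < θ := not_le.mp h3
      have hacc : P.acc N := by
        by_contra hc
        rw [P.hn N hc i] at h2
        exact h3 h2
      have hma : P.ma N = i := by
        by_contra hc
        rw [P.hs N hacc i, if_neg hc, add_zero] at h2
        exact h3 h2
      refine ⟨N, hN, Nat.lt_succ_self N, hma, hacc, ?_, ?_⟩
      · rw [hma]; exact h3'
      · rw [hma]; exact h2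

theorem card_succ (θ : ℝ) (j : ℕ) : (P.D θ j).card ≤ (P.D θ (j + 1)).card + 1 := by
  have hsub : P.D θ j ⊆ insert (P.ma j) (P.D θ (j + 1)) := by
    intro i hi
    have hi' : P.a j i < θ := (mem_filter.mp hi).2
    by_cases hm : P.ma j = i
    · rw [hm]; exact mem_insert_self _ _
    · refine mem_insert_of_mem (mem_filter.mpr ⟨mem_univ _, ?_⟩)
      by_cases hacc : P.acc j
      · rw [P.hs j hacc i, if_neg hm, add_zero]; exact hi'
      · rw [P.hn j hacc i]; exact hi'
  exact (card_le_card hsub).trans (card_insert_le _ _)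

theorem card_anti (θ : ℝ) {j l : ℕ} (h : j ≤ l) : (P.D θ l).card ≤ (P.D θ j).card := by
  apply card_le_card
  intro i hi
  have hi' : P.a l i < θ := (mem_filter.mp hi).2
  exact mem_filter.mpr ⟨mem_univ _, (a_mono P h i).trans_lt hi'⟩

theorem exists_nstar {θ : ℝ} (hθ : 0 < θ) {r N : ℕ} (hr : r < m) (hN : ∀ i, θ ≤ P.a N i) :
    ∃ n, n ≤ N ∧ (P.D θ n).card = r ∧ ∀ j, j < n → r < (P.D θ j).card := by
  have hNr : (P.D θ N).card ≤ r := by
    have : P.D θ N = ∅ := by
      apply filter_eq_empty_iff.mpr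
      intro i _
      exact not_lt.mpr (hN i)
    rw [this, card_empty]
    exact Nat.zero_le r
  have hex : ∃ n, (P.D θ n).card ≤ r := ⟨N, hNr⟩
  have h0 : (P.D θ 0).card = m := by
    have : P.D θ 0 = univ := by
      apply filter_true_of_mem
      intro i _
      rw [P.h0 i]; exact hθ
    rw [this, card_univ, Fintype.card_fin]
  refine ⟨Nat.find hex, Nat.find_min' hex hNr, ?_, ?_⟩
  · apply le_antisymm (Nat.find_spec hex)
    obtain ⟨p, hp⟩ : ∃ p, Nat.find hex = p + 1 := by
      apply Nat.exists_eq_succ_of_ne_zero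
      intro hz
      have := Nat.find_spec hex
      rw [hz, h0] at this
      omega
    have hlt : ¬ (P.D θ p).card ≤ r := Nat.find_min hex (by omega)
    have hcs := card_succ P θ p
    rw [hp]
    omega
  · intro j hj
    exact not_le.mp (Nat.find_min hex hj)

theorem sum_D {θ : ℝ} (hθ : 0 ≤ θ) (j : ℕ) :
    (m - (P.D θ j).card : ℝ) * θ ≤ ∑ i, P.a j i := by
  have hcard : (P.D θ j).card + (univ.filter (fun i => ¬ P.a j i < θ)).card = m := by
    have := card_filter_add_card_filter_not (s := (univ : Finset (Fin m)))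
      (fun i => P.a j i < θ)
    rw [card_univ, Fintype.card_fin] at this
    exact this
  have hc2 : (m - (P.D θ j).card : ℝ) = ((univ.filter (fun i => ¬ P.a j i < θ)).card : ℝ) := by
    have h' : ((P.D θ j).card : ℝ) + ((univ.filter (fun i => ¬ P.a j i < θ)).card : ℝ)
        = (m : ℝ) := by exact_mod_cast hcard
    linarith
  rw [hc2]
  calc ((univ.filter (fun i => ¬ P.a j i < θ)).card : ℝ) * θ
      = ∑ _i ∈ univ.filter (fun i => ¬ P.a j i < θ), θ := by
        rw [sum_const, nsmul_eq_mul]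
    _ ≤ ∑ i ∈ univ.filter (fun i => ¬ P.a j i < θ), P.a j i :=
        sum_le_sum fun i hi => not_lt.mp (mem_filter.mp hi).2
    _ ≤ ∑ i, P.a j i :=
        sum_le_sum_of_subset_of_nonneg (filter_subset _ _) fun i _ _ => a_nonneg P j i

end Pool.Agent.OSR.Pack
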