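import Pool.Agent.OSR.Pk1

/-!
Packing sequences, level `1 - η`, `k = 2 m / 3`.

PROOFS. `P_card`: if the placement at step `j` is of type P with `K`, and `a j (ma j) < θ`, then
`K ⊆ D` and `ma j ∈ D \ K`, so `k + 1 ≤ card D`.
`h_le`: `K` has `k = 2 m / 3` elements, all loads outside `K` are `≥ h := a j j0`, also at time
`N ≥ j` (`a_mono`), the others are `≥ 1 - η` at time `N`. So
`(m - k) h + k (1 - η) ≤ (1 + η) m`, i.e. `(m - k) (h - 1) ≤ η (m + k)`, and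
`m + k ≤ 5 (m - k)` because `3 k ≤ 2 m`. Hence `h - 1 ≤ 5 η` (`m - k > 0`, `0 ≤ η`).
`L_size`: let `r = card D (1-η) j` and let the placement of step `j` be of type L with `K, j0`.
`∑ a j ≥ (m - r)(1 - η) ≥ m (1 - η) - r`, so the average `μ ≥ 1 - η - r/m`;
`t j > (2 - 3ζ) μ - a j j0`. If `μ ≤ 1` then
`(2 - 3ζ) μ ≥ 2 μ - 3 ζ ≥ 2 - 2 η - 2 r/m - 3 ζ`; if `μ > 1` then `(2 - 3ζ) μ ≥ 2 - 3 ζ`.
With `a j j0 ≤ 1 + 5 η`: `t j > 1 - 7 η - 3 ζ - 2 r / m`.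
-/

open Finset
open scoped Classical

namespace Pool.Agent.OSR.Pack

variable {m : ℕ} {ζ : ℝ} (P : Pack m (2 * m / 3) ζ)

theorem P_card {θ : ℝ} {j : ℕ} (h : PlaceP (2 * m / 3) ζ (P.a j) (P.t j) (P.ma j))
    (hθ : P.a j (P.ma j) < θ) : 2 * m / 3 + 1 ≤ (P.D θ j).card := by
  obtain ⟨-, K, hK, hiK, hK2⟩ := h
  have h1 : insert (P.ma j) K ⊆ P.D θ j := by
    intro l hl
    unfold D
    rw [Finset.mem_filter]
    refine ⟨Finset.mem_univ _, ?_⟩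
    rw [Finset.mem_insert] at hl
    rcases hl with rfl | hl
    · exact hθ
    · exact lt_of_le_of_lt (hK2 l hl) hθ
  have h2 := Finset.card_le_card h1
  rw [Finset.card_insert_of_notMem hiK, hK] at h2
  exact h2

theorem h_le (hm : 10 ≤ m) {η : ℝ} (hη : 0 ≤ η) {N j : ℕ} (hj : j ≤ N)
    (hload : ∀ i, 1 - η ≤ P.a N i) (hsum : ∑ i, P.a N i ≤ (1 + η) * m)
    {K : Finset (Fin m)} {j0 : Fin m} (hK : K.card = 2 * m / 3)
    (hout : ∀ l, l ∉ K → P.a j j0 ≤ P.a j l) : P.a j j0 ≤ 1 + 5 * η := by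
  have hkm : 3 * K.card ≤ 2 * m := by
    rw [hK]
    omega
  have hkm' : 3 * (K.card : ℝ) ≤ 2 * m := by exact_mod_cast hkm
  have hm' : (10 : ℝ) ≤ m := by exact_mod_cast hm
  have h1 : ∑ i, P.a N i = ∑ i ∈ K, P.a N i + ∑ i ∈ univ \ K, P.a N i := by
    rw [add_comm, Finset.sum_sdiff (Finset.subset_univ K)]
  have h2 : (K.card : ℝ) * (1 - η) ≤ ∑ i ∈ K, P.a N i := by
    have h3 := Finset.card_nsmul_le_sum K (fun i => P.a N i) (1 - η) (fun i _ => hload i)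
    rw [nsmul_eq_mul] at h3
    exact h3
  have h4 : (m - K.card : ℝ) * P.a j j0 ≤ ∑ i ∈ univ \ K, P.a N i := by
    have h3 := Finset.card_nsmul_le_sum (univ \ K) (fun i => P.a N i) (P.a j j0) (fun i hi =>
      (hout i (Finset.mem_sdiff.1 hi).2).trans (P.a_mono hj i))
    rw [nsmul_eq_mul, Finset.card_sdiff_of_subset (Finset.subset_univ K), Finset.card_univ,
      Fintype.card_fin, Nat.cast_sub (by
        have := Finset.card_le_univ K
        rwa [Fintype.card_fin] at this)] at h3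
    exact h3
  have h5 : (m - K.card : ℝ) * (P.a j j0 - 1) ≤ (m - K.card : ℝ) * (5 * η) := by
    have h6 : η * (m + K.card) ≤ η * (5 * (m - K.card)) :=
      mul_le_mul_of_nonneg_left (by linarith) hη
    nlinarith
  have h6 : (0 : ℝ) < m - K.card := by linarith
  have h7 := le_of_mul_le_mul_left h5 h6
  linarith

theorem L_size (hm : 10 ≤ m) (hζ : 0 ≤ ζ) (hζ1 : ζ ≤ 1 / 10) {η : ℝ} (hη : 0 ≤ η)
    (hη1 : η ≤ 1) {N j : ℕ} (hj : j ≤ N)
    (hload : ∀ i, 1 - η ≤ P.a N i) (hsum : ∑ i, P.a N i ≤ (1 + η) * m)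
    (h : PlaceL (2 * m / 3) ζ (P.a j) (P.t j) (P.ma j)) :
    1 - 7 * η - 3 * ζ - 2 * (P.D (1 - η) j).card / m < P.t j := by
  obtain ⟨-, K, j0, hK, hout, hlt⟩ := h
  have h1 := P.h_le hm hη hj hload hsum hK hout
  have h2 := P.sum_D (by linarith : 0 ≤ 1 - η) j
  have hm' : (10 : ℝ) ≤ m := by exact_mod_cast hm
  have hm0 : (0 : ℝ) < m := by linarith
  obtain ⟨r, hr⟩ : ∃ r : ℝ, r = (P.D (1 - η) j).card := ⟨_, rfl⟩
  have hr0 : 0 ≤ r := by
    rw [hr]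
    exact Nat.cast_nonneg _
  rw [← hr] at h2 ⊢
  have h3 : 1 - η - r / m ≤ (∑ l, P.a j l) / m := by
    rw [le_div_iff₀ hm0, sub_mul, div_mul_cancel₀ _ hm0.ne']
    nlinarith
  have h4 : (2 - 3 * ζ) * (1 - η - r / m) ≤ (2 - 3 * ζ) * ((∑ l, P.a j l) / m) :=
    mul_le_mul_of_nonneg_left h3 (by linarith)
  have h5 : 0 ≤ r / m := by positivity
  have h6 : ζ * (1 - η - r / m) ≤ ζ * 1 := mul_le_mul_of_nonneg_left (by linarith) hζ
  have h7 : 2 * r / m = 2 * (r / m) := by ring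
  rw [h7]
  linarith

end Pool.Agent.OSR.Pack
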