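import Pool.Agent.OSR.Pk2

/-!
Packing sequences: when only `r ≈ d m` machines are below the level, the least load is `< 4 d`.

PROOF. Let `θ = 1 - η`. Suppose `4 d ≤ P.a n i` for all `i`. Take `i ∈ D θ n` (`r` of them). By
`cross_exists` there is a crossing step `n' ≥ n`, `n' < N`, `ma n' = i`. Its placement is not of
type P, because `P_card` would give `2m/3 + 1 ≤ card (D θ n') ≤ card (D θ n) = r ≤ d m + 1`
(`card_anti`), impossible. So it is of type L, and by `L_size`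
`t n' > 1 - 7η - 3ζ - 2 r/m`, so
`P.a N i ≥ P.a (n'+1) i ≥ P.a n i + t n' ≥ 4 d + 1 - 7 η - 3 ζ - 2 r / m` (`a_mono`). As
`2 r/m ≤ 2 d + 2/m`, the surplus `P.a N i - θ ≥ 2 d - 6 η - 3 ζ - 2/m ≥ d`.
Summing over `D θ n`: `∑ i, (P.a N i - θ) ≥ r d ≥ d^2 m`, but the left side is
`≤ (1 + η) m - (1 - η) m = 2 η m < d^2 m`. Contradiction.
-/

open Finset
open scoped Classical

namespace Pool.Agent.OSR.Pack

variable {m : ℕ} {ζ : ℝ} (P : Pack m (2 * m / 3) ζ)

theorem min_small (hm : 10 ≤ m) (hζ : 0 ≤ ζ) (hζ1 : ζ ≤ 1 / 10) {η d : ℝ} (hη : 0 ≤ η)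
    (hd : 3 * ζ + 6 * η + 2 / m ≤ d) (hd2 : 2 * η < d ^ 2) (hd1 : d ≤ 1 / 100) {N n r : ℕ}
    (hload : ∀ i, 1 - η ≤ P.a N i) (hsum : ∑ i, P.a N i ≤ (1 + η) * m) (hn : n ≤ N)
    (hr : (P.D (1 - η) n).card = r) (hr1 : d * m ≤ r) (hr2 : (r : ℝ) ≤ d * m + 1) :
    ∃ i, P.a n i < 4 * d := by
  by_contra hcon
  have hc : ∀ i, 4 * d ≤ P.a n i := fun i => not_lt.1 (fun h => hcon ⟨i, h⟩)
  have hm' : (10 : ℝ) ≤ m := by exact_mod_cast hm
  have hm0 : (0 : ℝ) < m := by linarith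
  have h2m : (0 : ℝ) ≤ 2 / m := by positivity
  have hd0 : 0 ≤ d := by linarith
  have hη1 : η ≤ 1 := by linarith
  have hrm : 2 * (r : ℝ) / m ≤ 2 * d + 2 / m := by
    have h1 : 2 * (r : ℝ) / m ≤ 2 * (d * m + 1) / m :=
      div_le_div_of_nonneg_right (by linarith) hm0.le
    have h2 : 2 * (d * m + 1) / m = 2 * d + 2 / m := by
      field_simp
    linarith
  have key : ∀ i ∈ P.D (1 - η) n, d ≤ P.a N i - (1 - η) := by
    intro i hi
    have hi1 : P.a n i < 1 - η := by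
      unfold D at hi
      exact (Finset.mem_filter.1 hi).2
    obtain ⟨n', hn1, hn2, hma, hacc, hlt, hge⟩ := P.cross_exists hn hi1 (hload i)
    have hcard : (P.D (1 - η) n').card ≤ r := by
      have := P.card_anti (1 - η) hn1
      omega
    rcases P.hp n' hacc with hP | hL
    · exfalso
      have h1 := P.P_card hP hlt
      have h2 : 2 * m / 3 + 1 ≤ r := h1.trans hcard
      have h3 : 2 * m ≤ 3 * (2 * m / 3) + 2 := by omega
      have h4 : (2 * m : ℝ) ≤ 3 * ((2 * m / 3 : ℕ) : ℝ) + 2 := by exact_mod_cast h3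
      have h5 : ((2 * m / 3 : ℕ) : ℝ) + 1 ≤ r := by exact_mod_cast h2
      have h6 : d * m ≤ 1 / 100 * m := mul_le_mul_of_nonneg_right hd1 hm0.le
      linarith
    · have h1 := P.L_size hm hζ hζ1 hη hη1 hn2.le hload hsum hL
      have h2 : 2 * ((P.D (1 - η) n').card : ℝ) / m ≤ 2 * r / m := by
        apply div_le_div_of_nonneg_right _ hm0.le
        have : ((P.D (1 - η) n').card : ℝ) ≤ r := by exact_mod_cast hcard
        linarith
      have h3 : P.a (n' + 1) i = P.a n' i + P.t n' := by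
        rw [P.hs n' hacc i, if_pos hma]
      have h4 := P.a_mono (show n' + 1 ≤ N from hn2) i
      have h5 := P.a_mono hn1 i
      have h6 := hc i
      linarith
  have hle : ∀ i, 0 ≤ P.a N i - (1 - η) := fun i => by
    have := hload i
    linarith
  have hS1 : ((P.D (1 - η) n).card : ℝ) * d ≤ ∑ i ∈ P.D (1 - η) n, (P.a N i - (1 - η)) := by
    have h3 := Finset.card_nsmul_le_sum (P.D (1 - η) n) (fun i => P.a N i - (1 - η)) d key
    rw [nsmul_eq_mul] at h3
    exact h3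
  have hS2 : ∑ i ∈ P.D (1 - η) n, (P.a N i - (1 - η)) ≤ ∑ i, (P.a N i - (1 - η)) :=
    Finset.sum_le_sum_of_subset_of_nonneg (Finset.subset_univ _) (fun i _ _ => hle i)
  have hS3 : ∑ i, (P.a N i - (1 - η)) = ∑ i, P.a N i - m * (1 - η) := by
    rw [Finset.sum_sub_distrib, Finset.sum_const, Finset.card_univ, Fintype.card_fin,
      nsmul_eq_mul]
  rw [hr] at hS1
  have h7 : d * m * d ≤ r * d := mul_le_mul_of_nonneg_right hr1 hd0
  have h8 : 2 * η * m < d ^ 2 * m := mul_lt_mul_of_pos_right hd2 hm0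
  nlinarith

end Pool.Agent.OSR.Pack
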