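import Pool.Agent.OSR.Pk3

/-!
Packing sequences: every crossing is a placement of type L.

PROOF. Let `θ = 1 - η` and suppose some crossing step `< N` is not of type L; let `j1` be the last
one. By `hp` it is of type P: `a j1 i + t j1 ≤ (2 - 3ζ) μ`, `i = ma j1`, with a set `K` of
`k = 2m/3` machines, `i ∉ K`, `a j1 l ≤ a j1 i < θ` for `l ∈ K`. By `P_card`,
`card (D θ j1) ≥ k + 1`. Let `r = ⌈d m⌉₊` (so `d m ≤ r ≤ d m + 1`, `r < m`, `r ≤ 2m/3`), and `n`
from `exists_nstar`; let `i0` be given by `min_small`: `a n i0 < 4 d`. Since `r < k + 1`,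
`j1 < n` (by `card_anti`).
For `l ∈ K`: `a (j1+1) l = a j1 l < θ` (`l ≠ i`), so by `cross_exists` there is a crossing
`n' ≥ j1 + 1`, `n' < N`, `ma n' = l`, of type L by the choice of `j1`. If `n' < n` then
`a j1 l ≤ a n' l ≤ a n' i0 ≤ a n i0 < 4 d` (type L: the machine is least loaded). If `n' ≥ n` then
`a n l ≤ a n' l < θ`, so `l ∈ D θ n`. Hence
`∑_{l ∈ K} a j1 l ≤ 4 d k + r` (each `l ∈ D θ n` contributes at most `θ ≤ 1`).
For `l ∉ K`: `∑_{l ∉ K} a j1 l ≤ ∑_{l ∉ K} a N l ≤ (m - k) θ + 2 η m`, because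
`∑_l (a N l - θ) ≤ 2 η m` with nonnegative terms. So
`m μ ≤ 4 d m + d m + 1 + (m - k) + 2 η m` and `m - k ≤ 2 m / 5` (`m ≥ 10`, `k = 2m/3`). Then
`θ ≤ a j1 i + t j1 ≤ 2 μ ≤ 4/5 + 10 d + 2/m + 4 η`; with `d ≤ 1/100`, `2/m ≤ d`, `η ≤ d^2` the right
side is `< 95/100 < 1 - η`. Contradiction.
-/

open Finset
open scoped Classical

namespace Pool.Agent.OSR.Pack

variable {m : ℕ} {ζ : ℝ} (P : Pack m (2 * m / 3) ζ)

theorem cross_L (hm : 10 ≤ m) (hζ : 0 ≤ ζ) (hζ1 : ζ ≤ 1 / 10) {η d : ℝ} (hη : 0 ≤ η)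
    (hd : 3 * ζ + 6 * η + 2 / m ≤ d) (hd2 : 2 * η < d ^ 2) (hd1 : d ≤ 1 / 100) {N : ℕ}
    (hload : ∀ i, 1 - η ≤ P.a N i) (hsum : ∑ i, P.a N i ≤ (1 + η) * m) {j : ℕ} (hj : j < N)
    (hc : P.Cross (1 - η) j) : PlaceL (2 * m / 3) ζ (P.a j) (P.t j) (P.ma j) := by
  by_contra hbad
  -- the last bad step
  obtain ⟨j1, hj1N, hcr, hnL, hlast⟩ : ∃ j1, j1 < N ∧ P.Cross (1 - η) j1 ∧
      ¬ PlaceL (2 * m / 3) ζ (P.a j1) (P.t j1) (P.ma j1) ∧
      ∀ l, j1 < l → l < N → P.Cross (1 - η) l →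
        PlaceL (2 * m / 3) ζ (P.a l) (P.t l) (P.ma l) := by
    let S := (range N).filter (fun l => P.Cross (1 - η) l ∧
      ¬ PlaceL (2 * m / 3) ζ (P.a l) (P.t l) (P.ma l))
    have hS : S.Nonempty := ⟨j, Finset.mem_filter.2 ⟨Finset.mem_range.2 hj, hc, hbad⟩⟩
    have h1 := S.max'_mem hS
    rw [Finset.mem_filter] at h1
    refine ⟨S.max' hS, Finset.mem_range.1 h1.1, h1.2.1, h1.2.2, ?_⟩
    intro l hl hlN hcl
    by_contra h2
    have h3 : l ∈ S := Finset.mem_filter.2 ⟨Finset.mem_range.2 hlN, hcl, h2⟩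
    exact absurd (S.le_max' l h3) (not_le.2 hl)
  obtain ⟨hacc, hlt, hge⟩ := hcr
  have hPl : PlaceP (2 * m / 3) ζ (P.a j1) (P.t j1) (P.ma j1) := by
    rcases P.hp j1 hacc with h | h
    · exact h
    · exact absurd h hnL
  have hcard := P.P_card hPl hlt
  obtain ⟨hbd, K, hK, hiK, hK2⟩ := hPl
  -- numbers
  have hm' : (10 : ℝ) ≤ m := by exact_mod_cast hm
  have hm0 : (0 : ℝ) < m := by linarith
  have h2m : 0 ≤ 2 / (m : ℝ) := by positivity
  have hd0 : 2 / (m : ℝ) ≤ d := by linarith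
  have hdm : 2 ≤ d * m := by
    rw [div_le_iff₀ hm0] at hd0
    exact hd0
  have hdpos : 0 ≤ d := by linarith
  have hdd : d ^ 2 ≤ 1 / 10000 := by nlinarith
  have hη1 : η ≤ 1 / 20000 := by linarith
  have hdm1 : d * m ≤ m / 100 := by
    have := mul_le_mul_of_nonneg_right hd1 hm0.le
    linarith
  have hk1 : 2 * m ≤ 3 * K.card + 2 := by
    rw [hK]
    omega
  have hk1' : 2 * (m : ℝ) ≤ 3 * K.card + 2 := by exact_mod_cast hk1
  have hk2 : K.card ≤ m := by
    have := Finset.card_le_univ K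
    rwa [Fintype.card_fin] at this
  have hk2' : (K.card : ℝ) ≤ m := by exact_mod_cast hk2
  obtain ⟨r, hr1, hr2⟩ : ∃ r : ℕ, d * m ≤ r ∧ (r : ℝ) ≤ d * m + 1 :=
    ⟨⌈d * m⌉₊, Nat.le_ceil _, (Nat.ceil_lt_add_one (by positivity)).le⟩
  have hrm : r < m := by
    have : (r : ℝ) < m := by linarith
    exact_mod_cast this
  have hrk : r < 2 * m / 3 + 1 := by
    rw [← hK]
    have : (r : ℝ) < K.card + 1 := by linarith
    exact_mod_cast this
  obtain ⟨n, hnN, hnr, hnmin⟩ := P.exists_nstar (by linarith : 0 < 1 - η) hrm hload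
  obtain ⟨i0, hi0⟩ := P.min_small hm hζ hζ1 hη hd hd2 hd1 hload hsum hnN hnr hr1 hr2
  have hj1n : j1 < n := by
    by_contra h
    have h1 := P.card_anti (1 - η) (not_lt.1 h)
    omega
  have hKl : ∀ l ∈ K, P.a j1 l ≤ 4 * d + if l ∈ P.D (1 - η) n then 1 else 0 := by
    intro l hl
    have h1 : P.a j1 l < 1 - η := lt_of_le_of_lt (hK2 l hl) hlt
    have h2 : P.a (j1 + 1) l = P.a j1 l := by
      rw [P.hs j1 hacc l, if_neg, add_zero]
      intro h3
      rw [h3] at hiK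
      exact hiK hl
    obtain ⟨n', hn1, hn2, hn3, hn4⟩ := P.cross_exists (i := l) (Nat.succ_le_of_lt hj1N)
      (by rw [Nat.succ_eq_add_one, h2]; exact h1) (hload l)
    have hL := hlast n' (by omega) hn2 hn4
    by_cases h3 : n' < n
    · have h4 := hL.1 i0
      rw [hn3] at h4
      have h5 := P.a_mono (by omega : j1 ≤ n') l
      have h6 := P.a_mono h3.le i0
      split_ifs
      · linarith
      · linarith
    · have h4 := P.a_mono (not_lt.1 h3) l
      have h5 := hn4.2.1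
      rw [hn3] at h5
      have h6 : l ∈ P.D (1 - η) n := by
        unfold D
        rw [Finset.mem_filter]
        exact ⟨Finset.mem_univ _, lt_of_le_of_lt h4 h5⟩
      rw [if_pos h6]
      linarith
  have hsum1 : ∑ l ∈ K, P.a j1 l ≤ 4 * d * K.card + r := by
    refine (Finset.sum_le_sum hKl).trans ?_
    rw [Finset.sum_add_distrib, Finset.sum_const, nsmul_eq_mul]
    have h1 : ∑ l ∈ K, (if l ∈ P.D (1 - η) n then (1 : ℝ) else 0) ≤ r := by
      rw [Finset.sum_ite, Finset.sum_const, Finset.sum_const_zero, add_zero, nsmul_eq_mul,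
        mul_one, ← hnr]
      have h2 : (K.filter (fun l => l ∈ P.D (1 - η) n)).card ≤ (P.D (1 - η) n).card :=
        Finset.card_le_card (fun l hl => (Finset.mem_filter.1 hl).2)
      exact_mod_cast h2
    linarith
  have hsum2 : ∑ l ∈ univ \ K, P.a j1 l ≤ (m - K.card) * (1 - η) + 2 * η * m := by
    have h1 : ∑ l ∈ univ \ K, P.a j1 l ≤ ∑ l ∈ univ \ K, ((1 - η) + (P.a N l - (1 - η))) := by
      refine Finset.sum_le_sum (fun l _ => ?_)
      have := P.a_mono hj1N.le l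
      linarith
    refine h1.trans ?_
    rw [Finset.sum_add_distrib, Finset.sum_const, nsmul_eq_mul,
      Finset.card_sdiff_of_subset (Finset.subset_univ K), Finset.card_univ,
      Fintype.card_fin, Nat.cast_sub hk2]
    have h2 : ∑ l ∈ univ \ K, (P.a N l - (1 - η)) ≤ ∑ l, (P.a N l - (1 - η)) :=
      Finset.sum_le_sum_of_subset_of_nonneg (Finset.subset_univ _)
        (fun l _ _ => by linarith [hload l])
    have h3 : ∑ l, (P.a N l - (1 - η)) = ∑ l, P.a N l - m * (1 - η) := by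
      rw [Finset.sum_sub_distrib, Finset.sum_const, nsmul_eq_mul, Finset.card_univ,
        Fintype.card_fin]
    rw [h3] at h2
    linarith
  have hsum3 : ∑ l, P.a j1 l = ∑ l ∈ K, P.a j1 l + ∑ l ∈ univ \ K, P.a j1 l := by
    rw [add_comm, Finset.sum_sdiff (Finset.subset_univ K)]
  have hge' : 1 - η ≤ P.a j1 (P.ma j1) + P.t j1 := by
    rw [P.hs j1 hacc, if_pos rfl] at hge
    exact hge
  have hmu0 : 0 ≤ (∑ l, P.a j1 l) / m :=
    div_nonneg (Finset.sum_nonneg (fun l _ => P.a_nonneg j1 l)) hm0.le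
  have h1 : 1 - η ≤ 2 * ((∑ l, P.a j1 l) / m) := by
    have h2 : 0 ≤ ζ * ((∑ l, P.a j1 l) / m) := mul_nonneg hζ hmu0
    linarith
  have h2 : (1 - η) * m ≤ 2 * ∑ l, P.a j1 l := by
    have h3 := mul_le_mul_of_nonneg_right h1 hm0.le
    rw [mul_assoc, div_mul_cancel₀ _ hm0.ne'] at h3
    exact h3
  have h3 : 4 * d * K.card ≤ 4 * d * m := mul_le_mul_of_nonneg_left hk2' (by linarith)
  have h4 : (m - K.card) * (1 - η) ≤ (m - K.card) * 1 :=
    mul_le_mul_of_nonneg_left (by linarith) (by linarith)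
  have h5 : η * m ≤ 1 / 20000 * m := mul_le_mul_of_nonneg_right hη1 hm0.le
  linarith

end Pool.Agent.OSR.Pack
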