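import Pool.Agent.OSR.Pk4

/-!
The stability lemma: in a balanced state every machine has received a job of length
`≥ (1 - 5 d) T`.

PROOFS. `pack_one` (`T = 1`). Let `θ = 1 - η`, `i` a machine. By `cross_exists` (from time `0`)
there is a crossing step `j < N` with `ma j = i`; it is of type L by `cross_L`. Let
`r = ⌈d m⌉₊`, `n` from `exists_nstar`, `i0` from `min_small` (`a n i0 < 4 d`). If `j < n`, then
`a j i ≤ a j i0 ≤ a n i0 < 4 d`, so `t j ≥ θ - 4 d ≥ 1 - 5 d` (`a (j+1) i = a j i + t j ≥ θ`,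
`η ≤ d`). If `n ≤ j`, then `card D j ≤ r ≤ d m + 1` (`card_anti`), so by `L_size`
`t j > 1 - 7 η - 3 ζ - 2 d - 2/m ≥ 1 - 5 d` (as `6 η + 3 ζ + 2/m ≤ d` and `η ≤ d`).
`pack_main`: apply `pack_one` to the sequence scaled by `1/T` (a new `Pack` with
`a j i / T`, `t j / T`; `PlaceP`, `PlaceL` are homogeneous).
-/

open Finset
open scoped Classical

namespace Pool.Agent.OSR.Pack

variable {m : ℕ} {ζ : ℝ}

theorem pack_one (P : Pack m (2 * m / 3) ζ) (hm : 10 ≤ m) (hζ : 0 ≤ ζ) (hζ1 : ζ ≤ 1 / 10)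
    {η d : ℝ} (hη : 0 ≤ η) (hd : 3 * ζ + 6 * η + 2 / m ≤ d) (hd2 : 2 * η < d ^ 2)
    (hd1 : d ≤ 1 / 100) {N : ℕ} (hload : ∀ i, 1 - η ≤ P.a N i)
    (hsum : ∑ i, P.a N i ≤ (1 + η) * m) (i : Fin m) :
    ∃ j, j < N ∧ P.acc j ∧ P.ma j = i ∧ 1 - 5 * d ≤ P.t j := by
  have hm' : (10 : ℝ) ≤ m := by exact_mod_cast hm
  have hm0 : (0 : ℝ) < m := by linarith
  have h2m : (0 : ℝ) < 2 / m := by positivity
  have hd0 : 0 < d := by linarith
  have hηd : η ≤ d := by linarith
  have hθ : 0 < 1 - η := by linarith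
  obtain ⟨j, -, hjN, hji, hc⟩ := P.cross_exists (Nat.zero_le N) (θ := 1 - η) (i := i)
    (by rw [P.h0]; exact hθ) (hload i)
  have hL := P.cross_L hm hζ hζ1 hη hd hd2 hd1 hload hsum hjN hc
  obtain ⟨hacc, hlow, hup⟩ := hc
  refine ⟨j, hjN, hacc, hji, ?_⟩
  obtain ⟨r, hr⟩ : ∃ r : ℕ, r = ⌈d * m⌉₊ := ⟨_, rfl⟩
  have hr1 : d * m ≤ r := by
    rw [hr]
    exact Nat.le_ceil _
  have hr2 : (r : ℝ) ≤ d * m + 1 := by
    rw [hr]
    exact (Nat.ceil_lt_add_one (by positivity)).le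
  have hdm : d * m ≤ 1 / 100 * m := mul_le_mul_of_nonneg_right hd1 hm0.le
  have hrm : r < m := by
    have h : (r : ℝ) < m := by linarith
    exact_mod_cast h
  obtain ⟨n, hnN, hcard, hbig⟩ := P.exists_nstar hθ hrm hload
  obtain ⟨i0, hi0⟩ := P.min_small hm hζ hζ1 hη hd hd2 hd1 hload hsum hnN hcard hr1 hr2
  rcases lt_or_ge j n with hjn | hjn
  · have h1 := hL.1 i0
    have h2 := P.a_mono hjn.le i0
    have h3 := P.hs j hacc (P.ma j)
    rw [if_pos rfl] at h3
    linarith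
  · have h1 := P.L_size hm hζ hζ1 hη (by linarith) hjN.le hload hsum hL
    have h2 := P.card_anti (1 - η) hjn
    rw [hcard] at h2
    have h3 : ((P.D (1 - η) j).card : ℝ) ≤ d * m + 1 :=
      le_trans (by exact_mod_cast h2) hr2
    have h4 : 2 * ((P.D (1 - η) j).card : ℝ) / m ≤ 2 * d + 2 / m := by
      rw [div_le_iff₀ hm0, add_mul, div_mul_cancel₀ _ hm0.ne']
      linarith
    linarith

theorem pack_main (P : Pack m (2 * m / 3) ζ) (hm : 10 ≤ m) (hζ : 0 ≤ ζ) (hζ1 : ζ ≤ 1 / 10)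
    {η d T : ℝ} (hT : 0 < T) (hη : 0 ≤ η) (hd : 3 * ζ + 6 * η + 2 / m ≤ d) (hd2 : 2 * η < d ^ 2)
    (hd1 : d ≤ 1 / 100) {N : ℕ} (hload : ∀ i, (1 - η) * T ≤ P.a N i)
    (hsum : ∑ i, P.a N i ≤ (1 + η) * (m * T)) (i : Fin m) :
    ∃ j, j < N ∧ P.acc j ∧ P.ma j = i ∧ (1 - 5 * d) * T ≤ P.t j := by
  have hsd : ∀ j, (∑ l, P.a j l / T) / m = ((∑ l, P.a j l) / m) / T := by
    intro j
    rw [← Finset.sum_div, div_div, div_div, mul_comm T]
  obtain ⟨j, h1, h2, h3, h4⟩ := pack_one (η := η) (d := d) (N := N)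
    ({ a := fun j i => P.a j i / T
       t := fun j => P.t j / T
       ma := P.ma
       acc := P.acc
       h0 := fun i => by simp [P.h0]
       ht := fun j hj => div_pos (P.ht j hj) hT
       hs := fun j hj i => by
        rw [P.hs j hj i]
        by_cases h : P.ma j = i
        · simp only [if_pos h]
          rw [add_div]
        · simp only [if_neg h]
          simp
       hn := fun j hj i => by rw [P.hn j hj i]
       hp := fun j hj => by
        rcases P.hp j hj with ⟨hA, K, hK, hiK, hle⟩ | ⟨hmin, K, j0, hK, hout, hlt⟩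
        · left
          refine ⟨?_, K, hK, hiK, fun l hl => div_le_div_of_nonneg_right (hle l hl) hT.le⟩
          rw [hsd, ← add_div, mul_div_assoc']
          exact div_le_div_of_nonneg_right hA hT.le
        · right
          refine ⟨fun l => div_le_div_of_nonneg_right (hmin l) hT.le, K, j0, hK,
            fun l hl => div_le_div_of_nonneg_right (hout l hl) hT.le, ?_⟩
          rw [hsd, ← add_div, mul_div_assoc']
          exact div_lt_div_of_pos_right hlt hT } : Pack m (2 * m / 3) ζ)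
    hm hζ hζ1 hη hd hd2 hd1
    (fun i => by
      show 1 - η ≤ P.a N i / T
      rw [le_div_iff₀ hT]
      exact hload i)
    (by
      show ∑ i, P.a N i / T ≤ (1 + η) * m
      rw [← Finset.sum_div, div_le_iff₀ hT]
      linarith)
    i
  refine ⟨j, h1, h2, h3, ?_⟩
  have h5 : 1 - 5 * d ≤ P.t j / T := h4
  rwa [le_div_iff₀ hT] at h5

end Pool.Agent.OSR.Pack
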