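import Pool.Agent.OSR.Defs

/-!
A sequence of load vectors under the packing rule, without reference to the rejection rules.
-/

open Finset
open scoped Classical

namespace Pool.Agent.OSR

noncomputable section

/-- Load vectors `a j` after `j` steps; step `j` puts a job of length `t j` on machine `ma j` if
`acc j` holds, and changes nothing otherwise. -/
structure Pack (m k : ℕ) (ζ : ℝ) where
  a : ℕ → Fin m → ℝ
  t : ℕ → ℝ
  ma : ℕ → Fin m
  acc : ℕ → Prop
  h0 : ∀ i, a 0 i = 0
  ht : ∀ j, acc j → 0 < t j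
  hs : ∀ j, acc j → ∀ i, a (j + 1) i = a j i + if ma j = i then t j else 0
  hn : ∀ j, ¬ acc j → ∀ i, a (j + 1) i = a j i
  hp : ∀ j, acc j → PlaceP k ζ (a j) (t j) (ma j) ∨ PlaceL k ζ (a j) (t j) (ma j)

namespace Pack

variable {m k : ℕ} {ζ : ℝ} (P : Pack m k ζ)

/-- The set of the machines with load `< θ` after `j` steps. -/
def D (θ : ℝ) (j : ℕ) : Finset (Fin m) := univ.filter (fun i => P.a j i < θ)

/-- Step `j` is a crossing of the level `θ` by the machine `ma j`. -/
def Cross (θ : ℝ) (j : ℕ) : Prop :=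
  P.acc j ∧ P.a j (P.ma j) < θ ∧ θ ≤ P.a (j + 1) (P.ma j)

end Pack

end

end Pool.Agent.OSR
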