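import Pool.Agent.OSR.Crit
import Pool.Agent.OSR.CaseI
import Pool.Agent.OSR.CaseII

/-!
The requirement in all cases.

PROOF. Let `Gs = (mux n s - a0) + |mux n s - T| / 10 + ((c-2+Zi) T - hs 1 p)`,
`a0 = load s (ma s)`; each summand is nonnegative (`mux_ge`, `x1_le` with `hb`).
* `T = 0`: no job `< n` is hosted (`hosted_le`, `R.ht`), so `hs 2 z = 0`; the right side is `≥ 0`.
* `T > 0`, `Gs ≥ 2 ζ T`: hosted jobs have `t ≤ T`, so
  `hs 2 z ≤ sm n (cl = 2 ∧ t ≤ T) z ≤ (ζ + Z/2) T` (`E_size`), and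
  `Zi + ζ + Z/2 ≤ ζ + Z ≤ 2 ζ` (`Z = 10^4 ζ^2 ≤ ζ`). The other terms are nonnegative.
* `T > 0`, `E n ≥ ζ T / 2`: `caseI`.
* Otherwise put `g' = Gs / T < 2 ζ`. `crit` gives `g' ≥ 0`, `g`, `l` (`g i < s`, so `g i ≠ s` and
  `g i < n`). Apply `caseII` with `lam = 50 ζ + 25 √g' ≤ 50 ζ + 25 √(2 ζ)`, `Gg = Gs`. Its
  hypothesis `hG`: by `E_size`, `c * Esmall ≤ c (ζ + Z/2) lam T`, and
  `c (ζ + Z/2) ≤ (21/8)(1.005) ζ ≤ 2.64 ζ`, so
  `≤ (132 ζ^2 + 66 ζ √g') T ≤ (132 ζ^2 + 1089 ζ^2 + g') T` (from `(33 ζ - √g')^2 ≥ 0`,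
  `√g' ^ 2 = g'`) `≤ (Z/2 + g') T ≤ (Z - Zi) T + Gs` (`Z/2 = 5000 ζ^2`).
-/

open Finset
open scoped Classical

namespace Pool.Agent.OSR.Run

variable {m : ℕ} {c Zi Z B ν ζ ρ : ℝ} (R : Run m c Z B ν ζ) {n : ℕ}
  {σ : ℕ → Option (Fin m)} {T : ℝ}

theorem req (G : Good m c Zi Z B ν ζ ρ) (hT : 0 ≤ T)
    (h : ∀ i, sm n (fun j => σ j = some i) R.t ≤ T) {s : ℕ} (hs : s < n)
    (hL : ∀ i, R.load s (R.ma s) ≤ R.load s i) :
    Zi * T + R.hs n σ 2 R.z ≤ c * R.rx n σ s R.z + (c - 1) * R.rs n σ 2 R.z +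
      R.hs n σ 2 R.t / m / 10 + ((R.mux n s - R.load s (R.ma s)) + |R.mux n s - T| / 10 +
        ((c - 2 + Zi) * T - R.hs n σ 1 R.p)) := by
  have hm := G.hm
  have hc1 := G.hc1
  have hc2 := G.hc2
  have hb := G.hb
  have hZi0 := G.hZi0
  have hZi := G.hZi
  have hζ0 := G.hζ0
  have hζ := G.hζ
  have hZ := G.hZ
  have hν1 := G.hν1
  have hB := G.hB
  have hc : 1 < c := by linarith
  have hm0 : 0 < m := by omega
  have hζζ : ζ ^ 2 ≤ ζ / 10 ^ 6 := by
    have := mul_le_mul_of_nonneg_left hζ hζ0.le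
    rw [pow_two]
    linarith
  have hZpos : 0 < Z := by
    rw [hZ]
    positivity
  have hZle : Z ≤ ζ / 100 := by
    rw [hZ]
    linarith
  obtain ⟨Gs, hGs⟩ : ∃ Gs, Gs = (R.mux n s - R.load s (R.ma s)) + |R.mux n s - T| / 10 +
      ((c - 2 + Zi) * T - R.hs n σ 1 R.p) := ⟨_, rfl⟩
  have hA1 := (R.mux_ge hm0 hs hL).1
  have hA2 := abs_nonneg (R.mux n s - T)
  have hA3 : R.hs n σ 1 R.p ≤ (c - 2 + Zi) * T := by
    have h1 := R.x1_le hc hT h
    have h2 : (c - 1) * R.hs n σ 1 R.p ≤ (c - 1) * ((c - 2 + Zi) * T) := by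
      rw [← mul_assoc, hb, one_mul]
      exact h1
    exact le_of_mul_le_mul_left h2 (by linarith)
  have hGs0 : 0 ≤ Gs := by
    rw [hGs]
    linarith
  rw [← hGs]
  have hn1 : 0 ≤ c * R.rx n σ s R.z := mul_nonneg (by linarith) (R.rx_z_nonneg s)
  have hn2 : 0 ≤ (c - 1) * R.rs n σ 2 R.z :=
    mul_nonneg (by linarith) (R.rs_z_nonneg (by decide))
  have hn3 : 0 ≤ R.hs n σ 2 R.t / m / 10 := by
    have := R.hs_t_nonneg (n := n) (σ := σ) 2
    positivity
  rcases hT.eq_or_lt with hT0 | hT0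
  · -- `T = 0`
    have h1 : R.hs n σ 2 R.z = 0 := by
      unfold Run.hs
      apply sm_eq_zero
      rintro j hj ⟨-, hσ⟩
      have h2 := hosted_le (fun j => (R.ht j).le) h hj hσ
      have h3 := R.ht j
      linarith
    rw [h1, ← hT0]
    linarith
  · by_cases hbig : 2 * ζ * T ≤ Gs
    · have h1 : R.hs n σ 2 R.z ≤ sm n (fun j => R.cl j = 2 ∧ R.t j ≤ T) R.z := by
        unfold Run.hs
        apply sm_le_of_imp
        · rintro j hj ⟨h2, hσ⟩
          exact ⟨h2, hosted_le (fun j => (R.ht j).le) h hj hσ⟩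
        · rintro j hj ⟨h2, -⟩
          refine (R.z_pos ?_).le
          rw [h2]
          decide
      have h2 := R.E_size hZpos (by linarith : 0 < B) (by linarith : 0 ≤ ν) hζ0.le n hT
      have h3 : (Zi + (ζ + Z / 2)) * T ≤ 2 * ζ * T :=
        mul_le_mul_of_nonneg_right (by linarith) hT
      linarith
    · by_cases hE : ζ * T / 2 ≤ R.E n
      · have h1 := R.caseI G hT0 h hE
        linarith
      · have hg' : Gs = Gs / T * T := by
          rw [div_mul_cancel₀ _ hT0.ne']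
        have hg2 : Gs / T < 2 * ζ := by
          rw [div_lt_iff₀ hT0]
          exact not_le.1 hbig
        obtain ⟨hg0, g, hinj, hgs, hgc, hgt, l, hln, hlc, hlσ, hlt⟩ :=
          R.crit G hT0 h hs hL (g' := Gs / T) (by rw [← hGs]; exact hg') hg2
        obtain ⟨g', hgdef⟩ : ∃ g', g' = Gs / T := ⟨_, rfl⟩
        rw [← hgdef] at hg' hg2 hg0 hgt hlt
        have hsq0 : 0 ≤ √g' := Real.sqrt_nonneg _
        have hsq : √g' * √g' = g' := Real.mul_self_sqrt hg0
        have hl0 : 0 ≤ 50 * ζ + 25 * √g' := by linarith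
        have hl1 : 50 * ζ + 25 * √g' ≤ 50 * ζ + 25 * √(2 * ζ) := by
          have := Real.sqrt_le_sqrt hg2.le
          linarith
        have hEs := R.E_size hZpos (by linarith : 0 < B) (by linarith : 0 ≤ ν) hζ0.le n
          (mul_nonneg hl0 hT)
        have hG : c * sm n (fun j => R.cl j = 2 ∧ R.t j ≤ (50 * ζ + 25 * √g') * T) R.z ≤
            (Z - Zi) * T + Gs := by
          have h1 : c * (ζ + Z / 2) ≤ 264 / 100 * ζ := by
            have h2 : ζ + Z / 2 ≤ 1005 / 1000 * ζ := by linarith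
            have h3 : c * (ζ + Z / 2) ≤ 21 / 8 * (1005 / 1000 * ζ) :=
              mul_le_mul hc2 h2 (by linarith) (by norm_num)
            linarith
          have h2 : c * sm n (fun j => R.cl j = 2 ∧ R.t j ≤ (50 * ζ + 25 * √g') * T) R.z ≤
              c * ((ζ + Z / 2) * ((50 * ζ + 25 * √g') * T)) :=
            mul_le_mul_of_nonneg_left hEs (by linarith)
          have h3 : c * (ζ + Z / 2) * ((50 * ζ + 25 * √g') * T) ≤
              264 / 100 * ζ * ((50 * ζ + 25 * √g') * T) :=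
            mul_le_mul_of_nonneg_right h1 (mul_nonneg hl0 hT)
          have h4 : 264 / 100 * ζ * (50 * ζ + 25 * √g') ≤ Z / 2 + g' := by
            rw [hZ]
            nlinarith [sq_nonneg (33 * ζ - √g'), sq_nonneg ζ]
          have h5 : 264 / 100 * ζ * (50 * ζ + 25 * √g') * T ≤ (Z / 2 + g') * T :=
            mul_le_mul_of_nonneg_right h4 hT
          have h6 : (Z / 2 + g') * T ≤ (Z - Zi + g') * T :=
            mul_le_mul_of_nonneg_right (by linarith) hT
          rw [hg']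
          linarith
        have h1 := R.caseII G hT0 h (not_le.1 hE) hl0 hl1 s g hinj
          (fun i => (hgs i).trans hs) (fun i => (hgs i).ne) hgc hgt hln hlc hlσ hlt hG
        linarith

end Pool.Agent.OSR.Run
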